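import Mathlib

/-!
# Groups with two faithful doubly transitive actions, one of them of degree 6

Helper file for `MP_4dd1f4_al`.
-/

set_option autoImplicit false

namespace Pool.Agent.R656.DT

open Equiv Subgroup

/-- Transitivity on ordered pairs of distinct points. -/
def TwoT {N F : Type*} [Group N] (ρ : N →* Perm F) : Prop :=
  ∀ x y x' y' : F, x ≠ y → x' ≠ y' → ∃ g, ρ g x = x' ∧ ρ g y = y'

/-- The number of fixed points. -/
noncomputable def nfix {F : Type*} (h : Perm F) : ℕ := Nat.card {z // h z = z}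

section counting

variable {F : Type*} [Finite F]

lemma nfix_modEq {p n : ℕ} [Fact p.Prime] {σ : Perm F} (hσ : σ ^ p ^ n = 1) :
    nfix σ ≡ Nat.card F [MOD p] := by
  classical
  have := Fintype.ofFinite F
  have h := Equiv.Perm.card_compl_support_modEq hσ
  rw [nfix, Nat.card_eq_fintype_card, Nat.card_eq_fintype_card, Fintype.card_subtype]
  convert h using 2
  ext z
  simp

lemma nfix_commute {r : ℕ} [Fact r.Prime] {a h : Perm F} (hc : Commute a h) (ha : a ^ r = 1) :
    Nat.card {z // h z = z ∧ a z = z} ≡ nfix h [MOD r] := by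
  have hp : ∀ z, h z = z ↔ h (a z) = a z := by
    intro z
    have e : h (a z) = a (h z) := by
      have := congrArg (fun q : Perm F => q z) hc.eq
      simpa [Perm.mul_apply] using this.symm
    rw [e]
    exact a.injective.eq_iff.symm
  let a' : Perm {z // h z = z} := a.subtypePerm fun z => (hp z).symm
  have ha' : a' ^ r ^ 1 = 1 := by
    rw [pow_one, Perm.subtypePerm_pow]
    ext z
    simp [ha]
  have h1 := nfix_modEq ha'
  have h2 : nfix a' = Nat.card {z // h z = z ∧ a z = z} := by
    rw [nfix]
    refine Nat.card_congr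
      { toFun := fun z => ⟨z.1.1, z.1.2, ?_⟩
        invFun := fun z => ⟨⟨z.1, z.2.1⟩, ?_⟩
        left_inv := fun z => rfl
        right_inv := fun z => rfl }
    · have := congrArg Subtype.val z.2
      simpa [a'] using this
    · exact Subtype.ext z.2.2
  rw [h2] at h1
  exact h1

lemma nfix_eq_card {h : Perm F} (hh : nfix h = Nat.card F) : h = 1 := by
  ext z
  by_contra hz
  have hlt : nfix h < Nat.card F := by
    have := Fintype.ofFinite F
    classical
    rw [nfix, Nat.card_eq_fintype_card, Nat.card_eq_fintype_card]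
    exact Fintype.card_subtype_lt (x := z) hz
  omega

lemma nfix_le (h : Perm F) : nfix h ≤ Nat.card F :=
  Nat.card_le_card_of_injective _ Subtype.val_injective

lemma nfix_lt {h : Perm F} (hh : h ≠ 1) : nfix h < Nat.card F :=
  lt_of_le_of_ne (nfix_le h) fun e => hh (nfix_eq_card e)

lemma nfix_pos {h : Perm F} {b : F} (hb : h b = b) : 0 < nfix h :=
  Nat.card_pos_iff.2 ⟨⟨⟨b, hb⟩⟩, inferInstance⟩

end counting

section degree

variable {N F : Type*} [Group N] (ρ : N →* Perm F)

/-- A transitive action: the index of the stabiliser. -/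
lemma index_stab (ht : ∀ x y, ∃ g, ρ g x = y) (b : F) :
    ∃ H : Subgroup N, (∀ g, g ∈ H ↔ ρ g b = b) ∧ H.index = Nat.card F := by
  let _ : MulAction N F := MulAction.compHom F ρ
  have : MulAction.IsPretransitive N F := ⟨fun x y => ht x y⟩
  exact ⟨MulAction.stabilizer N b, fun g => Iff.rfl, MulAction.index_stabilizer_of_transitive N b⟩

lemma TwoT.trans {ρ : N →* Perm F} (h : TwoT ρ) (x y : F) :
    ∃ g, ρ g x = y := by
  by_cases hxy : x = y
  · exact ⟨1, by simp [hxy]⟩
  · obtain ⟨g, hg, -⟩ := h x y y x hxy (Ne.symm hxy)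
    exact ⟨g, hg⟩

/-- The order of a doubly transitive group of degree `m` is divisible by `m (m - 1)`. -/
lemma TwoT.dvd_card [Finite F] {ρ : N →* Perm F} (h : TwoT ρ) (hF : 1 < Nat.card F) :
    Nat.card F * (Nat.card F - 1) ∣ Nat.card N := by
  classical
  have := Fintype.ofFinite F
  let Y := {p : F × F // p.1 ≠ p.2}
  let θ : N →* Perm Y :=
    { toFun := fun g =>
        { toFun := fun p => ⟨(ρ g p.1.1, ρ g p.1.2), fun e => p.2 ((ρ g).injective e)⟩
          invFun := fun p => ⟨((ρ g).symm p.1.1, (ρ g).symm p.1.2),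
            fun e => p.2 ((ρ g).symm.injective e)⟩
          left_inv := fun p => by simp
          right_inv := fun p => by simp }
      map_one' := by ext p <;> simp
      map_mul' := fun g g' => by ext p <;> simp }
  have ht : ∀ x y : Y, ∃ g, θ g x = y := by
    rintro ⟨⟨x, y⟩, hxy⟩ ⟨⟨x', y'⟩, hxy'⟩
    obtain ⟨g, hg1, hg2⟩ := h x y x' y' hxy hxy'
    exact ⟨g, Subtype.ext (Prod.ext hg1 hg2)⟩
  obtain ⟨x, y, hxy⟩ := (Finite.one_lt_card_iff_nontrivial.1 hF).exists_pair_ne
  obtain ⟨H, -, hH⟩ := index_stab θ ht ⟨(x, y), hxy⟩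
  have hcard : Nat.card Y = Nat.card F * (Nat.card F - 1) := by
    have h1 : Fintype.card Y = (Finset.univ : Finset F).offDiag.card := by
      rw [Fintype.card_subtype]
      congr 1
      ext p
      simp
    rw [Nat.card_eq_fintype_card, h1, Finset.offDiag_card, Finset.card_univ,
      Nat.card_eq_fintype_card, Nat.mul_sub, mul_one]
  rw [← hcard, ← hH]
  exact H.index_dvd_card

end degree

/-- A normal subgroup `K` of a doubly transitive group that acts transitively on a set with six
elements; if the elements of `K` that fix the point `b` act trivially on this set we get a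
contradiction, since `6` is no prime power. -/
theorem reg {N F Y : Type*} [Group N] (ρ : N →* Perm F) (h2 : TwoT ρ) (b : F)
    (θ : N →* Perm Y) (hY : Nat.card Y = 6) (K : Subgroup N) (hK : K.Normal)
    (ht : ∀ y z, ∃ k ∈ K, θ k y = z) (hr : ∀ k ∈ K, ρ k b = b → θ k = 1) : False := by
  have : Finite Y := Nat.finite_of_card_ne_zero (by omega)
  -- the image of `K`
  have hdvd : 6 ∣ Nat.card (K.map θ) := by
    have ht' : ∀ y z : Y, ∃ g : K.map θ, (K.map θ).subtype g y = z := by
      intro y z
      obtain ⟨k, hk, e⟩ := ht y z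
      exact ⟨⟨θ k, k, hk, rfl⟩, e⟩
    obtain ⟨y⟩ : Nonempty Y := (Nat.card_pos_iff.1 (by omega)).1
    obtain ⟨H, -, hH⟩ := index_stab (K.map θ).subtype ht' y
    rw [← hY, ← hH]
    exact H.index_dvd_card
  have : Fact (Nat.Prime 2) := ⟨Nat.prime_two⟩
  have : Fact (Nat.Prime 3) := ⟨Nat.prime_three⟩
  obtain ⟨⟨_, k, hk, rfl⟩, hu⟩ := exists_prime_orderOf_dvd_card' (G := K.map θ) 2
    (dvd_trans (by norm_num) hdvd)
  obtain ⟨⟨_, l, hl, rfl⟩, hv⟩ := exists_prime_orderOf_dvd_card' (G := K.map θ) 3
    (dvd_trans (by norm_num) hdvd)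
  replace hu : orderOf (θ k) = 2 := by rw [← hu]; exact (Subgroup.orderOf_mk _ _).symm
  replace hv : orderOf (θ l) = 3 := by rw [← hv]; exact (Subgroup.orderOf_mk _ _).symm
  have hk1 : θ k ≠ 1 := fun e => by rw [e, orderOf_one] at hu; omega
  have hl1 : θ l ≠ 1 := fun e => by rw [e, orderOf_one] at hv; omega
  have hkb : b ≠ ρ k b := fun e => hk1 (hr k hk e.symm)
  have hlb : b ≠ ρ l b := fun e => hl1 (hr l hl e.symm)
  obtain ⟨g, hg1, hg2⟩ := h2 b (ρ k b) b (ρ l b) hkb hlb
  have hmem : l⁻¹ * (g * k * g⁻¹) ∈ K := K.mul_mem (K.inv_mem hl) (hK.conj_mem k hk g)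
  have hfix : ρ (l⁻¹ * (g * k * g⁻¹)) b = b := by
    have e1 : (ρ g)⁻¹ b = b := by rw [Perm.inv_eq_iff_eq]; exact hg1.symm
    simp only [map_mul, map_inv, Perm.mul_apply]
    rw [e1, hg2]
    simp
  have h3 := hr _ hmem hfix
  simp only [map_mul, map_inv] at h3
  have h4 : θ l = θ g * θ k * (θ g)⁻¹ := by
    rw [inv_mul_eq_one] at h3
    exact h3
  have h5 : orderOf (θ g * θ k * (θ g)⁻¹) = orderOf (θ k) := by
    have := (MulAut.conj (θ g)).orderOf_eq (θ k)
    simpa [MulAut.conj_apply] using this
  rw [h4, h5, hu] at hv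
  omega

/-- A normal subgroup of a doubly transitive group acts trivially or transitively. -/
lemma normal_or {N F : Type*} [Group N] {ρ : N →* Perm F} (h : TwoT ρ) {K : Subgroup N}
    (hK : K.Normal) : (∀ k ∈ K, ρ k = 1) ∨ ∀ y z, ∃ k ∈ K, ρ k y = z := by
  by_cases h1 : ∀ k ∈ K, ρ k = 1
  · exact Or.inl h1
  · right
    push Not at h1
    obtain ⟨k, hk, hk1⟩ := h1
    obtain ⟨x, hx⟩ : ∃ x, ρ k x ≠ x := by
      by_contra hcon
      push Not at hcon
      exact hk1 (Perm.ext hcon)
    intro y z
    by_cases hyz : y = z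
    · exact ⟨1, K.one_mem, by simp [hyz]⟩
    · obtain ⟨g, hg1, hg2⟩ := h x (ρ k x) y z (Ne.symm hx) hyz
      refine ⟨g * k * g⁻¹, hK.conj_mem k hk g, ?_⟩
      have e1 : (ρ g)⁻¹ y = x := by rw [Perm.inv_eq_iff_eq]; exact hg1.symm
      simp only [map_mul, map_inv, Perm.mul_apply]
      rw [e1, hg2]

/-- A doubly transitive group of degree at least three is not commutative. -/
lemma not_comm {N F : Type*} [Group N] {ρ : N →* Perm F} (h : TwoT ρ) (hF : 2 < Nat.card F)
    (hc : ∀ g g', ρ g * ρ g' = ρ g' * ρ g) : False := by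
  have : Finite F := Nat.finite_of_card_ne_zero (by omega)
  have := Fintype.ofFinite F
  rw [Nat.card_eq_fintype_card] at hF
  obtain ⟨x, y, z, hxy, hxz, hyz⟩ := Fintype.two_lt_card_iff.1 hF
  obtain ⟨g, hg1, hg2⟩ := h x y x z hxy hxz
  obtain ⟨l, hl1, -⟩ := h x y y x hxy (Ne.symm hxy)
  have e := congrArg (fun q : Perm F => q x) (hc g l)
  simp only [Perm.mul_apply] at e
  rw [hl1, hg2, hg1, hl1] at e
  exact hyz e.symm

section six

variable {X : Type*}

/-- In the symmetric group of degree `6` no element of order `5` commutes with one of order `3`. -/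
lemma no_comm35 (hX : Nat.card X = 6) {c t : Perm X} (hc : orderOf c = 5) (ht : orderOf t = 3)
    (hct : Commute c t) : False := by
  have : Finite X := Nat.finite_of_card_ne_zero (by omega)
  have : Fact (Nat.Prime 5) := ⟨by norm_num⟩
  have : Fact (Nat.Prime 3) := ⟨by norm_num⟩
  have hc5 : c ^ 5 ^ 1 = 1 := by rw [pow_one, ← hc, pow_orderOf_eq_one]
  have ht3 : t ^ 3 ^ 1 = 1 := by rw [pow_one, ← ht, pow_orderOf_eq_one]
  have hc1 : c ≠ 1 := fun e => by rw [e, orderOf_one] at hc; omega
  have ht1 : t ≠ 1 := fun e => by rw [e, orderOf_one] at ht; omega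
  have h1 := nfix_modEq hc5
  have h2 := nfix_modEq ht3
  have h3 := nfix_lt hc1
  have h4 := nfix_lt ht1
  have h5 := nfix_commute hct.symm (by simpa using ht3)
  have h6 := nfix_commute hct (by simpa using hc5)
  have h7 : Nat.card {z // t z = z ∧ c z = z} = Nat.card {z // c z = z ∧ t z = z} :=
    Nat.card_congr (Equiv.subtypeEquivRight fun z => and_comm)
  have h8 : Nat.card {z // c z = z ∧ t z = z} ≤ nfix c :=
    Nat.card_le_card_of_injective (fun z => ⟨z.1, z.2.1⟩) fun u v huv =>
      Subtype.ext (congrArg (fun q : {z // c z = z} => q.1) huv)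
  rw [hX] at h1 h2 h3 h4
  rw [h7] at h6
  unfold Nat.ModEq at h1 h2 h5 h6
  omega

lemma cube_zmod5 : ∀ j : ZMod 5, j * (j * j) - 1 = 0 → j - 1 = 0 := by decide

/-- There is no subgroup of order `15`, `45` or `90` of the symmetric group of degree `6`. -/
theorem no_sub (hX : Nat.card X = 6) (T : Subgroup (Perm X)) :
    Nat.card T ≠ 15 ∧ Nat.card T ≠ 45 ∧ Nat.card T ≠ 90 := by
  have : Finite X := Nat.finite_of_card_ne_zero (by omega)
  have : Fact (Nat.Prime 5) := ⟨by norm_num⟩
  have : Fact (Nat.Prime 3) := ⟨by norm_num⟩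
  suffices h : ∀ k : ℕ, (k = 3 ∨ k = 9 ∨ k = 18) → Nat.card T ≠ 5 * k by
    exact ⟨h 3 (by simp), h 9 (by simp), h 18 (by simp)⟩
  intro k hk hT
  let P : Sylow 5 T := default
  have hPc : Nat.card P = 5 := by
    rw [Sylow.card_eq_multiplicity, hT]
    rcases hk with rfl | rfl | rfl
    · rw [show (5 * 3 : ℕ) = 5 ^ 1 * 3 by norm_num, Nat.factorization_mul (by norm_num)
        (by norm_num), Nat.Prime.factorization_pow (by norm_num)]
      simp [Nat.factorization_eq_zero_of_not_dvd]
    · rw [show (5 * 9 : ℕ) = 5 ^ 1 * 9 by norm_num, Nat.factorization_mul (by norm_num)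
        (by norm_num), Nat.Prime.factorization_pow (by norm_num)]
      simp [Nat.factorization_eq_zero_of_not_dvd]
    · rw [show (5 * 18 : ℕ) = 5 ^ 1 * 18 by norm_num, Nat.factorization_mul (by norm_num)
        (by norm_num), Nat.Prime.factorization_pow (by norm_num)]
      simp [Nat.factorization_eq_zero_of_not_dvd]
  set Z : Subgroup T := Subgroup.normalizer (P : Set T) with hZ
  have hn1 : Nat.card (Sylow 5 T) ≡ 1 [MOD 5] := card_sylow_modEq_one 5 T
  have hn2 : Nat.card (Sylow 5 T) = Z.index := P.card_eq_index_normalizer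
  have hZc : Nat.card Z * Z.index = 5 * k := by rw [Z.card_mul_index, hT]
  have hPZ : (P : Subgroup T) ≤ Z := Subgroup.le_normalizer
  have h5Z : 5 ∣ Nat.card Z := by
    have := Subgroup.card_dvd_of_le hPZ
    rwa [hPc] at this
  -- `3` does not divide the order of the normaliser
  have h3Z : ¬ 3 ∣ Nat.card Z := by
    intro h3
    obtain ⟨t, ht⟩ := exists_prime_orderOf_dvd_card' (G := Z) 3 h3
    obtain ⟨c, hc⟩ := exists_prime_orderOf_dvd_card' (G := P) 5 (by rw [hPc])
    have ht' : orderOf (t : T) = 3 := by rw [Subgroup.orderOf_coe, ht]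
    have hc' : orderOf (c : T) = 5 := (Subgroup.orderOf_coe c).trans hc
    have hzp : Subgroup.zpowers (c : T) = P := by
      refine Subgroup.eq_of_le_of_card_ge ?_ ?_
      · rw [Subgroup.zpowers_le]; exact c.2
      · rw [Nat.card_zpowers, hc', hPc]
    have hconj : (t : T) * c * (t : T)⁻¹ ∈ Subgroup.zpowers (c : T) := by
      rw [hzp]
      exact (Subgroup.mem_normalizer_iff.1 t.2 c).1 c.2
    obtain ⟨i, hi⟩ := Subgroup.mem_zpowers_iff.1 hconj
    have hstep : ∀ j : ℤ, (t : T) * (c : T) ^ j * (t : T)⁻¹ = (c : T) ^ (i * j) := by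
      intro j
      rw [zpow_mul, hi, conj_zpow]
    have h3' : (c : T) = (c : T) ^ (i * (i * i)) := by
      rw [← hstep (i * i), ← hstep i, hi]
      have ht3 : (t : T) ^ 3 = 1 := by rw [← ht', pow_orderOf_eq_one]
      have : (t : T) * ((t : T) * ((t : T) * c * (t : T)⁻¹) * (t : T)⁻¹) * (t : T)⁻¹ =
          (t : T) ^ 3 * c * ((t : T) ^ 3)⁻¹ := by
        simp only [pow_succ, pow_zero, one_mul, mul_inv_rev, mul_assoc]
      rw [this, ht3]
      simp
    have h5 : (5 : ℤ) ∣ i * (i * i) - 1 := by
      have h6 : (c : T) ^ (i * (i * i) - 1) = 1 := by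
        rw [zpow_sub_one, ← h3', mul_inv_cancel]
      have := orderOf_dvd_iff_zpow_eq_one.2 h6
      rwa [hc'] at this
    have h5' : (5 : ℤ) ∣ i - 1 := by
      have e1 : ((i * (i * i) - 1 : ℤ) : ZMod 5) = 0 := (ZMod.intCast_zmod_eq_zero_iff_dvd _ 5).2 h5
      have e2 := cube_zmod5
      have e3 : ((i - 1 : ℤ) : ZMod 5) = 0 := by
        push_cast at e1 ⊢
        exact e2 _ e1
      exact (ZMod.intCast_zmod_eq_zero_iff_dvd _ 5).1 e3
    have hci : (c : T) ^ i = c := by
      have : (c : T) ^ (i - 1) = 1 := by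
        rw [← orderOf_dvd_iff_zpow_eq_one, hc']; exact h5'
      rw [zpow_sub_one, mul_inv_eq_one] at this
      exact this
    rw [hci] at hi
    have hcomm : Commute (c : T) (t : T) := by
      have : (t : T) * c = c * t := by
        rw [eq_mul_inv_iff_mul_eq] at hi
        exact hi.symm
      exact this.symm
    refine no_comm35 hX (c := ((c : T) : Perm X)) (t := ((t : T) : Perm X)) ?_ ?_ ?_
    · rw [Subgroup.orderOf_coe, hc']
    · rw [Subgroup.orderOf_coe, ht']
    · exact hcomm.map T.subtype
  obtain ⟨j, hj⟩ := h5Z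
  rw [hj] at hZc h3Z
  rw [hn2] at hn1
  have hjk : j * Z.index = k := by nlinarith
  unfold Nat.ModEq at hn1
  have hjd : j ∣ k := ⟨_, hjk.symm⟩
  have hj18 : j ≤ 18 := by
    have := Nat.le_of_dvd (by omega) hjd
    omega
  have h3j : ¬ 3 ∣ j := fun h => h3Z (dvd_mul_of_dvd_right h 5)
  rcases hk with rfl | rfl | rfl <;> interval_cases j <;> omega

/-- There is no subgroup of order `180` of the symmetric group of degree `6`. -/
theorem no_sub180 (hX : Nat.card X = 6) (T : Subgroup (Perm X)) : Nat.card T ≠ 180 := by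
  classical
  intro hT
  have : Finite X := Nat.finite_of_card_ne_zero (by omega)
  have := Fintype.ofFinite X
  have : Nontrivial X := Finite.one_lt_card_iff_nontrivial.1 (by omega)
  have hA := alternatingGroup.index_eq_two (α := X)
  have hr : (alternatingGroup X).relIndex T ∣ 2 := by
    rw [← hA]; exact Subgroup.relIndex_dvd_index_of_normal _ _
  have hm : Nat.card (alternatingGroup X ⊓ T : Subgroup (Perm X)) *
      (alternatingGroup X).relIndex T = 180 := by
    rw [← hT, ← Subgroup.inf_relIndex_right]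
    have := Subgroup.card_mul_index ((alternatingGroup X ⊓ T).subgroupOf T)
    rw [← this]
    congr 1
    exact (Nat.card_congr (Subgroup.subgroupOfEquivOfLe inf_le_right).toEquiv).symm
  have hle : (alternatingGroup X).relIndex T ≤ 2 := Nat.le_of_dvd (by norm_num) hr
  have hcases : (alternatingGroup X).relIndex T = 1 ∨ (alternatingGroup X).relIndex T = 2 := by
    have : (alternatingGroup X).relIndex T ≠ 0 := fun h => by rw [h] at hm; omega
    omega
  rcases hcases with h1 | h2
  · -- `T` is a subgroup of index two of the alternating group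
    have hTA : T ≤ alternatingGroup X := Subgroup.relIndex_eq_one.1 h1
    have hcardA : Nat.card (alternatingGroup X) = 360 := by
      have := Subgroup.card_mul_index (alternatingGroup X)
      rw [hA, Nat.card_eq_fintype_card (α := Perm X), Fintype.card_perm,
        ← Nat.card_eq_fintype_card, hX] at this
      have h6 : Nat.factorial 6 = 720 := rfl
      omega
    have hidx : (T.subgroupOf (alternatingGroup X)).index = 2 := by
      have h3 := Subgroup.card_mul_index (T.subgroupOf (alternatingGroup X))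
      rw [Nat.card_congr (Subgroup.subgroupOfEquivOfLe hTA).toEquiv, hT, hcardA] at h3
      omega
    have hAT : alternatingGroup X ≤ T := by
      rw [← Equiv.Perm.closure_three_cycles_eq_alternating, Subgroup.closure_le]
      intro g hg
      have hg3 : Perm.IsThreeCycle g := hg
      have hgA : g ∈ alternatingGroup X := hg3.mem_alternatingGroup
      have h4 := Subgroup.sq_mem_of_index_two hidx (⟨g, hgA⟩ ^ 2)
      rw [Subgroup.mem_subgroupOf] at h4
      have h5 : ((((⟨g, hgA⟩ : alternatingGroup X) ^ 2) ^ 2 : alternatingGroup X) : Perm X) =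
          g ^ 4 := by
        push_cast
        rw [← pow_mul]
      rw [h5] at h4
      have h6 : g ^ 3 = 1 := by rw [← hg3.orderOf, pow_orderOf_eq_one]
      have h7 : g ^ 4 = g := by rw [pow_succ, h6, one_mul]
      rwa [h7] at h4
    have := Subgroup.card_dvd_of_le hAT
    rw [hcardA, hT] at this
    omega
  · rw [h2] at hm
    exact (no_sub hX (alternatingGroup X ⊓ T)).2.2 (by omega)

/-- There is no doubly transitive group of order `30` and degree `6`. -/
theorem no_30 (hX : Nat.card X = 6) {N : Type*} [Group N] {φ : N →* Perm X} (h : TwoT φ)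
    (hN : Nat.card N = 30) : False := by
  have : Finite N := Nat.finite_of_card_ne_zero (by omega)
  have hz : IsZGroup N := IsZGroup.of_squarefree (by rw [hN]; decide +kernel)
  have hcyc : IsCyclic (commutator N) := IsZGroup.isCyclic_commutator N
  have hcomm : ∀ k ∈ commutator N, ∀ l ∈ commutator N, k * l = l * k := by
    intro k hk l hl
    obtain ⟨u, hu⟩ := hcyc.exists_generator
    obtain ⟨i, hi⟩ := Subgroup.mem_zpowers_iff.1 (hu ⟨k, hk⟩)
    obtain ⟨j, hj⟩ := Subgroup.mem_zpowers_iff.1 (hu ⟨l, hl⟩)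
    have e : (⟨k, hk⟩ : commutator N) * ⟨l, hl⟩ = ⟨l, hl⟩ * ⟨k, hk⟩ := by
      rw [← hi, ← hj, ← zpow_add, ← zpow_add, add_comm]
    exact congrArg Subtype.val e
  rcases normal_or h (K := commutator N) inferInstance with h1 | h1
  · refine not_comm h (by omega) fun g g' => ?_
    have := h1 _ (Subgroup.commutator_mem_commutator (Subgroup.mem_top g) (Subgroup.mem_top g'))
    rw [commutatorElement_def] at this
    simp only [map_mul, map_inv] at this
    rw [mul_inv_eq_one, mul_inv_eq_iff_eq_mul] at this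
    exact this
  · obtain ⟨b⟩ : Nonempty X := (Nat.card_pos_iff.1 (by omega)).1
    refine reg φ h b φ hX (commutator N) inferInstance h1 fun k hk hkb => ?_
    ext z
    obtain ⟨l, hl, rfl⟩ := h1 b z
    have e : φ k * φ l = φ l * φ k := by rw [← map_mul, hcomm k hk l hl, map_mul]
    have e' := congrArg (fun q : Perm X => q b) e
    simp only [Perm.mul_apply] at e'
    rw [e', hkb]
    simp

lemma arith1 : ∀ m < 28, 5 ≤ m → m * (m - 1) ∣ 720 →
    m = 5 ∨ m = 6 ∨ m = 9 ∨ m = 10 ∨ m = 16 := by decide

lemma arith2 : ∀ j < 25, 5 * j ∣ 120 → ¬ 2 ∣ 5 * j → 5 * j = 5 ∨ 5 * j = 15 := by decide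

lemma arith3 : ∀ j < 9, j ∣ 8 → ¬ 4 ∣ 9 * j → 9 * j = 9 ∨ 9 * j = 18 := by decide

/-- Let the finite group `M` have a faithful doubly transitive action of degree `6` and another
faithful doubly transitive action on `F`.  A permutation of `F` that fixes the point `b` and
commutes with the stabiliser of `b` is the identity. -/
theorem gt (hX : Nat.card X = 6) {M F : Type*} [Group M] {φ : M →* Perm X} {ψ : M →* Perm F}
    (hφ : TwoT φ) (hψ : TwoT ψ) (iφ : Function.Injective φ) (iψ : Function.Injective ψ)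
    {a : Perm F} {b : F} (hab : a b = b) (hc : ∀ g, ψ g b = b → Commute a (ψ g)) : a = 1 := by
  classical
  have : Finite X := Nat.finite_of_card_ne_zero (by omega)
  have : Finite M := Finite.of_injective φ iφ
  by_contra ha
  obtain ⟨z0, hz0⟩ : ∃ z, a z ≠ z := by
    by_contra hcon
    push Not at hcon
    exact ha (Perm.ext hcon)
  have : Finite F := by
    refine Finite.of_surjective (fun g : M => ψ g b) fun y => ?_
    by_cases hy : b = y
    · exact ⟨1, by simp [hy]⟩
    · obtain ⟨g, hg, -⟩ := hψ b y y b hy (Ne.symm hy)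
      exact ⟨g, hg⟩
  have hm1 : 1 < Nat.card F := Finite.one_lt_card_iff_nontrivial.2 ⟨⟨_, _, hz0⟩⟩
  have h720 : Nat.card M ∣ 720 := by
    have h := Subgroup.card_dvd_of_injective φ iφ
    rwa [Nat.card_perm, hX] at h
  have h30 : 30 ∣ Nat.card M := by
    have h := hφ.dvd_card (by omega)
    rwa [hX] at h
  have hmm := hψ.dvd_card hm1
  have hfac : Nat.card M ∣ (Nat.card F).factorial := by
    have h := Subgroup.card_dvd_of_injective ψ iψ
    rwa [Nat.card_perm] at h
  obtain ⟨H, hHmem, hHidx⟩ := index_stab ψ hψ.trans b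
  have hH : Nat.card H * Nat.card F = Nat.card M := by rw [← hHidx, H.card_mul_index]
  -- an element of prime order
  obtain ⟨r, a', hr, har, hab', hc', hfree⟩ : ∃ (r : ℕ) (a' : Perm F), r.Prime ∧ a' ^ r = 1 ∧
      a' b = b ∧ (∀ g, ψ g b = b → Commute a' (ψ g)) ∧ ∀ z, a' z = z → z = b := by
    have ho : orderOf a ≠ 1 := fun h => ha (orderOf_eq_one_iff.1 h)
    have hop : orderOf a ≠ 0 := (orderOf_pos a).ne'
    have hr := Nat.minFac_prime ho
    set r := (orderOf a).minFac with hrdef
    have hord : orderOf (a ^ (orderOf a / r)) = r :=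
      orderOf_pow_orderOf_div hop (Nat.minFac_dvd _)
    have hcp : ∀ g, ψ g b = b → Commute (a ^ (orderOf a / r)) (ψ g) :=
      fun g hg => (hc g hg).pow_left _
    refine ⟨r, a ^ (orderOf a / r), hr, ?_, ?_, hcp, ?_⟩
    · have h := pow_orderOf_eq_one (a ^ (orderOf a / r))
      rwa [hord] at h
    · exact Perm.pow_apply_eq_self_of_apply_eq_self hab _
    · intro z hz
      by_contra hzb
      have h1 : a ^ (orderOf a / r) = 1 := by
        ext w
        by_cases hwb : w = b
        · rw [hwb]
          exact Perm.pow_apply_eq_self_of_apply_eq_self hab _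
        · obtain ⟨g, hg1, hg2⟩ := hψ b z b w (Ne.symm hzb) (Ne.symm hwb)
          have e := congrArg (fun q : Perm F => q z) (hcp g hg1).eq
          simp only [Perm.mul_apply] at e
          rw [hz, hg2] at e
          simpa using e
      rw [h1, orderOf_one] at hord
      exact hr.one_lt.ne hord
  have : Fact r.Prime := ⟨hr⟩
  have hfix1 : nfix a' = 1 := by
    rw [nfix, Nat.card_eq_one_iff_unique]
    exact ⟨⟨fun u v => Subtype.ext ((hfree _ u.2).trans (hfree _ v.2).symm)⟩, ⟨⟨b, hab'⟩⟩⟩
  have hrm : 1 ≡ Nat.card F [MOD r] := by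
    rw [← hfix1]
    exact nfix_modEq (n := 1) (by simpa using har)
  have hFC : ∀ g ∈ H, 1 ≡ nfix (ψ g) [MOD r] := by
    intro g hg
    have hg' := (hHmem g).1 hg
    have h := nfix_commute (hc' g hg') har
    have h1 : Nat.card {z // ψ g z = z ∧ a' z = z} = 1 := by
      rw [Nat.card_eq_one_iff_unique]
      exact ⟨⟨fun u v => Subtype.ext ((hfree _ u.2.2).trans (hfree _ v.2.2).symm)⟩,
        ⟨⟨b, hg', hab'⟩⟩⟩
    rwa [h1] at h
  -- elements of prime order of `H`
  have hprime : ∀ p : ℕ, p.Prime → p ∣ Nat.card H →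
      ∃ k, k < Nat.card F ∧ k ≡ Nat.card F [MOD p] ∧ 1 ≡ k [MOD r] := by
    intro p hp hpH
    have : Fact p.Prime := ⟨hp⟩
    obtain ⟨g, hg⟩ := exists_prime_orderOf_dvd_card' (G := H) p hpH
    have hgp : (g : M) ^ p = 1 := by
      have h : g ^ p = 1 := by rw [← hg, pow_orderOf_eq_one]
      exact_mod_cast congrArg Subtype.val h
    have hg1 : ψ (g : M) ≠ 1 := by
      intro h
      have h1 : (g : M) = 1 := iψ (by rw [h, map_one])
      have h2 : g = 1 := Subtype.ext h1
      rw [h2, orderOf_one] at hg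
      exact hp.one_lt.ne hg
    refine ⟨nfix (ψ (g : M)), nfix_lt hg1, nfix_modEq (n := 1) ?_, hFC g g.2⟩
    rw [pow_one, ← map_pow, hgp, map_one]
  have hrange : Nat.card φ.range = Nat.card M :=
    (Nat.card_congr (MonoidHom.ofInjective iφ).toEquiv).symm
  have hHmap : Nat.card (H.map φ) = Nat.card H :=
    (Nat.card_congr (H.equivMapOfInjective φ iφ).toEquiv).symm
  have hpos : 0 < Nat.card M := Nat.card_pos
  have hm27 : Nat.card F ≤ 27 := by
    by_contra hcon
    have h1 : Nat.card F * (Nat.card F - 1) ≤ 720 := Nat.le_of_dvd (by norm_num) (hmm.trans h720)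
    have h2 : 28 * 27 ≤ Nat.card F * (Nat.card F - 1) := Nat.mul_le_mul (by omega) (by omega)
    omega
  have hm5 : 5 ≤ Nat.card F := by
    by_contra hcon
    have h5 : 5 ∣ (Nat.card F).factorial := (Dvd.dvd.trans (by norm_num) h30).trans hfac
    rw [Nat.Prime.dvd_factorial (by norm_num)] at h5
    omega
  have hcases : Nat.card F = 5 ∨ Nat.card F = 6 ∨ Nat.card F = 9 ∨ Nat.card F = 10 ∨
      Nat.card F = 16 := by
    exact arith1 _ (by omega) hm5 (hmm.trans h720)
  rcases hcases with h | h | h | h | h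
  · -- degree 5
    rw [h] at hH hrm
    obtain ⟨k, hk1, hk2, hk3⟩ := hprime 3 (by norm_num) (by omega)
    rw [h] at hk1 hk2
    have hk : k = 2 := by
      unfold Nat.ModEq at hk2
      omega
    rw [hk] at hk3
    have : r ∣ 2 - 1 := (Nat.modEq_iff_dvd' (by norm_num)).1 hk3
    exact hr.one_lt.ne' (Nat.dvd_one.1 (by simpa using this))
  · -- degree 6
    rw [h] at hH hrm
    have hr5 : r = 5 := by
      have : r ∣ 6 - 1 := (Nat.modEq_iff_dvd' (by norm_num)).1 hrm
      exact (Nat.prime_dvd_prime_iff_eq hr (by norm_num)).1 (by simpa using this)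
    subst hr5
    by_cases h2 : 2 ∣ Nat.card H
    · obtain ⟨k, hk1, hk2, hk3⟩ := hprime 2 (by norm_num) h2
      rw [h] at hk1 hk2
      unfold Nat.ModEq at hk2 hk3
      omega
    · have hH120 : Nat.card H ∣ 120 := by
        have : Nat.card H * 6 ∣ 120 * 6 := by rw [hH]; exact h720
        exact Nat.dvd_of_mul_dvd_mul_right (by norm_num) this
      have h5 : 5 ∣ Nat.card H := by omega
      have hc : Nat.card H = 5 ∨ Nat.card H = 15 := by
        have hle : Nat.card H ≤ 120 := Nat.le_of_dvd (by norm_num) hH120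
        generalize Nat.card H = m at hH120 h5 h2 hle
        obtain ⟨j, rfl⟩ := h5
        exact arith2 j (by omega) hH120 h2
      rcases hc with hc | hc
      · exact no_30 hX hφ (by omega)
      · exact (no_sub hX φ.range).2.2 (by omega)
  · -- degree 9
    rw [h] at hH hrm
    have hr2 : r = 2 := by
      have h8 : r ∣ 9 - 1 := (Nat.modEq_iff_dvd' (by norm_num)).1 hrm
      have h8' : r ∣ 2 ^ 3 := by simpa using h8
      exact (Nat.prime_dvd_prime_iff_eq hr Nat.prime_two).1 (hr.dvd_of_dvd_pow h8')
    subst hr2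
    obtain ⟨k, hk1, hk2, hk3⟩ := hprime 5 (by norm_num) (by omega)
    rw [h] at hk1 hk2
    unfold Nat.ModEq at hk2 hk3
    omega
  · -- degree 10
    rw [h] at hH hrm hmm
    have hr3 : r = 3 := by
      have h9 : r ∣ 10 - 1 := (Nat.modEq_iff_dvd' (by norm_num)).1 hrm
      have h9' : r ∣ 3 ^ 2 := by simpa using h9
      exact (Nat.prime_dvd_prime_iff_eq hr Nat.prime_three).1 (hr.dvd_of_dvd_pow h9')
    subst hr3
    by_cases h4 : 4 ∣ Nat.card H
    · -- Burnside's lemma for a subgroup of order four
      have : Fact (Nat.Prime 2) := ⟨Nat.prime_two⟩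
      obtain ⟨S, hS⟩ := Sylow.exists_subgroup_card_pow_prime (G := H) 2 (n := 2) (by simpa using h4)
      let _ : MulAction S F := MulAction.compHom F ((ψ.comp H.subtype).comp S.subtype)
      have := Fintype.ofFinite S
      have := Fintype.ofFinite F
      have hb := MulAction.sum_card_fixedBy_eq_card_orbits_mul_card_group S F
      have hterm : ∀ s : S, Fintype.card (MulAction.fixedBy F s) = if s = 1 then 10 else 4 := by
        intro s
        have e1 : Fintype.card (MulAction.fixedBy F s) = nfix (ψ ((s : H) : M)) := by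
          rw [nfix, Nat.card_eq_fintype_card]
          rfl
        rw [e1]
        split_ifs with hs
        · rw [hs]
          simp only [Subgroup.coe_one, map_one]
          rw [nfix, ← h]
          exact Nat.card_congr (Equiv.subtypeUnivEquiv fun z => by simp)
        · have hs4 : s ^ 2 ^ 2 = 1 := by
            rw [← hS]
            exact pow_card_eq_one'
          have hs4' : ((s : H) : M) ^ 2 ^ 2 = 1 := by
            have := congrArg (fun q : S => ((q : H) : M)) hs4
            simpa using this
          have hne : ψ ((s : H) : M) ≠ 1 := by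
            intro h1
            exact hs (Subtype.ext (Subtype.ext (iψ (by rw [h1]; simp))))
          have k1 := nfix_lt hne
          have k2 := nfix_modEq (p := 2) (n := 2) (σ := ψ ((s : H) : M))
            (by rw [← map_pow, hs4', map_one])
          have k3 := hFC _ (s : H).2
          rw [h] at k1 k2
          unfold Nat.ModEq at k2 k3
          omega
      rw [Finset.sum_congr rfl fun s _ => hterm s] at hb
      rw [Finset.sum_ite, Finset.sum_const, Finset.sum_const, Finset.filter_eq',
        if_pos (Finset.mem_univ _), Finset.card_singleton, Finset.filter_ne',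
        Finset.card_erase_of_mem (Finset.mem_univ _), Finset.card_univ] at hb
      rw [Nat.card_eq_fintype_card] at hS
      rw [hS] at hb
      simp only [smul_eq_mul] at hb
      omega
    · have hH72 : Nat.card H ∣ 72 := by
        have : Nat.card H * 10 ∣ 72 * 10 := by rw [hH]; exact h720
        exact Nat.dvd_of_mul_dvd_mul_right (by norm_num) this
      have h9 : 9 ∣ Nat.card H := by
        have : 9 * 10 ∣ Nat.card H * 10 := by rw [hH]; exact hmm
        exact Nat.dvd_of_mul_dvd_mul_right (by norm_num) this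
      have hc : Nat.card H = 9 ∨ Nat.card H = 18 := by
        generalize Nat.card H = m at hH72 h9 h4
        obtain ⟨j, rfl⟩ := h9
        have hj : j ∣ 8 := Nat.dvd_of_mul_dvd_mul_left (k := 9) (by norm_num) (by simpa using hH72)
        have hj8 : j ≤ 8 := Nat.le_of_dvd (by norm_num) hj
        exact arith3 j (by omega) hj h4
      rcases hc with hc | hc
      · exact (no_sub hX φ.range).2.2 (by omega)
      · exact no_sub180 hX φ.range (by omega)
  · -- degree 16
    rw [h] at hH hmm
    have hH45 : Nat.card H ∣ 45 := by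
      have : Nat.card H * 16 ∣ 45 * 16 := by rw [hH]; exact h720
      exact Nat.dvd_of_mul_dvd_mul_right (by norm_num) this
    have h15 : 15 ∣ Nat.card H := by
      have : 15 * 16 ∣ Nat.card H * 16 := by rw [hH]; exact hmm
      exact Nat.dvd_of_mul_dvd_mul_right (by norm_num) this
    have hc : Nat.card H = 15 ∨ Nat.card H = 45 := by
      obtain ⟨j, hj⟩ := h15
      rw [hj] at hH45
      have hj3 : j ∣ 3 := Nat.dvd_of_mul_dvd_mul_left (k := 15) (by norm_num) (by simpa using hH45)
      rcases (Nat.dvd_prime Nat.prime_three).1 hj3 with rfl | rfl <;> omega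
    rw [← hHmap] at hc
    rcases hc with hc | hc
    · exact (no_sub hX _).1 hc
    · exact (no_sub hX _).2.1 hc

/-- The same for actions of an arbitrary group with the same kernel. -/
theorem gt' (hX : Nat.card X = 6) {N F : Type*} [Group N] {φ : N →* Perm X} {ψ : N →* Perm F}
    (hφ : TwoT φ) (hψ : TwoT ψ) (hker : ∀ g, φ g = 1 ↔ ψ g = 1)
    {a : Perm F} {b : F} (hab : a b = b) (hc : ∀ g, ψ g b = b → Commute a (ψ g)) : a = 1 := by
  have hle : φ.ker ≤ ψ.ker := fun g hg => (hker g).1 hg
  refine gt hX (φ := QuotientGroup.kerLift φ) (ψ := QuotientGroup.lift φ.ker ψ hle) (a := a)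
    (b := b) ?_ ?_ (QuotientGroup.kerLift_injective φ) ?_ hab ?_
  · intro x y x' y' hxy hxy'
    obtain ⟨g, hg⟩ := hφ x y x' y' hxy hxy'
    exact ⟨(g : N ⧸ φ.ker), hg⟩
  · intro x y x' y' hxy hxy'
    obtain ⟨g, hg⟩ := hψ x y x' y' hxy hxy'
    exact ⟨(g : N ⧸ φ.ker), hg⟩
  · rw [injective_iff_map_eq_one]
    intro g
    induction g using QuotientGroup.induction_on with
    | H g =>
      intro hg
      rw [QuotientGroup.eq_one_iff]
      exact (hker g).2 hg
  · intro g
    induction g using QuotientGroup.induction_on with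
    | H g => exact fun hg => hc g hg

end six

end Pool.Agent.R656.DT
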