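import Mathlib

set_option autoImplicit false

open MeasureTheory Filter Topology Set TopologicalSpace
open scoped ENNReal NNReal

namespace Pool.Agent.R656.Erg

/-- Krylov–Bogoliubov -/
theorem exists_invariant {E : Type*} [TopologicalSpace E] [CompactSpace E] [T2Space E]
    [MeasurableSpace E] [BorelSpace E] [HasOuterApproxClosed E] {T : E → E} (hT : Continuous T)
    (x₀ : E) : ∃ μ : ProbabilityMeasure E, (μ : Measure E).map T = μ := by
  classical
  have hpr : ∀ N : ℕ, IsProbabilityMeasure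
      (((N : ENNReal) + 1)⁻¹ • ∑ j ∈ Finset.range (N + 1), Measure.dirac (T^[j] x₀)) := by
    intro N
    refine ⟨?_⟩
    rw [Measure.smul_apply, Measure.finsetSum_apply]
    simp only [measure_univ, Finset.sum_const, Finset.card_range, nsmul_eq_mul, mul_one, smul_eq_mul]
    push_cast
    apply ENNReal.inv_mul_cancel
    · simp
    · finiteness
  set ν : ℕ → ProbabilityMeasure E := fun N =>
    ⟨((N : ENNReal) + 1)⁻¹ • ∑ j ∈ Finset.range (N + 1), Measure.dirac (T^[j] x₀), hpr N⟩ with hν
  have hint : ∀ (N : ℕ) (g : BoundedContinuousFunction E ℝ), ∫ x, g x ∂(ν N : Measure E) =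
      ((N : ℝ) + 1)⁻¹ * ∑ j ∈ Finset.range (N + 1), g (T^[j] x₀) := by
    intro N g
    have h1 : (ν N : Measure E) =
      ((N : ENNReal) + 1)⁻¹ • ∑ j ∈ Finset.range (N + 1), Measure.dirac (T^[j] x₀) := rfl
    rw [h1, integral_smul_measure, integral_finsetSum_measure]
    · simp only [integral_dirac]
      rw [smul_eq_mul]
      congr 1
      rw [ENNReal.toReal_inv]
      have : ((N : ENNReal) + 1).toReal = (N : ℝ) + 1 := by
        rw [ENNReal.toReal_add (by finiteness) (by finiteness)]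
        simp
      rw [this]
    · intro j _
      exact g.integrable _
  obtain ⟨μ, -, hμ⟩ := (isCompact_univ (X := ProbabilityMeasure E)).ultrafilter_le_nhds
    ((hyperfilter ℕ : Ultrafilter ℕ).map ν) (by simp)
  have hlim : Tendsto ν (hyperfilter ℕ : Filter ℕ) (𝓝 μ) := hμ
  rw [ProbabilityMeasure.tendsto_iff_forall_integral_tendsto] at hlim
  refine ⟨μ, ?_⟩
  haveI : IsProbabilityMeasure ((μ : Measure E).map T) :=
    Measure.isProbabilityMeasure_map hT.measurable.aemeasurable
  apply ext_of_forall_integral_eq_of_IsFiniteMeasure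
  intro g
  rw [integral_map hT.measurable.aemeasurable g.continuous.measurable.aestronglyMeasurable]
  set gT : BoundedContinuousFunction E ℝ := g.compContinuous ⟨T, hT⟩ with hgT
  have h1 := hlim g
  have h2 := hlim gT
  have h3 : Tendsto (fun N : ℕ => ∫ x, gT x ∂(ν N : Measure E) - ∫ x, g x ∂(ν N : Measure E))
      (hyperfilter ℕ : Filter ℕ) (𝓝 0) := by
    have h4 : Tendsto (fun N : ℕ => (2 * ‖g‖) * ((N : ℝ) + 1)⁻¹) atTop (𝓝 0) := by
      have := tendsto_one_div_add_atTop_nhds_zero_nat (𝕜 := ℝ)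
      have := this.const_mul (2 * ‖g‖)
      simpa using this
    have h5 : Tendsto (fun N : ℕ => (2 * ‖g‖) * ((N : ℝ) + 1)⁻¹) (hyperfilter ℕ : Filter ℕ)
        (𝓝 0) := h4.mono_left (by rw [← Nat.cofinite_eq_atTop]; exact hyperfilter_le_cofinite)
    apply squeeze_zero_norm _ h5
    intro N
    rw [hint, hint]
    have h6 : ∑ j ∈ Finset.range (N + 1), gT (T^[j] x₀) =
        ∑ j ∈ Finset.range (N + 1), g (T^[j + 1] x₀) := by
      apply Finset.sum_congr rfl
      intro j _
      rw [Function.iterate_succ_apply']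
      rfl
    rw [h6, ← mul_sub, ← Finset.sum_sub_distrib,
      Finset.sum_range_sub (fun j => g (T^[j] x₀)), norm_mul, mul_comm]
    apply mul_le_mul
    · have := norm_sub_le (g (T^[N + 1] x₀)) (g (T^[0] x₀))
      have h7 := g.norm_coe_le_norm (T^[N + 1] x₀)
      have h8 := g.norm_coe_le_norm (T^[0] x₀)
      linarith
    · rw [norm_inv, Real.norm_eq_abs, abs_of_nonneg (by positivity)]
    · exact norm_nonneg _
    · positivity
  have h4 := tendsto_nhds_unique (h2.sub h1) h3
  have h5 : ∫ x, gT x ∂(μ : Measure E) = ∫ x, g x ∂(μ : Measure E) := by linarith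
  exact h5

section

variable {X : Type*} [TopologicalSpace X] [CompactSpace X] [T2Space X] [TotallyDisconnectedSpace X]
  [SecondCountableTopology X] [MeasurableSpace X] [BorelSpace X]

instance countable_clopens : Countable (Clopens X) :=
  Clopens.countable_iff_secondCountable.2 inferInstance

noncomputable def ev (μ : ProbabilityMeasure X) (K : Set X) : ℝ := (μ : Measure X).real K

theorem tendsto_ev {ι : Type*} {L : Filter ι} {μs : ι → ProbabilityMeasure X} {μ : ProbabilityMeasure X} (h : Tendsto μs L (𝓝 μ))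
    {K : Set X} (hK : IsClopen K) : Tendsto (fun i => ev (μs i) K) L (𝓝 (ev μ K)) := by
  have := ProbabilityMeasure.tendsto_measure_of_isClopen_of_tendsto h hK
  exact (NNReal.tendsto_coe.2 this)

theorem continuous_ev {K : Set X} (hK : IsClopen K) : Continuous fun μ : ProbabilityMeasure X => ev μ K :=
  continuous_iff_continuousAt.2 fun _ => tendsto_ev tendsto_id hK

theorem ev_nonneg (μ : ProbabilityMeasure X) (K : Set X) : 0 ≤ ev μ K := measureReal_nonneg

theorem ev_le_one (μ : ProbabilityMeasure X) (K : Set X) : ev μ K ≤ 1 := measureReal_le_one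

theorem ext_clopen {μ ν : Measure X} [IsProbabilityMeasure μ] [IsProbabilityMeasure ν]
    (h : ∀ K : Set X, IsClopen K → μ K = ν K) : μ = ν := by
  refine ext_of_generate_finite {s : Set X | IsClopen s} ?_ ?_ (fun s hs => h s hs) (by simp)
  · rw [BorelSpace.measurable_eq (α := X)]
    exact isTopologicalBasis_isClopen.borel_eq_generateFrom
  · intro s hs t ht _
    exact IsClopen.inter hs ht

theorem ext_ev {μ ν : ProbabilityMeasure X} (h : ∀ K : Set X, IsClopen K → ev μ K = ev ν K) : μ = ν := by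
  apply Subtype.ext
  haveI : IsProbabilityMeasure (Subtype.val ν) := ν.2
  haveI : IsProbabilityMeasure (Subtype.val μ) := μ.2
  apply ext_clopen
  intro K hK
  have := h K hK
  unfold ev Measure.real at this
  exact (ENNReal.toReal_eq_toReal_iff' (measure_ne_top _ _) (measure_ne_top _ _)).1 this

theorem isClosed_inv (f : C(X, X)) : IsClosed {μ : ProbabilityMeasure X | (μ : Measure X).map ⇑f = (μ : Measure X)} := by
  have h1 : Continuous fun μ : ProbabilityMeasure X => μ.map (f := ⇑f) f.continuous.aemeasurable :=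
    ProbabilityMeasure.continuous_map f.continuous
  have h2 : {μ : ProbabilityMeasure X | (μ : Measure X).map ⇑f = (μ : Measure X)} =
      {μ : ProbabilityMeasure X | μ.map (f := ⇑f) f.continuous.aemeasurable = μ} := by
    ext μ
    simp only [mem_setOf_eq]
    constructor
    · intro h
      exact Subtype.ext h
    · intro h
      exact congrArg Subtype.val h
  rw [h2]
  exact isClosed_eq h1 continuous_id

/-- the strictly convex functional -/
noncomputable def FF (μ : ProbabilityMeasure X) : ℝ :=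
  letI := Encodable.ofCountable (Clopens X)
  ∑' K : Clopens X, (1 / 2 : ℝ) ^ Encodable.encode K * ev μ K ^ 2

theorem summ (μ : ProbabilityMeasure X) (ν : ProbabilityMeasure X) :
    letI := Encodable.ofCountable (Clopens X)
    Summable fun K : Clopens X => (1 / 2 : ℝ) ^ Encodable.encode K * (ev μ K * ev ν K) := by
  letI := Encodable.ofCountable (Clopens X)
  refine Summable.of_nonneg_of_le (fun K => mul_nonneg (by positivity)
    (mul_nonneg (ev_nonneg _ _) (ev_nonneg _ _))) (fun K => ?_)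
    (summable_geometric_two_encode (ι := Clopens X))
  have h1 : ev μ K * ev ν K ≤ 1 := mul_le_one₀ (ev_le_one _ _) (ev_nonneg _ _) (ev_le_one _ _)
  have h2 : (0 : ℝ) ≤ (1 / 2 : ℝ) ^ Encodable.encode K := by positivity
  calc _ ≤ (1 / 2 : ℝ) ^ Encodable.encode K * 1 := mul_le_mul_of_nonneg_left h1 h2
    _ = _ := mul_one _

theorem continuous_FF : Continuous (FF : ProbabilityMeasure X → ℝ) := by
  letI := Encodable.ofCountable (Clopens X)
  unfold FF
  refine continuous_tsum (u := fun K : Clopens X => (1 / 2 : ℝ) ^ Encodable.encode K)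
    (fun K => ?_) (summable_geometric_two_encode (ι := Clopens X)) (fun K μ => ?_)
  · exact continuous_const.mul ((continuous_ev K.isClopen).pow 2)
  · rw [Real.norm_eq_abs, abs_of_nonneg (mul_nonneg (by positivity) (sq_nonneg _))]
    have h1 : ev μ K ^ 2 ≤ 1 := pow_le_one₀ (ev_nonneg _ _) (ev_le_one _ _)
    have h2 : (0 : ℝ) ≤ (1 / 2 : ℝ) ^ Encodable.encode K := by positivity
    calc _ ≤ (1 / 2 : ℝ) ^ Encodable.encode K * 1 := mul_le_mul_of_nonneg_left h1 h2
      _ = _ := mul_one _

/-- strict convexity -/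
theorem FF_convex {μ μ₁ μ₂ : ProbabilityMeasure X} {t : ℝ} (ht0 : 0 < t) (ht1 : t < 1)
    (hμ : ∀ K : Set X, IsClopen K → ev μ K = t * ev μ₁ K + (1 - t) * ev μ₂ K)
    (h1 : FF μ₁ ≤ FF μ) (h2 : FF μ₂ ≤ FF μ) : μ₁ = μ₂ := by
  letI := Encodable.ofCountable (Clopens X)
  have s1 := summ μ₁ μ₁
  have s2 := summ μ₂ μ₂
  have s3 := summ μ μ
  have key : ∀ K : Clopens X, (1 / 2 : ℝ) ^ Encodable.encode K * (t * (1 - t) * (ev μ₁ K - ev μ₂ K) ^ 2)
      = t * ((1 / 2 : ℝ) ^ Encodable.encode K * (ev μ₁ K * ev μ₁ K)) +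
        (1 - t) * ((1 / 2 : ℝ) ^ Encodable.encode K * (ev μ₂ K * ev μ₂ K)) -
        (1 / 2 : ℝ) ^ Encodable.encode K * (ev μ K * ev μ K) := by
    intro K
    rw [hμ K K.isClopen]
    ring
  have s4 : Summable fun K : Clopens X =>
      (1 / 2 : ℝ) ^ Encodable.encode K * (t * (1 - t) * (ev μ₁ K - ev μ₂ K) ^ 2) := by
    simp_rw [key]
    exact ((s1.mul_left t).add (s2.mul_left (1 - t))).sub s3
  have e1 : FF μ₁ = ∑' K : Clopens X, (1 / 2 : ℝ) ^ Encodable.encode K * (ev μ₁ K * ev μ₁ K) := by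
    unfold FF; simp_rw [sq]
  have e2 : FF μ₂ = ∑' K : Clopens X, (1 / 2 : ℝ) ^ Encodable.encode K * (ev μ₂ K * ev μ₂ K) := by
    unfold FF; simp_rw [sq]
  have e3 : FF μ = ∑' K : Clopens X, (1 / 2 : ℝ) ^ Encodable.encode K * (ev μ K * ev μ K) := by
    unfold FF; simp_rw [sq]
  have hsum : ∑' K : Clopens X,
      (1 / 2 : ℝ) ^ Encodable.encode K * (t * (1 - t) * (ev μ₁ K - ev μ₂ K) ^ 2) =
      t * FF μ₁ + (1 - t) * FF μ₂ - FF μ := by
    simp_rw [key]
    rw [((s1.mul_left t).add (s2.mul_left (1 - t))).tsum_sub s3,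
      (s1.mul_left t).tsum_add (s2.mul_left (1 - t)), tsum_mul_left, tsum_mul_left, e1, e2, e3]
  have hle : ∑' K : Clopens X,
      (1 / 2 : ℝ) ^ Encodable.encode K * (t * (1 - t) * (ev μ₁ K - ev μ₂ K) ^ 2) ≤ 0 := by
    rw [hsum]
    nlinarith
  have hnn : ∀ K : Clopens X,
      0 ≤ (1 / 2 : ℝ) ^ Encodable.encode K * (t * (1 - t) * (ev μ₁ K - ev μ₂ K) ^ 2) := by
    intro K
    have : 0 < 1 - t := by linarith
    positivity
  apply ext_ev
  intro K hK
  by_contra hne
  have hpos : 0 < (1 / 2 : ℝ) ^ Encodable.encode (⟨K, hK⟩ : Clopens X) *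
      (t * (1 - t) * (ev μ₁ K - ev μ₂ K) ^ 2) := by
    have h3 : 0 < 1 - t := by linarith
    have h4 : 0 < (ev μ₁ K - ev μ₂ K) ^ 2 := by
      have : ev μ₁ K - ev μ₂ K ≠ 0 := sub_ne_zero.2 hne
      positivity
    positivity
  have := s4.tsum_pos hnn (⟨K, hK⟩ : Clopens X) hpos
  linarith

theorem cond_inv {T : X → X} (hT : Continuous T) {μ : ProbabilityMeasure X} (hμ : (μ : Measure X).map T = μ)
    {s : Set X} (hs : MeasurableSet s) (hinv : T ⁻¹' s = s) (hs0 : (μ : Measure X) s ≠ 0) :
    ∃ ν : ProbabilityMeasure X, (ν : Measure X).map T = ν ∧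
      (ν : Measure X) = ProbabilityTheory.cond (μ : Measure X) s := by
  haveI := ProbabilityTheory.cond_isProbabilityMeasure (μ := (μ : Measure X)) hs0
  refine ⟨⟨ProbabilityTheory.cond (μ : Measure X) s, inferInstance⟩, ?_, rfl⟩
  ext A hA
  have hmeas : Measurable T := hT.measurable
  change (Measure.map _ (ProbabilityTheory.cond (μ : Measure X) s)) A =
    (ProbabilityTheory.cond (μ : Measure X) s) A
  rw [Measure.map_apply hmeas hA, ProbabilityTheory.cond_apply hs, ProbabilityTheory.cond_apply hs]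
  congr 1
  have h1 : s ∩ T ⁻¹' A = T ⁻¹' (s ∩ A) := by
    rw [preimage_inter, hinv]
  rw [h1, ← Measure.map_apply hmeas (hs.inter hA), hμ]

theorem exists_ergodic [HasOuterApproxClosed X] [Nonempty X] {T : X → X} (hT : Continuous T) :
    ∃ μ : Measure X, IsProbabilityMeasure μ ∧ μ.map T = μ ∧
      ∀ s : Set X, MeasurableSet s → T ⁻¹' s = s → μ s = 0 ∨ μ s = 1 := by
  have hcl : IsClosed {μ : ProbabilityMeasure X | (μ : Measure X).map T = (μ : Measure X)} :=
    isClosed_inv ⟨T, hT⟩
  obtain ⟨μ₀, hμ₀⟩ := exists_invariant hT (Classical.arbitrary X)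
  obtain ⟨μ, hμ, hmax⟩ := hcl.isCompact.exists_isMaxOn ⟨μ₀, hμ₀⟩ continuous_FF.continuousOn
  refine ⟨μ, inferInstance, hμ, fun s hs hinv => ?_⟩
  by_contra hcon
  push Not at hcon
  obtain ⟨hs0, hs1⟩ := hcon
  have hc0 : (μ : Measure X) sᶜ ≠ 0 := by
    intro h
    exact hs1 ((prob_compl_eq_zero_iff hs).1 h)
  obtain ⟨μ₁, h1, e1⟩ := cond_inv hT hμ hs hinv hs0
  obtain ⟨μ₂, h2, e2⟩ := cond_inv hT hμ hs.compl (by rw [preimage_compl, hinv]) hc0
  have hconv : ∀ K : Set X, IsClopen K →
      ev μ K = (μ : Measure X).real s * ev μ₁ K + (1 - (μ : Measure X).real s) * ev μ₂ K := by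
    intro K hK
    have hKm : MeasurableSet K := hK.isOpen.measurableSet
    unfold ev
    rw [e1, e2]
    have r1 : (μ : Measure X).real s * (ProbabilityTheory.cond (μ : Measure X) s).real K =
        (μ : Measure X).real (s ∩ K) := by
      unfold Measure.real
      rw [ProbabilityTheory.cond_apply hs, ENNReal.toReal_mul, ENNReal.toReal_inv, ← mul_assoc,
        mul_inv_cancel₀ (ENNReal.toReal_ne_zero.2 ⟨hs0, measure_ne_top _ _⟩), one_mul]
    have r2 : (1 - (μ : Measure X).real s) * (ProbabilityTheory.cond (μ : Measure X) sᶜ).real K =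
        (μ : Measure X).real (sᶜ ∩ K) := by
      rw [← probReal_compl_eq_one_sub hs]
      unfold Measure.real
      rw [ProbabilityTheory.cond_apply hs.compl, ENNReal.toReal_mul, ENNReal.toReal_inv, ← mul_assoc,
        mul_inv_cancel₀ (ENNReal.toReal_ne_zero.2 ⟨hc0, measure_ne_top _ _⟩), one_mul]
    rw [r1, r2]
    have := measureReal_inter_add_diff (μ := (μ : Measure X)) (s := K) hs
    rw [← this, inter_comm, diff_eq, inter_comm K sᶜ]
  have ht0 : 0 < (μ : Measure X).real s := ENNReal.toReal_pos hs0 (measure_ne_top _ _)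
  have ht1 : (μ : Measure X).real s < 1 := by
    have h3 : 0 < (μ : Measure X).real sᶜ := ENNReal.toReal_pos hc0 (measure_ne_top _ _)
    rw [probReal_compl_eq_one_sub hs] at h3
    linarith
  have heq := FF_convex ht0 ht1 hconv (hmax h1) (hmax h2)
  have h5 : (μ₁ : Measure X) s = 1 := by
    rw [e1, ProbabilityTheory.cond_apply hs, inter_self]
    exact ENNReal.inv_mul_cancel hs0 (measure_ne_top _ _)
  have h6 : (μ₂ : Measure X) s = 0 := by
    rw [e2, ProbabilityTheory.cond_apply hs.compl]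
    simp
  rw [heq, h6] at h5
  exact zero_ne_one h5

end

end Pool.Agent.R656.Erg
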