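import Mathlib

/-!
# Combinatorial core: complete intersections from two Betti-like elements
-/

set_option autoImplicit false

namespace Pool.Agent.R656.NSCore

variable {ι : Type} [Fintype ι] [DecidableEq ι]

/-- the relations of a presentation have at least `|ι| - 1` elements -/
theorem lower_bound (n : ι → ℕ) (hn : ∀ i, n i ≠ 0) (φ : (ι →₀ ℕ) →+ ℕ)
    (hφ : ∀ i k, φ (Finsupp.single i k) = k * n i)
    (ρ : Finset ((ι →₀ ℕ) × (ι →₀ ℕ)))
    (hρ : addConGen (fun x y => (x, y) ∈ ρ) = AddCon.ker φ) :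
    Fintype.card ι ≤ ρ.card + 1 := by
  classical
  rcases isEmpty_or_nonempty ι with hι | ⟨⟨i0⟩⟩
  · simp
  let vec : (ι →₀ ℕ) → (ι → ℚ) := fun x i => (x i : ℚ)
  let W : Submodule ℚ (ι → ℚ) :=
    Submodule.span ℚ (ρ.image (fun p => vec p.1 - vec p.2) : Finset (ι → ℚ))
  have hvadd : ∀ x y, vec (x + y) = vec x + vec y := by
    intro x y; ext i; simp [vec]
  let C : AddCon (ι →₀ ℕ) :=
    { r := fun x y => vec x - vec y ∈ W
      iseqv := ⟨fun x => by simp, fun {x y} h => by
          have := W.neg_mem h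
          simpa using this, fun {x y z} h h' => by
          have := W.add_mem h h'
          simpa using this⟩
      add' := fun {w x y z} h h' => by
        have := W.add_mem h h'
        have e : vec (w + y) - vec (x + z) = (vec w - vec x) + (vec y - vec z) := by
          rw [hvadd, hvadd]; abel
        rw [e]; exact this }
  have hle : addConGen (fun x y => (x, y) ∈ ρ) ≤ C := by
    apply AddCon.addConGen_le.2
    intro x y hxy
    change vec x - vec y ∈ W
    apply Submodule.subset_span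
    rw [Finset.mem_coe, Finset.mem_image]
    exact ⟨(x, y), hxy, rfl⟩
  have hker : ∀ x y, φ x = φ y → vec x - vec y ∈ W := by
    intro x y hxy
    have h1 : (AddCon.ker φ) x y := hxy
    rw [← hρ] at h1
    exact hle h1
  have htop : W ⊔ Submodule.span ℚ {(Pi.single i0 1 : ι → ℚ)} = ⊤ := by
    rw [eq_top_iff]
    intro v _
    have hbasis : v = ∑ i, v i • (Pi.single i 1 : ι → ℚ) := by
      ext j; simp [Finset.sum_apply, Pi.single_apply]
    rw [hbasis]
    apply Submodule.sum_mem
    intro i _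
    apply Submodule.smul_mem
    have h1 := hker (Finsupp.single i (n i0)) (Finsupp.single i0 (n i)) (by
      rw [hφ, hφ, mul_comm])
    have h2 : (Pi.single i 1 : ι → ℚ) = (n i0 : ℚ)⁻¹ • (vec (Finsupp.single i (n i0)) -
        vec (Finsupp.single i0 (n i))) + ((n i0 : ℚ)⁻¹ * n i) • (Pi.single i0 1 : ι → ℚ) := by
      have h0 : (n i0 : ℚ) ≠ 0 := by exact_mod_cast hn i0
      ext j
      simp only [vec, Pi.add_apply, Pi.smul_apply, Pi.sub_apply, smul_eq_mul, Pi.single_apply,
        Finsupp.single_apply]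
      by_cases hj : j = i <;> by_cases hj0 : j = i0
      · subst hj; subst hj0; simp [h0]
      · subst hj
        simp [hj0, Ne.symm hj0, h0]
      · subst hj0
        simp [hj, Ne.symm hj]
      · simp [hj, hj0, Ne.symm hj, Ne.symm hj0]
    rw [h2]
    apply Submodule.add_mem_sup
    · exact W.smul_mem _ h1
    · exact Submodule.smul_mem _ _ (Submodule.mem_span_singleton_self _)
  have h1 : Module.finrank ℚ (ι → ℚ) ≤ ρ.card + 1 := by
    rw [← finrank_top ℚ (ι → ℚ), ← htop]
    refine (Submodule.finrank_add_le_finrank_add_finrank _ _).trans ?_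
    have h2 : Module.finrank ℚ W ≤ ρ.card := (finrank_span_finset_le_card _).trans
      Finset.card_image_le
    have h3 : Module.finrank ℚ (Submodule.span ℚ {(Pi.single i0 1 : ι → ℚ)}) ≤ 1 := by
      have := finrank_span_finset_le_card (R := ℚ) ({(Pi.single i0 1 : ι → ℚ)} : Finset (ι → ℚ))
      rw [Finset.coe_singleton, Finset.card_singleton] at this
      exact this
    omega
  simpa using h1

/-- the main construction, first half: `|I_b| = β + 1` -/
theorem core_aux (n : ι → ℕ) (hn : ∀ i, n i ≠ 0) (φ : (ι →₀ ℕ) →+ ℕ)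
    (hφ : ∀ i k, φ (Finsupp.single i k) = k * n i)
    (a b α β : ℕ) (ha : a ≠ 0) (hb : b ≠ 0)
    (hcard : Fintype.card ι = α + β + 1)
    (hprod : ∏ i, n i = a ^ α * b ^ β)
    (hdvd : ∀ i, n i ∣ a ∨ n i ∣ b)
    (Fa : Finset (ι →₀ ℕ)) (hFa : ∀ x, x ∈ Fa ↔ φ x = a) (cFa : Fa.card = α + 1)
    (dFa : ∀ x ∈ Fa, ∀ y ∈ Fa, x ≠ y → ∀ i, x i = 0 ∨ y i = 0)
    (hcof : ∃ N, ∀ s, N ≤ s → ∃ x, φ x = s)
    (hIa : (Finset.univ.filter (fun i => n i ∣ a)).card ≤ α + 1)
    (hIb : (Finset.univ.filter (fun i => n i ∣ b)).card = β + 1) :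
    ∃ ρ : Finset ((ι →₀ ℕ) × (ι →₀ ℕ)), addConGen (fun x y => (x, y) ∈ ρ) = AddCon.ker φ ∧
      ρ.card ≤ α + β := by
  classical
  set Ia := Finset.univ.filter (fun i => n i ∣ a) with hIa_def
  set Ib := Finset.univ.filter (fun i => n i ∣ b) with hIb_def
  have hun : Ia ∪ Ib = Finset.univ := by
    ext i; simp [Ia, Ib, hdvd i]
  have hcu : (Ia ∪ Ib).card = α + β + 1 := by rw [hun, Finset.card_univ, hcard]
  have hci := Finset.card_union_add_card_inter Ia Ib
  -- the element `w`
  obtain ⟨w, hwb, hwcard, hwdisj⟩ : ∃ w, w ∈ Ib ∧ (Ia.erase w).card = α ∧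
      Disjoint (Ia.erase w) (Ib.erase w) := by
    by_cases hc : Ia.card = α + 1
    · have h1 : (Ia ∩ Ib).card = 1 := by omega
      obtain ⟨w, hw⟩ := Finset.card_eq_one.1 h1
      have hwm : w ∈ Ia ∩ Ib := by rw [hw]; simp
      rw [Finset.mem_inter] at hwm
      refine ⟨w, hwm.2, ?_, ?_⟩
      · rw [Finset.card_erase_of_mem hwm.1]; omega
      · rw [Finset.disjoint_left]
        intro i hi hi'
        have : i ∈ Ia ∩ Ib :=
          Finset.mem_inter.2 ⟨Finset.mem_of_mem_erase hi, Finset.mem_of_mem_erase hi'⟩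
        rw [hw, Finset.mem_singleton] at this
        exact Finset.ne_of_mem_erase hi this
    · have h1 : (Ia ∩ Ib).card = 0 := by omega
      rw [Finset.card_eq_zero] at h1
      have hne : Ib.Nonempty := by rw [← Finset.card_pos]; omega
      obtain ⟨w, hw⟩ := hne
      have hwa : w ∉ Ia := by
        intro h
        have : w ∈ Ia ∩ Ib := Finset.mem_inter.2 ⟨h, hw⟩
        rw [h1] at this; simp at this
      refine ⟨w, hw, ?_, ?_⟩
      · rw [Finset.erase_eq_of_notMem hwa]; rw [h1, Finset.card_empty] at hci; omega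
      · rw [Finset.disjoint_left]
        intro i hi hi'
        have : i ∈ Ia ∩ Ib :=
          Finset.mem_inter.2 ⟨Finset.mem_of_mem_erase hi, Finset.mem_of_mem_erase hi'⟩
        rw [h1] at this; simp at this
  set A := Ia.erase w with hA
  set B := Ib.erase w with hB
  have hBcard : B.card = β := by rw [hB, Finset.card_erase_of_mem hwb]; omega
  have hwA : w ∉ A := Finset.notMem_erase _ _
  have hwB : w ∉ B := Finset.notMem_erase _ _
  have hAa : ∀ i ∈ A, n i ∣ a := by
    intro i hi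
    have := Finset.mem_of_mem_erase hi
    simpa [Ia] using this
  have hBb : ∀ i ∈ B, n i ∣ b := by
    intro i hi
    have := Finset.mem_of_mem_erase hi
    simpa [Ib] using this
  have hwb' : n w ∣ b := by simpa [Ib] using hwb
  have hAB : ∀ i, i ≠ w → i ∈ A ∨ i ∈ B := by
    intro i hi
    have : i ∈ Ia ∪ Ib := by rw [hun]; simp
    rcases Finset.mem_union.1 this with h | h
    · left; exact Finset.mem_erase.2 ⟨hi, h⟩
    · right; exact Finset.mem_erase.2 ⟨hi, h⟩
  have hposa : ∀ i ∈ A, 0 < a / n i := by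
    intro i hi
    exact Nat.div_pos (Nat.le_of_dvd (Nat.pos_of_ne_zero ha) (hAa i hi))
      (Nat.pos_of_ne_zero (hn i))
  have hposb : ∀ i ∈ B, 0 < b / n i := by
    intro i hi
    exact Nat.div_pos (Nat.le_of_dvd (Nat.pos_of_ne_zero hb) (hBb i hi))
      (Nat.pos_of_ne_zero (hn i))
  -- the extra factorization of `a`
  obtain ⟨z, hzF, hzn⟩ : ∃ z ∈ Fa, z ∉ A.image (fun i => Finsupp.single i (a / n i)) := by
    apply Finset.exists_mem_notMem_of_card_lt_card
    have := Finset.card_image_le (s := A) (f := fun i => (Finsupp.single i (a / n i) : ι →₀ ℕ))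
    omega
  have hz : φ z = a := (hFa z).1 hzF
  have hpa : ∀ i ∈ A, φ (Finsupp.single i (a / n i)) = a := by
    intro i hi; rw [hφ]; exact Nat.div_mul_cancel (hAa i hi)
  have hpb : ∀ i ∈ B, φ (Finsupp.single i (b / n i)) = b := by
    intro i hi; rw [hφ]; exact Nat.div_mul_cancel (hBb i hi)
  have hpw : φ (Finsupp.single w (b / n w)) = b := by
    rw [hφ]; exact Nat.div_mul_cancel hwb'
  have hz0 : ∀ i ∈ A, z i = 0 := by
    intro i hi
    have hne : z ≠ Finsupp.single i (a / n i) := by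
      intro h
      exact hzn (Finset.mem_image.2 ⟨i, hi, h.symm⟩)
    rcases dFa z hzF _ ((hFa _).2 (hpa i hi)) hne i with h | h
    · exact h
    · rw [Finsupp.single_eq_same] at h
      exact absurd h (hposa i hi).ne'
  set ρ : Finset ((ι →₀ ℕ) × (ι →₀ ℕ)) :=
    A.image (fun i => (z, Finsupp.single i (a / n i))) ∪
      B.image (fun i => (Finsupp.single w (b / n w), Finsupp.single i (b / n i))) with hρ
  have hρcard : ρ.card ≤ α + β := by
    refine (Finset.card_union_le _ _).trans ?_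
    have h1 := Finset.card_image_le (s := A)
      (f := fun i => (z, (Finsupp.single i (a / n i) : ι →₀ ℕ)))
    have h2 := Finset.card_image_le (s := B)
      (f := fun i => ((Finsupp.single w (b / n w) : ι →₀ ℕ),
        (Finsupp.single i (b / n i) : ι →₀ ℕ)))
    omega
  refine ⟨ρ, ?_, hρcard⟩
  set R := addConGen (fun x y => (x, y) ∈ ρ) with hR
  have hRker : R ≤ AddCon.ker φ := by
    apply AddCon.addConGen_le.2
    intro x y hxy
    change φ x = φ y
    rcases Finset.mem_union.1 hxy with h | h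
    · obtain ⟨i, hi, he⟩ := Finset.mem_image.1 h
      rw [Prod.mk.injEq] at he
      rw [← he.1, ← he.2, hz, hpa i hi]
    · obtain ⟨i, hi, he⟩ := Finset.mem_image.1 h
      rw [Prod.mk.injEq] at he
      rw [← he.1, ← he.2, hpw, hpb i hi]
  have hRA : ∀ i ∈ A, R (Finsupp.single i (a / n i)) z := by
    intro i hi
    apply R.symm
    apply AddConGen.Rel.of
    exact Finset.mem_union_left _ (Finset.mem_image.2 ⟨i, hi, rfl⟩)
  have hRB : ∀ i ∈ B, R (Finsupp.single i (b / n i)) (Finsupp.single w (b / n w)) := by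
    intro i hi
    apply R.symm
    apply AddConGen.Rel.of
    exact Finset.mem_union_right _ (Finset.mem_image.2 ⟨i, hi, rfl⟩)
  -- normal forms
  have normal : ∀ M N : ℕ, ∀ x : ι →₀ ℕ, ∑ i ∈ A, x i = M → ∑ i ∈ B, x i = N →
      ∃ y, R x y ∧ (∀ i ∈ A, y i < a / n i) ∧ (∀ i ∈ B, y i < b / n i) := by
    intro M
    induction M using Nat.strong_induction_on with
    | _ M ihM =>
    intro N
    induction N using Nat.strong_induction_on with
    | _ N ihN =>
    intro x hxM hxN
    by_cases h1 : ∃ i ∈ A, a / n i ≤ x i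
    · obtain ⟨i, hi, hle⟩ := h1
      obtain ⟨x', hx'⟩ : ∃ x', x = x' + Finsupp.single i (a / n i) :=
        ⟨x - Finsupp.single i (a / n i), (tsub_add_cancel_of_le (by
          rw [Finsupp.single_le_iff]; exact hle)).symm⟩
      have hlt : ∑ j ∈ A, (x' + z) j < M := by
        rw [← hxM]
        apply Finset.sum_lt_sum
        · intro j hj
          rw [hx', Finsupp.add_apply, Finsupp.add_apply, hz0 j hj]; omega
        · refine ⟨i, hi, ?_⟩
          rw [hx', Finsupp.add_apply, Finsupp.add_apply, hz0 i hi, Finsupp.single_eq_same]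
          have := hposa i hi; omega
      obtain ⟨y, hy, hyA, hyB⟩ := ihM _ hlt _ (x' + z) rfl rfl
      refine ⟨y, R.trans ?_ hy, hyA, hyB⟩
      rw [hx']
      exact R.add (R.refl _) (hRA i hi)
    · by_cases h2 : ∃ i ∈ B, b / n i ≤ x i
      · obtain ⟨i, hi, hle⟩ := h2
        obtain ⟨x', hx'⟩ : ∃ x', x = x' + Finsupp.single i (b / n i) :=
          ⟨x - Finsupp.single i (b / n i), (tsub_add_cancel_of_le (by
            rw [Finsupp.single_le_iff]; exact hle)).symm⟩
        have hiA : i ∉ A := fun h => (Finset.disjoint_left.1 hwdisj) h hi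
        have heq : ∑ j ∈ A, (x' + Finsupp.single w (b / n w)) j = M := by
          rw [← hxM]
          apply Finset.sum_congr rfl
          intro j hj
          have hjw : j ≠ w := by rintro rfl; exact hwA hj
          have hji : j ≠ i := by rintro rfl; exact hiA hj
          rw [hx', Finsupp.add_apply, Finsupp.add_apply, Finsupp.single_eq_of_ne hjw,
            Finsupp.single_eq_of_ne hji]
        have hlt : ∑ j ∈ B, (x' + Finsupp.single w (b / n w)) j < N := by
          rw [← hxN]
          apply Finset.sum_lt_sum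
          · intro j hj
            have hjw : j ≠ w := by rintro rfl; exact hwB hj
            rw [hx', Finsupp.add_apply, Finsupp.add_apply, Finsupp.single_eq_of_ne hjw]; omega
          · refine ⟨i, hi, ?_⟩
            have hiw : i ≠ w := by rintro rfl; exact hwB hi
            rw [hx', Finsupp.add_apply, Finsupp.add_apply, Finsupp.single_eq_of_ne hiw,
              Finsupp.single_eq_same]
            have := hposb i hi; omega
        obtain ⟨y, hy, hyA, hyB⟩ := ihN _ hlt (x' + Finsupp.single w (b / n w)) heq rfl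
        refine ⟨y, R.trans ?_ hy, hyA, hyB⟩
        rw [hx']
        exact R.add (R.refl _) (hRB i hi)
      · push Not at h1 h2
        exact ⟨x, R.refl _, h1, h2⟩
  -- the box
  let c : ι → ℕ := fun i => if i ∈ A then a / n i else b / n i
  have hbox : ∀ y : ι →₀ ℕ, ((∀ i ∈ A, y i < a / n i) ∧ (∀ i ∈ B, y i < b / n i)) →
      ∀ i, i ≠ w → y i < c i := by
    rintro y ⟨h1, h2⟩ i hi
    simp only [c]
    split_ifs with h
    · exact h1 i h
    · exact h2 i ((hAB i hi).resolve_left h)
  have hcprod : ∏ i ∈ Finset.univ.erase w, c i = n w := by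
    have hsplit : Finset.univ.erase w = A ∪ B := by
      ext i
      simp only [Finset.mem_erase, Finset.mem_univ, and_true, Finset.mem_union]
      constructor
      · exact hAB i
      · rintro (h | h)
        · rintro rfl; exact hwA h
        · rintro rfl; exact hwB h
    have hA1 : ∏ i ∈ A, (c i * n i) = a ^ α := by
      rw [← hwcard, ← Finset.prod_const]
      apply Finset.prod_congr rfl
      intro i hi
      simp only [c, if_pos hi]
      exact Nat.div_mul_cancel (hAa i hi)
    have hB1 : ∏ i ∈ B, (c i * n i) = b ^ β := by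
      rw [← hBcard, ← Finset.prod_const]
      apply Finset.prod_congr rfl
      intro i hi
      have hiA : i ∉ A := fun h => (Finset.disjoint_left.1 hwdisj) h hi
      simp only [c, if_neg hiA]
      exact Nat.div_mul_cancel (hBb i hi)
    have h3 : ∏ i ∈ Finset.univ.erase w, (c i * n i) = n w * ∏ i ∈ Finset.univ.erase w, n i := by
      rw [Finset.mul_prod_erase _ _ (Finset.mem_univ w), hprod, hsplit,
        Finset.prod_union hwdisj, hA1, hB1]
    rw [Finset.prod_mul_distrib] at h3
    refine Nat.eq_of_mul_eq_mul_right ?_ h3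
    apply Finset.prod_pos
    intro i _; exact Nat.pos_of_ne_zero (hn i)
  have hφsum : ∀ x : ι →₀ ℕ, φ x = ∑ i, x i * n i := by
    intro x
    conv_lhs => rw [← Finsupp.univ_sum_single x]
    rw [map_sum]
    exact Finset.sum_congr rfl (fun i _ => hφ i _)
  have : NeZero (n w) := ⟨hn w⟩
  let θ : (∀ i : {i // i ≠ w}, Fin (c i)) → ZMod (n w) :=
    fun v => ∑ i : {i // i ≠ w}, ((v i : ℕ) : ZMod (n w)) * (n i : ZMod (n w))
  have hθ : ∀ (x : ι →₀ ℕ) (hx : ∀ i, i ≠ w → x i < c i),
      θ (fun i => ⟨x i, hx i i.2⟩) = (φ x : ZMod (n w)) := by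
    intro x hx
    rw [hφsum, Nat.cast_sum, ← Finset.add_sum_erase _ _ (Finset.mem_univ w)]
    have h0 : ((x w * n w : ℕ) : ZMod (n w)) = 0 := by
      rw [Nat.cast_mul, ZMod.natCast_self, mul_zero]
    rw [h0, zero_add]
    simp only [θ]
    simp only [Nat.cast_mul]
    exact (Finset.sum_subtype (Finset.univ.erase w) (p := fun i => i ≠ w) (by intro i; simp)
      (fun i => ((x i : ℕ) : ZMod (n w)) * (n i : ZMod (n w)))).symm
  have hθs : Function.Surjective θ := by
    intro r
    obtain ⟨N, hN⟩ := hcof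
    obtain ⟨x, hx⟩ := hN (r.val + n w * N) (by
      have : N ≤ n w * N := Nat.le_mul_of_pos_left N (Nat.pos_of_ne_zero (hn w))
      omega)
    obtain ⟨y, hy, hyA, hyB⟩ := normal _ _ x rfl rfl
    have hφy : φ x = φ y := hRker hy
    refine ⟨_, (hθ y (hbox y ⟨hyA, hyB⟩)).trans ?_⟩
    rw [← hφy, hx]
    simp
  have hθb : Function.Bijective θ := by
    rw [Fintype.bijective_iff_surjective_and_card]
    refine ⟨hθs, ?_⟩
    rw [Fintype.card_pi, ZMod.card]
    simp only [Fintype.card_fin]
    rw [← hcprod]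
    exact (Finset.prod_subtype (Finset.univ.erase w) (p := fun i => i ≠ w) (by intro i; simp)
      c).symm
  have huniq : ∀ x y : ι →₀ ℕ, (∀ i, i ≠ w → x i < c i) → (∀ i, i ≠ w → y i < c i) →
      φ x = φ y → x = y := by
    intro x y hx hy hxy
    have h1 : θ (fun i => ⟨x i, hx i i.2⟩) = θ (fun i => ⟨y i, hy i i.2⟩) := by
      rw [hθ x hx, hθ y hy, hxy]
    have h2 := hθb.1 h1
    have h3 : ∀ i, i ≠ w → x i = y i := by
      intro i hi
      have := congrFun h2 ⟨i, hi⟩
      simpa using this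
    rw [hφsum, hφsum, ← Finset.add_sum_erase _ _ (Finset.mem_univ w),
      ← Finset.add_sum_erase _ (fun i => y i * n i) (Finset.mem_univ w)] at hxy
    have h4 : ∑ i ∈ Finset.univ.erase w, x i * n i = ∑ i ∈ Finset.univ.erase w, y i * n i := by
      apply Finset.sum_congr rfl
      intro i hi
      rw [h3 i (Finset.ne_of_mem_erase hi)]
    rw [h4] at hxy
    have h5 : x w * n w = y w * n w := by simpa using hxy
    ext i
    by_cases hi : i = w
    · rw [hi]; exact Nat.eq_of_mul_eq_mul_right (Nat.pos_of_ne_zero (hn w)) h5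
    · exact h3 i hi
  apply le_antisymm hRker
  intro x y hxy
  obtain ⟨x', hx', hxA, hxB⟩ := normal _ _ x rfl rfl
  obtain ⟨y', hy', hyA, hyB⟩ := normal _ _ y rfl rfl
  have h1 : φ x = φ x' := hRker hx'
  have h2 : φ y = φ y' := hRker hy'
  have hxy' : φ x = φ y := hxy
  have h3 : x' = y' := huniq x' y' (hbox x' ⟨hxA, hxB⟩) (hbox y' ⟨hyA, hyB⟩) (by
    rw [← h1, ← h2, hxy'])
  exact R.trans hx' (h3 ▸ R.symm hy')

theorem card_pure (n : ι → ℕ) (hn : ∀ i, n i ≠ 0) (φ : (ι →₀ ℕ) →+ ℕ)
    (hφ : ∀ i k, φ (Finsupp.single i k) = k * n i) (a : ℕ) (ha : a ≠ 0)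
    (Fa : Finset (ι →₀ ℕ)) (hFa : ∀ x, x ∈ Fa ↔ φ x = a) :
    (Finset.univ.filter (fun i => n i ∣ a)).card ≤ Fa.card := by
  classical
  apply Finset.card_le_card_of_injOn (fun i => Finsupp.single i (a / n i))
  · intro i hi
    have hi' : n i ∣ a := by simpa using hi
    rw [Finset.mem_coe, hFa, hφ]
    exact Nat.div_mul_cancel hi'
  · intro i hi j hj hij
    have hi' : n i ∣ a := by simpa using hi
    have hpos : 0 < a / n i :=
      Nat.div_pos (Nat.le_of_dvd (Nat.pos_of_ne_zero ha) hi') (Nat.pos_of_ne_zero (hn i))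
    simp only at hij
    rw [Finsupp.single_eq_single_iff] at hij
    rcases hij with h | h
    · exact h.1
    · omega

theorem core (n : ι → ℕ) (hn : ∀ i, n i ≠ 0) (φ : (ι →₀ ℕ) →+ ℕ)
    (hφ : ∀ i k, φ (Finsupp.single i k) = k * n i)
    (a b α β : ℕ) (ha : a ≠ 0) (hb : b ≠ 0)
    (hcard : Fintype.card ι = α + β + 1)
    (hprod : ∏ i, n i = a ^ α * b ^ β)
    (hdvd : ∀ i, n i ∣ a ∨ n i ∣ b)
    (Fa : Finset (ι →₀ ℕ)) (hFa : ∀ x, x ∈ Fa ↔ φ x = a) (cFa : Fa.card = α + 1)
    (dFa : ∀ x ∈ Fa, ∀ y ∈ Fa, x ≠ y → ∀ i, x i = 0 ∨ y i = 0)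
    (Fb : Finset (ι →₀ ℕ)) (hFb : ∀ x, x ∈ Fb ↔ φ x = b) (cFb : Fb.card = β + 1)
    (dFb : ∀ x ∈ Fb, ∀ y ∈ Fb, x ≠ y → ∀ i, x i = 0 ∨ y i = 0)
    (hcof : ∃ N, ∀ s, N ≤ s → ∃ x, φ x = s) :
    ∃ ρ : Finset ((ι →₀ ℕ) × (ι →₀ ℕ)), addConGen (fun x y => (x, y) ∈ ρ) = AddCon.ker φ ∧
      (∀ ρ' ⊂ ρ, ¬ addConGen (fun x y => (x, y) ∈ ρ') = AddCon.ker φ) ∧
      ρ.card + 1 = Fintype.card ι := by
  classical
  have hIa := card_pure n hn φ hφ a ha Fa hFa
  have hIb := card_pure n hn φ hφ b hb Fb hFb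
  rw [cFa] at hIa
  rw [cFb] at hIb
  obtain ⟨ρ, hρ, hc⟩ : ∃ ρ : Finset ((ι →₀ ℕ) × (ι →₀ ℕ)),
      addConGen (fun x y => (x, y) ∈ ρ) = AddCon.ker φ ∧ ρ.card ≤ α + β := by
    by_cases h : (Finset.univ.filter (fun i => n i ∣ b)).card = β + 1
    · exact core_aux n hn φ hφ a b α β ha hb hcard hprod hdvd Fa hFa cFa dFa hcof hIa h
    · have hun : Finset.univ.filter (fun i => n i ∣ a) ∪ Finset.univ.filter (fun i => n i ∣ b) =
          Finset.univ := by
        ext i; simp [hdvd i]
      have hcu := Finset.card_union_le (Finset.univ.filter (fun i => n i ∣ a))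
        (Finset.univ.filter (fun i => n i ∣ b))
      rw [hun, Finset.card_univ, hcard] at hcu
      obtain ⟨ρ, hρ, hc⟩ := core_aux n hn φ hφ b a β α hb ha (by omega)
        (by rw [hprod, mul_comm]) (fun i => (hdvd i).symm) Fb hFb cFb dFb hcof hIb (by omega)
      exact ⟨ρ, hρ, by omega⟩
  have hlb := lower_bound n hn φ hφ ρ hρ
  refine ⟨ρ, hρ, ?_, by omega⟩
  intro ρ' hρ' hp
  have h1 := lower_bound n hn φ hφ ρ' hp
  have h2 := Finset.card_lt_card hρ'
  omega

end Pool.Agent.R656.NSCore
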