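import Mathlib

/-!
# The remainder `ω*` of the Stone-Čech compactification of the integers and `C_k(ω*, ω*)`

Helper file for `MP_80df55_gt` and `MP_7279d0_gt`.
-/

set_option autoImplicit false

namespace Pool.Agent.R656.OS

open Set Filter Topology

/-- The nonprincipal ultrafilters on `ℕ`, as a subspace of the space of all ultrafilters. -/
abbrev OStar : Type := {u : Ultrafilter ℕ // ∀ n : ℕ, u ≠ pure n}

/-- The basic clopen sets. -/
def st (A : Set ℕ) : Set OStar := {u | A ∈ u.1}

lemma mem_st {A : Set ℕ} {u : OStar} : u ∈ st A ↔ A ∈ u.1 := Iff.rfl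

lemma isClopen_st (A : Set ℕ) : IsClopen (st A) :=
  ⟨(ultrafilter_isClosed_basic A).preimage continuous_subtype_val,
    (ultrafilter_isOpen_basic A).preimage continuous_subtype_val⟩

lemma infinite_of_mem {u : OStar} {A : Set ℕ} (h : A ∈ u.1) : A.Infinite := by
  intro hA
  have h1 : (⋃ n ∈ A, ({n} : Set ℕ)) ∈ u.1 := by
    rw [biUnion_of_singleton]; exact h
  obtain ⟨n, -, hn⟩ := (Ultrafilter.finite_biUnion_mem_iff hA).1 h1
  refine u.2 n (Ultrafilter.ext fun s => ?_)
  rw [Ultrafilter.mem_pure]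
  constructor
  · intro hs
    obtain ⟨m, hm1, hm2⟩ := u.1.nonempty_of_mem (inter_mem hs hn)
    rw [mem_singleton_iff] at hm2
    rwa [hm2] at hm1
  · intro hs
    exact mem_of_superset hn (by rintro m rfl; exact hs)

lemma isClosed_range : IsClosed {u : Ultrafilter ℕ | ∀ n : ℕ, u ≠ pure n} := by
  have h : {u : Ultrafilter ℕ | ∀ n : ℕ, u ≠ pure n}ᶜ =
      ⋃ n : ℕ, {u : Ultrafilter ℕ | {n} ∈ u} := by
    ext u
    simp only [mem_compl_iff, mem_ofPred_eq, mem_iUnion]
    push Not
    constructor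
    · rintro ⟨n, rfl⟩
      exact ⟨n, by simp [Ultrafilter.mem_pure]⟩
    · rintro ⟨n, hn⟩
      refine ⟨n, Ultrafilter.ext fun s => ?_⟩
      rw [Ultrafilter.mem_pure]
      constructor
      · intro hs
        obtain ⟨m, hm1, hm2⟩ := u.nonempty_of_mem (inter_mem hs hn)
        rw [mem_singleton_iff] at hm2
        rwa [hm2] at hm1
      · intro hs
        exact mem_of_superset hn (by rintro m rfl; exact hs)
  rw [← isOpen_compl_iff, h]
  exact isOpen_iUnion fun n => ultrafilter_isOpen_basic _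

instance : CompactSpace OStar :=
  isCompact_iff_compactSpace.1 (isClosed_range.isCompact)

lemma exists_st {u : OStar} {U : Set OStar} (hU : IsOpen U) (hu : u ∈ U) :
    ∃ A, A ∈ u.1 ∧ st A ⊆ U := by
  obtain ⟨V, hV, rfl⟩ := isOpen_induced_iff.1 hU
  obtain ⟨_, ⟨A, rfl⟩, hA, hAV⟩ :=
    ultrafilterBasis_is_basis.exists_subset_of_mem_open (a := u.1) hu hV
  exact ⟨A, hA, fun v hv => hAV hv⟩

lemma nonempty_st {A : Set ℕ} (hA : A.Infinite) : (st A).Nonempty := by
  have := hA.cofinite_inf_principal_neBot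
  let u := Ultrafilter.of (cofinite ⊓ 𝓟 A)
  have hu : (u : Filter ℕ) ≤ cofinite ⊓ 𝓟 A := Ultrafilter.of_le _
  refine ⟨⟨u, fun n hn => ?_⟩, ?_⟩
  · have h1 : ({n}ᶜ : Set ℕ) ∈ u :=
      hu.trans inf_le_left (by rw [mem_cofinite, compl_compl]; exact finite_singleton n)
    rw [hn, Ultrafilter.mem_pure] at h1
    exact h1 rfl
  · exact hu.trans inf_le_right (mem_principal_self A)

instance : Nonempty OStar := (nonempty_st infinite_univ).to_type

lemma st_subset {A B : Set ℕ} (h : (A \ B).Finite) : st A ⊆ st B := by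
  intro u hu
  by_contra hB
  have h1 : Bᶜ ∈ u.1 := Ultrafilter.compl_mem_iff_notMem.2 hB
  exact infinite_of_mem (u := u) (inter_mem hu h1) h

/-- Decreasing sequences of infinite sets have pseudo-intersections. -/
lemma pseudo {B : ℕ → Set ℕ} (hB : Antitone B) (hi : ∀ n, (B n).Infinite) :
    ∃ A : Set ℕ, A.Infinite ∧ ∀ n, (A \ B n).Finite := by
  have h : ∀ n m : ℕ, ∃ k ∈ B n, m < k := fun n m => (hi n).exists_gt m
  choose k hk1 hk2 using h
  let a : ℕ → ℕ := fun n => Nat.rec (k 0 0) (fun i x => k (i + 1) x) n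
  have ha : ∀ n, a (n + 1) = k (n + 1) (a n) := fun n => rfl
  have hmono : StrictMono a := strictMono_nat_of_lt_succ fun n => by rw [ha]; exact hk2 _ _
  have hmem : ∀ n, a n ∈ B n := by
    intro n
    cases n with
    | zero => exact hk1 0 0
    | succ n => rw [ha]; exact hk1 _ _
  refine ⟨range a, infinite_range_of_injective hmono.injective, fun n => ?_⟩
  refine ((finite_Iio n).image a).subset ?_
  rintro _ ⟨⟨m, rfl⟩, hm⟩
  refine ⟨m, ?_, rfl⟩
  by_contra hmn
  rw [mem_Iio, not_lt] at hmn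
  exact hm (hB hmn (hmem m))

/-- The function space. -/
abbrev CK : Type := C(OStar, OStar)

/-- The maps with a finite range are dense. -/
lemma exists_finite_range {g : CK} {S : Set CK} (hS : S ∈ 𝓝 g) :
    ∃ g' ∈ S, (range g').Finite := by
  classical
  obtain ⟨F, hF, hFK, hFS⟩ := ContinuousMap.mem_nhds_iff.1 hS
  have key : ∃ C : Set OStar, IsClopen C ∧ univ ⊆ C ∧ ∃ c : OStar → OStar,
      IsLocallyConstant c ∧ ∀ x ∈ C, ∀ K U, (K, U) ∈ F → x ∈ K → c x ∈ K := by
    refine isCompact_univ.induction_on (p := fun s => ∃ C : Set OStar, IsClopen C ∧ s ⊆ C ∧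
      ∃ c : OStar → OStar, IsLocallyConstant c ∧ ∀ x ∈ C, ∀ K U, (K, U) ∈ F → x ∈ K → c x ∈ K)
      ?_ ?_ ?_ ?_
    · exact ⟨∅, isClopen_empty, subset_rfl, fun _ => Classical.arbitrary _,
        IsLocallyConstant.const _, fun x hx => absurd hx (notMem_empty x)⟩
    · rintro s t hst ⟨C, hC, htC, h⟩
      exact ⟨C, hC, hst.trans htC, h⟩
    · rintro s t ⟨C, hC, hsC, c, hc, hcK⟩ ⟨D, hD, htD, d, hd, hdK⟩
      refine ⟨C ∪ D, hC.union hD, union_subset_union hsC htD,
        fun x => if x ∈ C then c x else d x, ?_, ?_⟩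
      · intro A
        have : (fun x => if x ∈ C then c x else d x) ⁻¹' A = (C ∩ c ⁻¹' A) ∪ (Cᶜ ∩ d ⁻¹' A) := by
          ext x
          by_cases hx : x ∈ C <;> simp [hx]
        rw [this]
        exact (hC.isOpen.inter (hc A)).union (hC.compl.isOpen.inter (hd A))
      · intro x hx K U hKU hxK
        by_cases hxC : x ∈ C
        · simp only [hxC, if_true]
          exact hcK x hxC K U hKU hxK
        · simp only [hxC, if_false]
          exact hdK x (hx.resolve_left hxC) K U hKU hxK
    · intro t _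
      have hopen : IsOpen (⋂ p ∈ F, (if t ∈ p.1 then univ else p.1ᶜ)) := by
        refine hF.isOpen_biInter fun p hp => ?_
        split_ifs
        · exact isOpen_univ
        · exact (hFK p.1 p.2 hp).1.isClosed.isOpen_compl
      have hmem : t ∈ ⋂ p ∈ F, (if t ∈ p.1 then univ else p.1ᶜ) := by
        rw [mem_iInter₂]
        intro p _
        split_ifs with h
        · trivial
        · exact h
      obtain ⟨A, hA, hAs⟩ := exists_st hopen hmem
      refine ⟨st A, mem_nhdsWithin_of_mem_nhds ((isClopen_st A).isOpen.mem_nhds hA), st A,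
        isClopen_st A, subset_rfl, fun _ => t, IsLocallyConstant.const _, ?_⟩
      intro x hx K U hKU hxK
      by_contra htK
      have h := mem_iInter₂.1 (hAs hx) (K, U) hKU
      simp only [htK, if_false] at h
      exact h hxK
  obtain ⟨C, -, hC, c, hc, hcK⟩ := key
  refine ⟨g.comp ⟨c, hc.continuous⟩, hFS ?_, ?_⟩
  · intro K U hKU x hx
    exact (hFK K U hKU).2.2 (hcK x (hC trivial) K U hKU hx)
  · rw [ContinuousMap.coe_comp, range_comp]
    exact (hc.range_finite).image _

/-- A point is almost-`P` if each `G_δ` set that contains it has a nonempty interior. -/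
def AP {Z : Type} [TopologicalSpace Z] (z : Z) : Prop :=
  ∀ O : ℕ → Set Z, (∀ n, IsOpen (O n)) → (∀ n, z ∈ O n) → (interior (⋂ n, O n)).Nonempty

lemma AP.map {Z : Type} [TopologicalSpace Z] {z : Z} (h : AP z) (Φ : Z ≃ₜ Z) : AP (Φ z) := by
  intro O hO hz
  obtain ⟨w, hw⟩ := h (fun n => Φ ⁻¹' (O n)) (fun n => (hO n).preimage Φ.continuous) hz
  rw [← preimage_iInter, ← Φ.preimage_interior] at hw
  exact ⟨Φ w, hw⟩

lemma isLocallyConstant_of_finite {f : CK} (hf : (range f).Finite) : IsLocallyConstant f := by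
  intro s
  have h : f ⁻¹' s = (f ⁻¹' (range f \ s))ᶜ := by
    ext x
    simp
  rw [h]
  exact ((hf.subset sdiff_subset).isClosed.preimage f.continuous).isOpen_compl

lemma ap_of_finite {f : CK} (hf : (range f).Finite) : AP f := by
  intro O hO hfO
  have h1 : ∀ n, ∃ F : Set (Set OStar × Set OStar), F.Finite ∧
      (∀ K U, (K, U) ∈ F → IsCompact K ∧ IsOpen U ∧ MapsTo f K U) ∧
      {g : CK | ∀ K U, (K, U) ∈ F → MapsTo g K U} ⊆ O n := fun n =>
    ContinuousMap.mem_nhds_iff.1 ((hO n).mem_nhds (hfO n))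
  choose F hF hFK hFO using h1
  have h2 : ∀ (n : ℕ) (p : OStar), ∃ B : Set ℕ, B ∈ p.1 ∧ ∀ K U, (K, U) ∈ F n → p ∈ U →
      st B ⊆ U := by
    classical
    intro n p
    have hopen : IsOpen (⋂ q ∈ F n, (if p ∈ q.2 then q.2 else univ)) := by
      refine (hF n).isOpen_biInter fun q hq => ?_
      split_ifs
      · exact (hFK n q.1 q.2 hq).2.1
      · exact isOpen_univ
    have hmem : p ∈ ⋂ q ∈ F n, (if p ∈ q.2 then q.2 else univ) := by
      rw [mem_iInter₂]
      intro q _
      split_ifs with h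
      · exact h
      · trivial
    obtain ⟨B, hB, hBs⟩ := exists_st hopen hmem
    refine ⟨B, hB, fun K U hKU hpU x hx => ?_⟩
    have h := mem_iInter₂.1 (hBs hx) (K, U) hKU
    simpa only [hpU, if_true] using h
  choose B hB1 hB2 using h2
  have h3 : ∀ p : OStar, ∃ A : Set ℕ, A.Infinite ∧ ∀ n, st A ⊆ st (B n p) := by
    intro p
    have hanti : Antitone fun n => ⋂ k ∈ Iic n, B k p := by
      intro n m hnm
      exact biInter_subset_biInter_left (Iic_subset_Iic.2 hnm)
    obtain ⟨A, hA1, hA2⟩ := pseudo hanti fun n => by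
      have hm : (⋂ k ∈ Iic n, B k p) ∈ (p.1 : Filter ℕ) :=
        (biInter_mem (finite_Iic n)).2 fun k _ => hB1 k p
      exact infinite_of_mem (u := p) hm
    refine ⟨A, hA1, fun n => (st_subset (hA2 n)).trans ?_⟩
    intro u hu
    exact mem_of_superset hu (biInter_subset_of_mem (mem_Iic.2 le_rfl))
  choose D hD1 hD2 using h3
  let W : Set CK := {g | ∀ x, g x ∈ st (D (f x))}
  have hWopen : IsOpen W := by
    have h4 : W = ⋂ p ∈ range f, {g : CK | MapsTo g (f ⁻¹' {p}) (st (D p))} := by
      ext g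
      simp only [mem_iInter]
      constructor
      · rintro hg p - x rfl
        exact hg x
      · intro hg x
        exact hg (f x) ⟨x, rfl⟩ rfl
    rw [h4]
    refine hf.isOpen_biInter fun p _ => ?_
    exact ContinuousMap.isOpen_setOfPred_mapsTo
      ((isClosed_singleton.preimage f.continuous).isCompact) (isClopen_st _).isOpen
  have hWsub : W ⊆ ⋂ n, O n := by
    intro g hg
    rw [mem_iInter]
    intro n
    refine hFO n fun K U hKU x hx => ?_
    exact hB2 n (f x) K U hKU ((hFK n K U hKU).2.2 hx) (hD2 (f x) n (hg x))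
  choose h hh using fun p => nonempty_st (hD1 p)
  refine ⟨⟨h ∘ f, ((isLocallyConstant_of_finite hf).comp h).continuous⟩,
    mem_interior.2 ⟨W, hWsub, hWopen, fun x => hh (f x)⟩⟩

lemma not_ap_of_infinite {f : CK} (hf : (range f).Infinite) : ¬ AP f := by
  intro hAP
  have : Infinite (range f) := hf.to_subtype
  obtain ⟨U, hUi, hUo, hUd⟩ := exists_seq_infinite_isOpen_pairwise_disjoint (range f)
  choose x hx using fun n => (hUi n).nonempty
  choose V hV hVU using fun n => isOpen_induced_iff.1 (hUo n)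
  have hxV : ∀ n, (x n : OStar) ∈ V n := by
    intro n
    have h := hx n
    rw [← hVU n] at h
    exact h
  choose B hB hBV using fun n => exists_st (hV n) (hxV n)
  have hsep : ∀ m n, m ≠ n → B m ∉ (x n : OStar).1 := by
    intro m n hmn h
    have h1 : x n ∈ U m := by
      rw [← hVU m]
      exact hBV m h
    exact disjoint_left.1 (hUd hmn) h1 (hx n)
  let E : ℕ → Set ℕ := fun n => B n \ ⋃ k ∈ Iio n, B k
  have hE : ∀ n, E n ∈ (x n : OStar).1 := by
    intro n
    refine inter_mem (hB n) ?_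
    change (⋃ k ∈ Iio n, B k)ᶜ ∈ (x n : OStar).1
    rw [Ultrafilter.compl_mem_iff_notMem]
    intro h
    obtain ⟨k, hk, hk'⟩ := (Ultrafilter.finite_biUnion_mem_iff (finite_Iio n)).1 h
    exact hsep k n (ne_of_lt hk) hk'
  have hEd : ∀ m n, m < n → Disjoint (E m) (E n) := by
    intro m n hmn
    rw [disjoint_left]
    intro i hi hi'
    exact hi'.2 (mem_biUnion (mem_Iio.2 hmn) hi.1)
  have hEst : ∀ m n, m ≠ n → Disjoint (st (E m)) (st (E n)) := by
    intro m n hmn
    rw [disjoint_left]
    intro u h1 h2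
    have hdis : Disjoint (E m) (E n) := by
      rcases lt_or_gt_of_ne hmn with h | h
      · exact hEd m n h
      · exact (hEd n m h).symm
    obtain ⟨i, hi1, hi2⟩ := u.1.nonempty_of_mem (inter_mem h1 h2)
    exact disjoint_left.1 hdis hi1 hi2
  obtain ⟨g, hg⟩ := hAP (fun n => {g : CK | MapsTo g (f ⁻¹' (st (E n))) (st (E n))})
    (fun n => ContinuousMap.isOpen_setOfPred_mapsTo
      (((isClopen_st _).isClosed.preimage f.continuous).isCompact) (isClopen_st _).isOpen)
    (fun n y hy => hy)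
  obtain ⟨g', hg', hfin⟩ := exists_finite_range (mem_interior_iff_mem_nhds.1 hg)
  have hval : ∀ n, ∃ y, g' y ∈ st (E n) := by
    intro n
    obtain ⟨y, hy⟩ := (x n).2
    refine ⟨y, (mem_iInter.1 hg' n) ?_⟩
    show f y ∈ st (E n)
    rw [hy]
    exact hE n
  choose y hy using hval
  refine absurd hfin (Set.Infinite.mono (s := range fun n => g' (y n)) ?_
    (infinite_range_of_injective ?_))
  · rintro _ ⟨n, rfl⟩
    exact ⟨y n, rfl⟩
  · intro m n hmn
    by_contra hne
    have h1 := hy m
    simp only at hmn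
    rw [hmn] at h1
    exact disjoint_left.1 (hEst m n hne) h1 (hy n)

/-- Finiteness of the range is an invariant of the orbits. -/
theorem finite_iff (f g : CK) (h : ∃ Φ : CK ≃ₜ CK, Φ f = g) :
    (range f).Finite ↔ (range g).Finite := by
  obtain ⟨Φ, rfl⟩ := h
  constructor
  · intro hf
    by_contra hg
    exact not_ap_of_infinite hg ((ap_of_finite hf).map Φ)
  · intro hg
    by_contra hf
    have h := (ap_of_finite hg).map Φ.symm
    rw [Homeomorph.symm_apply_apply] at h
    exact not_ap_of_infinite hf h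

end Pool.Agent.R656.OS
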