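import Mathlib

/-!
# Graphs of convex polytopes

Helper file for `MP_1e46c9_co`.
-/

set_option autoImplicit false

namespace Pool.Agent.R656.PG

open Set

section basic

variable {E : Type*} [AddCommGroup E] [Module ℝ E]

/-- The faces of a convex polytope `P`: the empty set, and the sets of the points of `P` at which a
linear functional `l` attains its maximum on `P` (for `l = 0` this is `P`). -/
def IsFace (P F : Set E) : Prop :=
  F = ∅ ∨ ∃ l : E →ₗ[ℝ] ℝ, F = {z ∈ P | ∀ w ∈ P, l w ≤ l z}

/-- The vertices of `P`: the points `x` such that `{x}` is a face of `P`. -/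
def Verts (P : Set E) : Set E := {x | IsFace P {x}}

/-- The graph of `P`: two different vertices are adjacent if the segment between them is a face. -/
def polyGraph (P : Set E) : SimpleGraph (Verts P) where
  Adj x y := x ≠ y ∧ IsFace P (segment ℝ (x : E) (y : E))
  symm := ⟨fun x y h => ⟨h.1.symm, by rw [segment_symm]; exact h.2⟩⟩
  loopless := ⟨fun x h => h.1 rfl⟩

lemma isFace_singleton_iff {P : Set E} {x : E} :
    IsFace P {x} ↔ x ∈ P ∧ ∃ l : E →ₗ[ℝ] ℝ, ∀ y ∈ P, y ≠ x → l y < l x := by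
  constructor
  · rintro (h | ⟨l, hl⟩)
    · exact absurd h (singleton_ne_empty x)
    · have hx : x ∈ {z ∈ P | ∀ w ∈ P, l w ≤ l z} := by rw [← hl]; rfl
      refine ⟨hx.1, l, fun y hy hyx => lt_of_le_of_ne (hx.2 y hy) fun e => hyx ?_⟩
      have : y ∈ {z ∈ P | ∀ w ∈ P, l w ≤ l z} := ⟨hy, fun w hw => by rw [e]; exact hx.2 w hw⟩
      rw [← hl] at this
      exact this
  · rintro ⟨hx, l, hl⟩
    refine Or.inr ⟨l, ?_⟩
    ext z
    constructor
    · intro hz
      rw [mem_singleton_iff] at hz
      rw [hz]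
      refine ⟨hx, fun w hw => ?_⟩
      by_cases h : w = x
      · rw [h]
      · exact (hl w hw h).le
    · rintro ⟨hz, hz'⟩
      by_contra h
      exact absurd (hz' x hx) (not_le.2 (hl z hz h))

/-- The maximum of a functional on the convex hull of `V`. -/
lemma mem_conv_max {V : Set E} {l : E →ₗ[ℝ] ℝ} {M : ℝ} (h : ∀ v ∈ V, l v ≤ M) {z : E}
    (hz : z ∈ convexHull ℝ V) :
    l z ≤ M ∧ (l z = M → z ∈ convexHull ℝ {v ∈ V | l v = M}) := by
  have hsub : convexHull ℝ V ⊆ {z | l z ≤ M ∧ (l z = M → z ∈ convexHull ℝ {v ∈ V | l v = M})} := by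
    refine convexHull_min ?_ ?_
    · intro v hv
      exact ⟨h v hv, fun e => subset_convexHull ℝ _ ⟨hv, e⟩⟩
    · rintro x ⟨hx1, hx2⟩ y ⟨hy1, hy2⟩ a b ha hb hab
      have e : l (a • x + b • y) = a * l x + b * l y := by simp
      have hM' : a * M + b * M = M := by rw [← add_mul, hab, one_mul]
      have hax := mul_le_mul_of_nonneg_left hx1 ha
      have hby := mul_le_mul_of_nonneg_left hy1 hb
      have hle : l (a • x + b • y) ≤ M := by
        rw [e]
        linarith
      refine ⟨hle, fun hM => ?_⟩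
      rw [e] at hM
      rcases ha.eq_or_lt with ha0 | ha0
      · have hb1 : b = 1 := by linarith
        rw [← ha0, hb1] at hM ⊢
        simp only [zero_smul, one_smul, zero_add]
        exact hy2 (by simpa using hM)
      · rcases hb.eq_or_lt with hb0 | hb0
        · have ha1 : a = 1 := by linarith
          rw [← hb0, ha1] at hM ⊢
          simp only [zero_smul, one_smul, add_zero]
          exact hx2 (by simpa using hM)
        · have hxM : l x = M := by
            by_contra hne
            have := mul_lt_mul_of_pos_left (lt_of_le_of_ne hx1 hne) ha0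
            linarith
          have hyM : l y = M := by
            by_contra hne
            have := mul_lt_mul_of_pos_left (lt_of_le_of_ne hy1 hne) hb0
            linarith
          exact (convex_convexHull ℝ _) (hx2 hxM) (hy2 hyM) ha hb hab
  exact hsub hz

lemma verts_conv_subset (V : Set E) : Verts (convexHull ℝ V) ⊆ V := by
  intro x hx
  obtain ⟨hxP, l, hl⟩ := isFace_singleton_iff.1 hx
  have h1 : ∀ v ∈ V, l v ≤ l x := by
    intro v hv
    by_cases h : v = x
    · rw [h]
    · exact (hl v (subset_convexHull ℝ V hv) h).le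
  have h2 := (mem_conv_max h1 hxP).2 rfl
  have h3 : {v ∈ V | l v = l x} ⊆ V ∩ {x} := by
    rintro v ⟨hv, hv'⟩
    refine ⟨hv, ?_⟩
    by_contra h
    exact absurd hv' (hl v (subset_convexHull ℝ V hv) h).ne
  obtain ⟨v, hv⟩ := convexHull_nonempty_iff.1 ⟨x, h2⟩
  have := h3 hv
  rw [mem_singleton_iff.1 this.2] at hv
  exact hv.1

lemma mem_verts_conv {V : Set E} {x : E} (hx : x ∈ V) {l : E →ₗ[ℝ] ℝ}
    (hl : ∀ v ∈ V, v ≠ x → l v < l x) : x ∈ Verts (convexHull ℝ V) := by
  refine isFace_singleton_iff.2 ⟨subset_convexHull ℝ V hx, l, fun y hy hyx => ?_⟩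
  have h1 : ∀ v ∈ V, l v ≤ l x := by
    intro v hv
    by_cases h : v = x
    · rw [h]
    · exact (hl v hv h).le
  obtain ⟨h2, h3⟩ := mem_conv_max h1 hy
  refine lt_of_le_of_ne h2 fun e => hyx ?_
  have h4 := h3 e
  have h5 : {v ∈ V | l v = l x} = {x} := by
    ext v
    constructor
    · rintro ⟨hv, hv'⟩
      by_contra h
      exact absurd hv' (hl v hv h).ne
    · intro hv
      rw [mem_singleton_iff] at hv
      rw [hv]
      exact ⟨hx, rfl⟩
  rw [h5, convexHull_singleton] at h4
  exact h4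

/-- Edges of the convex hull of a set all of whose points are vertices. -/
lemma edge_iff {V : Set E} (hV : V ⊆ Verts (convexHull ℝ V)) {x y : E} (hx : x ∈ V) (hy : y ∈ V) :
    IsFace (convexHull ℝ V) (segment ℝ x y) ↔
      ∃ l : E →ₗ[ℝ] ℝ, l x = l y ∧ ∀ v ∈ V, v ≠ x → v ≠ y → l v < l x := by
  constructor
  · rintro (h | ⟨l, hl⟩)
    · exact absurd h (Set.nonempty_iff_ne_empty.1 ⟨x, left_mem_segment ℝ x y⟩)
    · have hx' : x ∈ {z ∈ convexHull ℝ V | ∀ w ∈ convexHull ℝ V, l w ≤ l z} := by
        rw [← hl]; exact left_mem_segment ℝ x y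
      have hy' : y ∈ {z ∈ convexHull ℝ V | ∀ w ∈ convexHull ℝ V, l w ≤ l z} := by
        rw [← hl]; exact right_mem_segment ℝ x y
      have hxy : l x = l y := le_antisymm (hy'.2 x hx'.1) (hx'.2 y hy'.1)
      refine ⟨l, hxy, fun v hv hvx hvy => ?_⟩
      refine lt_of_le_of_ne (hx'.2 v (subset_convexHull ℝ V hv)) fun e => ?_
      have hv' : v ∈ segment ℝ x y := by
        rw [hl]
        exact ⟨subset_convexHull ℝ V hv, fun w hw => by rw [e]; exact hx'.2 w hw⟩
      obtain ⟨-, k, hk⟩ := isFace_singleton_iff.1 (hV hv)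
      obtain ⟨a, b, ha, hb, hab, rfl⟩ := hv'
      have k1 := hk x (subset_convexHull ℝ V hx) (Ne.symm hvx)
      have k2 := hk y (subset_convexHull ℝ V hy) (Ne.symm hvy)
      simp only [map_add, map_smul, smul_eq_mul] at k1 k2
      rcases ha.eq_or_lt with ha0 | ha0
      · have hb1 : b = 1 := by linarith
        rw [← ha0, hb1] at k2
        simp at k2
      · rcases hb.eq_or_lt with hb0 | hb0
        · have ha1 : a = 1 := by linarith
          rw [← hb0, ha1] at k1
          simp at k1
        · have hab' : b = 1 - a := by linarith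
          subst hab'
          nlinarith
  · rintro ⟨l, hxy, hl⟩
    refine Or.inr ⟨l, ?_⟩
    have h1 : ∀ v ∈ V, l v ≤ l x := by
      intro v hv
      by_cases h : v = x
      · rw [h]
      · by_cases h' : v = y
        · rw [h', hxy]
        · exact (hl v hv h h').le
    have h5 : {v ∈ V | l v = l x} = {x, y} := by
      ext v
      constructor
      · rintro ⟨hv, hv'⟩
        by_contra h
        simp only [mem_insert_iff, mem_singleton_iff, not_or] at h
        exact absurd hv' (hl v hv h.1 h.2).ne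
      · rintro (rfl | rfl)
        · exact ⟨hx, rfl⟩
        · exact ⟨hy, hxy.symm⟩
    ext z
    constructor
    · intro hz
      have hzc : z ∈ convexHull ℝ V := by
        have : segment ℝ x y ⊆ convexHull ℝ V :=
          (convex_convexHull ℝ V).segment_subset (subset_convexHull ℝ V hx)
            (subset_convexHull ℝ V hy)
        exact this hz
      have hlz : l z = l x := by
        obtain ⟨a, b, ha, hb, hab, rfl⟩ := hz
        simp only [map_add, map_smul, smul_eq_mul]
        rw [← hxy, ← add_mul, hab, one_mul]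
      exact ⟨hzc, fun w hw => by rw [hlz]; exact (mem_conv_max h1 hw).1⟩
    · rintro ⟨hz, hz'⟩
      have hlz : l z = l x := le_antisymm (mem_conv_max h1 hz).1
        (hz' x (subset_convexHull ℝ V hx))
      have h4 := (mem_conv_max h1 hz).2 hlz
      rwa [h5, convexHull_pair] at h4

/-- The points `p i` are the vertices of a polytope whose graph is `G`. -/
def Rz {ι : Type*} (p : ι → E) (G : SimpleGraph ι) : Prop :=
  (∀ i, ∃ l : E →ₗ[ℝ] ℝ, ∀ j, j ≠ i → l (p j) < l (p i)) ∧
  (∀ i j, i ≠ j → (G.Adj i j ↔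
    ∃ l : E →ₗ[ℝ] ℝ, l (p i) = l (p j) ∧ ∀ k, k ≠ i → k ≠ j → l (p k) < l (p i)))

lemma Rz.injective {ι : Type*} {p : ι → E} {G : SimpleGraph ι} (h : Rz p G) :
    Function.Injective p := by
  intro i j hij
  by_contra hne
  obtain ⟨l, hl⟩ := h.1 i
  have := hl j (Ne.symm hne)
  rw [hij] at this
  exact lt_irrefl _ this

lemma Rz.subset_verts {ι : Type*} {p : ι → E} {G : SimpleGraph ι} (h : Rz p G) :
    range p ⊆ Verts (convexHull ℝ (range p)) := by
  rintro _ ⟨i, rfl⟩
  obtain ⟨l, hl⟩ := h.1 i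
  refine mem_verts_conv ⟨i, rfl⟩ (l := l) ?_
  rintro _ ⟨j, rfl⟩ hj
  exact hl j fun e => hj (by rw [e])

lemma Rz.verts {ι : Type*} {p : ι → E} {G : SimpleGraph ι} (h : Rz p G) :
    Verts (convexHull ℝ (range p)) = range p :=
  Subset.antisymm (verts_conv_subset _) h.subset_verts

/-- The isomorphism onto the graph of the polytope. -/
noncomputable def Rz.iso {ι : Type*} {p : ι → E} {G : SimpleGraph ι} (h : Rz p G) :
    G ≃g polyGraph (convexHull ℝ (range p)) where
  toEquiv := Equiv.ofBijective (fun i => ⟨p i, h.subset_verts ⟨i, rfl⟩⟩) ⟨fun i j hij =>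
    h.injective (congrArg Subtype.val hij), by
      rintro ⟨x, hx⟩
      obtain ⟨i, rfl⟩ := verts_conv_subset _ hx
      exact ⟨i, rfl⟩⟩
  map_rel_iff' := by
    intro i j
    show (polyGraph (convexHull ℝ (range p))).Adj ⟨p i, _⟩ ⟨p j, _⟩ ↔ G.Adj i j
    by_cases hij : i = j
    · subst hij
      simp
    · rw [h.2 i j hij]
      have hne : p i ≠ p j := fun e => hij (h.injective e)
      constructor
      · rintro ⟨-, hf⟩
        obtain ⟨l, h1, h2⟩ := (edge_iff h.subset_verts ⟨i, rfl⟩ ⟨j, rfl⟩).1 hf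
        exact ⟨l, h1, fun k hk hk' => h2 _ ⟨k, rfl⟩ (fun e => hk (h.injective e))
          fun e => hk' (h.injective e)⟩
      · rintro ⟨l, h1, h2⟩
        refine ⟨fun e => hne (congrArg Subtype.val e),
          (edge_iff h.subset_verts ⟨i, rfl⟩ ⟨j, rfl⟩).2 ⟨l, h1, ?_⟩⟩
        rintro _ ⟨k, rfl⟩ hk hk'
        exact h2 k (fun e => hk (by rw [e])) fun e => hk' (by rw [e])

lemma Rz.map {ι : Type*} {p : ι → E} {G : SimpleGraph ι} (h : Rz p G) {F : Type*}
    [AddCommGroup F] [Module ℝ F] (e : E ≃ₗ[ℝ] F) : Rz (e ∘ p) G := by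
  constructor
  · intro i
    obtain ⟨l, hl⟩ := h.1 i
    exact ⟨l ∘ₗ e.symm.toLinearMap, fun j hj => by simpa using hl j hj⟩
  · intro i j hij
    rw [h.2 i j hij]
    constructor
    · rintro ⟨l, h1, h2⟩
      exact ⟨l ∘ₗ e.symm.toLinearMap, by simpa using h1, fun k hk hk' => by simpa using h2 k hk hk'⟩
    · rintro ⟨l, h1, h2⟩
      exact ⟨l ∘ₗ e.toLinearMap, by simpa using h1, fun k hk hk' => by simpa using h2 k hk hk'⟩

lemma Rz.reindex {ι κ : Type*} {p : ι → E} {G : SimpleGraph ι} {G' : SimpleGraph κ}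
    (h : Rz p G) (e : G' ≃g G) : Rz (p ∘ e) G' := by
  constructor
  · intro i
    obtain ⟨l, hl⟩ := h.1 (e i)
    exact ⟨l, fun j hj => hl (e j) fun he => hj (e.injective he)⟩
  · intro i j hij
    rw [← e.map_adj_iff, h.2 (e i) (e j) fun he => hij (e.injective he)]
    constructor
    · rintro ⟨l, h1, h2⟩
      exact ⟨l, h1, fun k hk hk' => h2 (e k) (fun he => hk (e.injective he))
        fun he => hk' (e.injective he)⟩
    · rintro ⟨l, h1, h2⟩
      refine ⟨l, h1, fun k hk hk' => ?_⟩
      have := h2 (e.symm k) (fun he => hk (by rw [← he]; simp)) fun he => hk' (by rw [← he]; simp)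
      simpa using this

end basic

section normed

variable {E : Type*} [NormedAddCommGroup E] [NormedSpace ℝ E]

/-- The convex hull of a finite set is the convex hull of its vertices. -/
lemma conv_verts {V : Set E} (hV : V.Finite) :
    (Verts (convexHull ℝ V)).Finite ∧
      convexHull ℝ (Verts (convexHull ℝ V)) = convexHull ℝ V := by
  classical
  refine ⟨hV.subset (verts_conv_subset V), ?_⟩
  -- a minimal subset with the same convex hull
  obtain ⟨W, hW, hmin⟩ : ∃ W : Set E, (W ⊆ V ∧ convexHull ℝ W = convexHull ℝ V) ∧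
      ∀ W' : Set E, W' ⊆ V → convexHull ℝ W' = convexHull ℝ V → W.ncard ≤ W'.ncard := by
    have hne : {n : ℕ | ∃ W : Set E, W ⊆ V ∧ convexHull ℝ W = convexHull ℝ V ∧
        W.ncard = n}.Nonempty := ⟨V.ncard, V, subset_rfl, rfl, rfl⟩
    obtain ⟨W, h1, h2, h3⟩ := Nat.sInf_mem hne
    refine ⟨W, ⟨h1, h2⟩, fun W' h1' h2' => ?_⟩
    rw [h3]
    exact Nat.sInf_le ⟨W', h1', h2', rfl⟩
  have hWfin : W.Finite := hV.subset hW.1
  have hWV : W ⊆ Verts (convexHull ℝ V) := by
    intro v hv
    have hv' : v ∉ convexHull ℝ (W \ {v}) := by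
      intro h
      have h1 : convexHull ℝ (W \ {v}) = convexHull ℝ V := by
        refine Subset.antisymm ((convexHull_mono sdiff_subset).trans hW.2.le) ?_
        rw [← hW.2]
        refine convexHull_min ?_ (convex_convexHull ℝ _)
        intro w hw
        by_cases hwv : w = v
        · rw [hwv]; exact h
        · exact subset_convexHull ℝ _ ⟨hw, hwv⟩
      have h2 := hmin _ (sdiff_subset.trans hW.1) h1
      have h3 := Set.ncard_sdiff_singleton_lt_of_mem hv hWfin
      omega
    obtain ⟨f, u, hf1, hf2⟩ := geometric_hahn_banach_closed_point (convex_convexHull ℝ _)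
      ((hWfin.subset sdiff_subset).isClosed_convexHull ℝ) hv'
    rw [← hW.2]
    refine mem_verts_conv hv (l := f.toLinearMap) ?_
    intro w hw hwv
    exact (hf1 w (subset_convexHull ℝ _ ⟨hw, hwv⟩)).trans hf2
  refine Subset.antisymm (convexHull_min (fun x hx => ?_) (convex_convexHull ℝ _)) ?_
  · exact (isFace_singleton_iff.1 hx).1
  · rw [← hW.2]
    refine convexHull_mono ?_
    rw [hW.2]
    exact hWV

/-- The vertices of a polytope realize its graph. -/
lemma rz_polyGraph {V : Set E} (hV : V.Finite) :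
    Rz (Subtype.val : Verts (convexHull ℝ V) → E) (polyGraph (convexHull ℝ V)) := by
  obtain ⟨-, h2⟩ := conv_verts hV
  constructor
  · rintro ⟨x, hx⟩
    obtain ⟨-, l, hl⟩ := isFace_singleton_iff.1 hx
    refine ⟨l, ?_⟩
    rintro ⟨y, hy⟩ hyx
    exact hl y (isFace_singleton_iff.1 hy).1 fun e => hyx (Subtype.ext e)
  · rintro ⟨x, hx⟩ ⟨y, hy⟩ hxy
    have h3 : Verts (convexHull ℝ V) ⊆ Verts (convexHull ℝ (Verts (convexHull ℝ V))) := by
      rw [h2]
    have h4 := edge_iff h3 hx hy
    rw [h2] at h4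
    show ((⟨x, hx⟩ : Verts (convexHull ℝ V)) ≠ ⟨y, hy⟩ ∧ IsFace (convexHull ℝ V) (segment ℝ x y)) ↔ _
    rw [h4]
    constructor
    · rintro ⟨-, l, h5, h6⟩
      exact ⟨l, h5, fun k hk hk' => h6 k.1 k.2 (fun e => hk (Subtype.ext e))
        fun e => hk' (Subtype.ext e)⟩
    · rintro ⟨l, h5, h6⟩
      exact ⟨hxy, l, h5, fun v hv h7 h8 => h6 ⟨v, hv⟩ (fun e => h7 (congrArg Subtype.val e))
        fun e => h8 (congrArg Subtype.val e)⟩

end normed

end Pool.Agent.R656.PG
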