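import Pool.Agent.R656.PolyGraph

/-!
# Pyramids and twofold apexes over a convex polytope

Helper file for `MP_1e46c9_co`.
-/

set_option autoImplicit false

namespace Pool.Agent.R656.PG

open Set Topology

/-- The graph `G` together with `k` new vertices, each of which is adjacent to every other
vertex. -/
def joinK {α : Type*} (G : SimpleGraph α) (k : ℕ) : SimpleGraph (α ⊕ Fin k) where
  Adj u v := u ≠ v ∧ ∀ x y, u = Sum.inl x → v = Sum.inl y → G.Adj x y
  symm := ⟨fun u v h => ⟨h.1.symm, fun x y hx hy => (h.2 y x hy hx).symm⟩⟩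
  loopless := ⟨fun u h => h.1 rfl⟩

lemma joinK_inl_inl {α : Type*} (G : SimpleGraph α) (k : ℕ) (x y : α) :
    (joinK G k).Adj (Sum.inl x) (Sum.inl y) ↔ G.Adj x y := by
  constructor
  · exact fun h => h.2 x y rfl rfl
  · intro h
    refine ⟨fun e => h.ne (Sum.inl_injective e), ?_⟩
    rintro x' y' hx hy
    rwa [← Sum.inl_injective hx, ← Sum.inl_injective hy]

lemma joinK_inl_inr {α : Type*} (G : SimpleGraph α) (k : ℕ) (x : α) (i : Fin k) :
    (joinK G k).Adj (Sum.inl x) (Sum.inr i) :=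
  ⟨by simp, fun _ _ _ h => by simp at h⟩

lemma joinK_inr_inl {α : Type*} (G : SimpleGraph α) (k : ℕ) (x : α) (i : Fin k) :
    (joinK G k).Adj (Sum.inr i) (Sum.inl x) :=
  ⟨by simp, fun _ _ h _ => by simp at h⟩

lemma joinK_inr_inr {α : Type*} (G : SimpleGraph α) (k : ℕ) (i j : Fin k) :
    (joinK G k).Adj (Sum.inr i) (Sum.inr j) ↔ i ≠ j :=
  ⟨fun h e => h.1 (by rw [e]), fun h => ⟨fun e => h (Sum.inr_injective e), fun _ _ h _ => by
    simp at h⟩⟩

/-- Adding one more apex. -/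
def joinSucc {α : Type*} (G : SimpleGraph α) (k : ℕ) :
    joinK G (k + 1) ≃g joinK (joinK G k) 1 where
  toEquiv := ((Equiv.sumAssoc α (Fin k) (Fin 1)).trans
    (Equiv.sumCongr (Equiv.refl α) finSumFinEquiv)).symm
  map_rel_iff' := by
    intro u v
    obtain ⟨u, rfl⟩ := ((Equiv.sumAssoc α (Fin k) (Fin 1)).trans
      (Equiv.sumCongr (Equiv.refl α) finSumFinEquiv)).surjective u
    obtain ⟨v, rfl⟩ := ((Equiv.sumAssoc α (Fin k) (Fin 1)).trans
      (Equiv.sumCongr (Equiv.refl α) finSumFinEquiv)).surjective v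
    rw [Equiv.symm_apply_apply, Equiv.symm_apply_apply]
    rcases u with (x | i) | i <;> rcases v with (y | j) | j
    · show (joinK (joinK G k) 1).Adj (Sum.inl (Sum.inl x)) (Sum.inl (Sum.inl y)) ↔
        (joinK G (k + 1)).Adj (Sum.inl x) (Sum.inl y)
      rw [joinK_inl_inl, joinK_inl_inl, joinK_inl_inl]
    · show (joinK (joinK G k) 1).Adj (Sum.inl (Sum.inl x)) (Sum.inl (Sum.inr j)) ↔
        (joinK G (k + 1)).Adj (Sum.inl x) (Sum.inr (finSumFinEquiv (Sum.inl j)))
      rw [joinK_inl_inl]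
      exact iff_of_true (joinK_inl_inr _ _ _ _) (joinK_inl_inr _ _ _ _)
    · exact iff_of_true (joinK_inl_inr _ _ _ _) (joinK_inl_inr _ _ _ _)
    · show (joinK (joinK G k) 1).Adj (Sum.inl (Sum.inr i)) (Sum.inl (Sum.inl y)) ↔
        (joinK G (k + 1)).Adj (Sum.inr (finSumFinEquiv (Sum.inl i))) (Sum.inl y)
      rw [joinK_inl_inl]
      exact iff_of_true (joinK_inr_inl _ _ _ _) (joinK_inr_inl _ _ _ _)
    · show (joinK (joinK G k) 1).Adj (Sum.inl (Sum.inr i)) (Sum.inl (Sum.inr j)) ↔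
        (joinK G (k + 1)).Adj (Sum.inr (finSumFinEquiv (Sum.inl i)))
          (Sum.inr (finSumFinEquiv (Sum.inl j)))
      rw [joinK_inl_inl, joinK_inr_inr, joinK_inr_inr]
      simp
    · show (joinK (joinK G k) 1).Adj (Sum.inl (Sum.inr i)) (Sum.inr j) ↔
        (joinK G (k + 1)).Adj (Sum.inr (finSumFinEquiv (Sum.inl i)))
          (Sum.inr (finSumFinEquiv (Sum.inr j)))
      refine iff_of_true (joinK_inl_inr _ _ _ _) ((joinK_inr_inr _ _ _ _).2 fun e => ?_)
      simpa using finSumFinEquiv.injective e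
    · exact iff_of_true (joinK_inr_inl _ _ _ _) (joinK_inr_inl _ _ _ _)
    · show (joinK (joinK G k) 1).Adj (Sum.inr i) (Sum.inl (Sum.inr j)) ↔
        (joinK G (k + 1)).Adj (Sum.inr (finSumFinEquiv (Sum.inr i)))
          (Sum.inr (finSumFinEquiv (Sum.inl j)))
      refine iff_of_true (joinK_inr_inl _ _ _ _) ((joinK_inr_inr _ _ _ _).2 fun e => ?_)
      simpa using finSumFinEquiv.injective e
    · show (joinK (joinK G k) 1).Adj (Sum.inr i) (Sum.inr j) ↔
        (joinK G (k + 1)).Adj (Sum.inr (finSumFinEquiv (Sum.inr i)))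
          (Sum.inr (finSumFinEquiv (Sum.inr j)))
      rw [joinK_inr_inr, joinK_inr_inr]
      simp

section

variable {E : Type*} [NormedAddCommGroup E] [NormedSpace ℝ E]

/-- Linear functionals on `E × ℝ`. -/
def fn (l : E →ₗ[ℝ] ℝ) (s : ℝ) : E × ℝ →ₗ[ℝ] ℝ :=
  l ∘ₗ LinearMap.fst ℝ E ℝ + s • LinearMap.snd ℝ E ℝ

@[simp] lemma fn_apply (l : E →ₗ[ℝ] ℝ) (s : ℝ) (x : E) (t : ℝ) : fn l s (x, t) = l x + s * t := rfl

/-- The restriction of a functional to `E`. -/
lemma fn_restrict (L : E × ℝ →ₗ[ℝ] ℝ) : ∃ l : E →ₗ[ℝ] ℝ, ∀ x, L (x, 0) = l x :=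
  ⟨L ∘ₗ LinearMap.inl ℝ E ℝ, fun _ => rfl⟩

lemma span_top {ι κ : Type*} {p : ι → E} (hp : affineSpan ℝ (range p) = ⊤) {P : κ → E × ℝ}
    (h1 : ∀ i, (p i, (0 : ℝ)) ∈ range P) {y : E} {t0 : ℝ} (ht : t0 ≠ 0) (h2 : (y, t0) ∈ range P) :
    affineSpan ℝ (range P) = ⊤ := by
  have h3 : ∀ x : E, (x, (0 : ℝ)) ∈ affineSpan ℝ (range P) := by
    intro x
    let f : E →ᵃ[ℝ] E × ℝ := (LinearMap.inl ℝ E ℝ).toAffineMap
    have h4 : (affineSpan ℝ (range p)).map f ≤ affineSpan ℝ (range P) := by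
      rw [AffineSubspace.map_span]
      refine affineSpan_mono ℝ ?_
      rintro _ ⟨_, ⟨i, rfl⟩, rfl⟩
      exact h1 i
    rw [hp] at h4
    exact h4 ⟨x, AffineSubspace.mem_top ℝ E x, rfl⟩
  rw [eq_top_iff]
  rintro ⟨x, t⟩ -
  have h5 := (affineSpan ℝ (range P)).smul_vsub_vadd_mem (t / t0)
    (subset_affineSpan ℝ _ h2) (h3 y) (h3 x)
  have e : (t / t0) • ((y, t0) -ᵥ (y, (0 : ℝ))) +ᵥ (x, (0 : ℝ)) = (x, t) := by
    simp [div_mul_cancel₀ t ht]
  rwa [e] at h5

/-- The pyramid. -/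
lemma Rz.pyramid {ι : Type*} {p : ι → E} {G : SimpleGraph ι} (h : Rz p G)
    (hp : affineSpan ℝ (range p) = ⊤) :
    ∃ P : ι ⊕ Fin 1 → E × ℝ, Rz P (joinK G 1) ∧ affineSpan ℝ (range P) = ⊤ := by
  let P : ι ⊕ Fin 1 → E × ℝ := Sum.elim (fun i => (p i, 0)) fun _ => (0, 1)
  have hP1 : ∀ i, P (Sum.inl i) = (p i, 0) := fun _ => rfl
  have hP2 : ∀ i, P (Sum.inr i) = (0, 1) := fun _ => rfl
  refine ⟨P, ⟨?_, ?_⟩, span_top hp (fun i => ⟨Sum.inl i, rfl⟩) one_ne_zero ⟨Sum.inr 0, rfl⟩⟩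
  · rintro (i | i)
    · obtain ⟨l, hl⟩ := h.1 i
      refine ⟨fn l (l (p i) - 1), ?_⟩
      rintro (j | j) hj
      · rw [hP1, hP1, fn_apply, fn_apply]
        have := hl j fun e => hj (by rw [e])
        linarith
      · rw [hP1, hP2, fn_apply, fn_apply, map_zero]
        linarith
    · refine ⟨fn 0 1, ?_⟩
      rintro (j | j) hj
      · rw [hP1, hP2, fn_apply, fn_apply]
        simp
      · exact absurd (by rw [Subsingleton.elim i j]) hj
  · rintro (i | i) (j | j) hij
    · rw [joinK_inl_inl, h.2 i j fun e => hij (by rw [e])]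
      constructor
      · rintro ⟨l, h1, h2⟩
        refine ⟨fn l (l (p i) - 1), by rw [hP1, hP1, fn_apply, fn_apply, h1], ?_⟩
        rintro (k | k) hk hk'
        · rw [hP1, hP1, fn_apply, fn_apply]
          have := h2 k (fun e => hk (by rw [e])) fun e => hk' (by rw [e])
          linarith
        · rw [hP1, hP2, fn_apply, fn_apply, map_zero]
          linarith
      · rintro ⟨L, h1, h2⟩
        obtain ⟨l, hl⟩ := fn_restrict L
        refine ⟨l, by rw [← hl, ← hl]; exact h1, fun k hk hk' => ?_⟩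
        rw [← hl, ← hl]
        exact h2 (Sum.inl k) (fun e => hk (Sum.inl_injective e)) fun e => hk' (Sum.inl_injective e)
    · refine iff_of_true (joinK_inl_inr _ _ _ _) ?_
      obtain ⟨l, hl⟩ := h.1 i
      refine ⟨fn l (l (p i)), by rw [hP1, hP2, fn_apply, fn_apply]; simp, ?_⟩
      rintro (k | k) hk hk'
      · rw [hP1, hP1, fn_apply, fn_apply]
        have := hl k fun e => hk (by rw [e])
        linarith
      · exact absurd (by rw [Subsingleton.elim k j]) hk'
    · refine iff_of_true (joinK_inr_inl _ _ _ _) ?_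
      obtain ⟨l, hl⟩ := h.1 j
      refine ⟨fn l (l (p j)), by rw [hP1, hP2, fn_apply, fn_apply]; simp, ?_⟩
      rintro (k | k) hk hk'
      · rw [hP1, hP2, fn_apply, fn_apply, map_zero]
        have := hl k fun e => hk' (by rw [e])
        linarith
      · exact absurd (by rw [Subsingleton.elim k i]) hk
    · exact absurd (by rw [Subsingleton.elim i j]) hij

/-- A point outside the polytope, beyond no vertex and no edge. -/
lemma Rz.exists_point [FiniteDimensional ℝ E] {ι : Type*} [Finite ι] {p : ι → E}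
    {G : SimpleGraph ι} (h : Rz p G) (hp : affineSpan ℝ (range p) = ⊤)
    (hE : 3 ≤ Module.finrank ℝ E) :
    ∃ q : E, (∃ l : E →ₗ[ℝ] ℝ, ∀ i, l (p i) < l q) ∧
      (∀ i, ∃ l : E →ₗ[ℝ] ℝ, (∀ j, j ≠ i → l (p j) < l (p i)) ∧ l q < l (p i)) ∧
      ∀ i j, i ≠ j → G.Adj i j → ∃ l : E →ₗ[ℝ] ℝ, l (p i) = l (p j) ∧
        (∀ k, k ≠ i → k ≠ j → l (p k) < l (p i)) ∧ l q < l (p i) := by
  classical
  set C := convexHull ℝ (range p) with hC
  have hfin : (range p).Finite := finite_range p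
  have hCc : IsCompact C := hfin.isCompact_convexHull ℝ
  obtain ⟨o, ho⟩ : (interior C).Nonempty :=
    interior_convexHull_nonempty_iff_affineSpan_eq_top.2 hp
  have hne : Nonempty ι := by
    by_contra hcon
    rw [not_nonempty_iff] at hcon
    rw [hC, range_eq_empty, convexHull_empty, interior_empty] at ho
    exact ho
  -- a direction outside of the planes spanned by `o` and the edges
  obtain ⟨u, hu⟩ : ∃ u : E, ∀ i j, u ∉ Submodule.span ℝ {p i - o, p j - o} := by
    by_contra hcon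
    push Not at hcon
    obtain ⟨⟨i, j⟩, hij⟩ := Subspace.exists_eq_top_of_iUnion_eq_univ
      (p := fun q : ι × ι => Submodule.span ℝ {p q.1 - o, p q.2 - o}) (by
        rw [eq_univ_iff_forall]
        intro u
        obtain ⟨i, j, hij⟩ := hcon u
        exact mem_iUnion.2 ⟨(i, j), hij⟩)
    have h1 : Module.finrank ℝ (Submodule.span ℝ ({p i - o, p j - o} : Set E)) ≤ 2 := by
      have h2 := finrank_span_finset_le_card (R := ℝ) ({p i - o, p j - o} : Finset E)
      rw [Finset.coe_pair] at h2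
      exact h2.trans Finset.card_le_two
    have h3 : Module.finrank ℝ (Submodule.span ℝ ({p i - o, p j - o} : Set E)) =
        Module.finrank ℝ E := by
      rw [show Submodule.span ℝ ({p i - o, p j - o} : Set E) = ⊤ from hij, finrank_top]
    omega
  have hu0 : u ≠ 0 := by
    rintro rfl
    obtain ⟨i⟩ := hne
    exact hu i i (Submodule.zero_mem _)
  -- the last point of the ray in the polytope
  have hcont : Continuous fun t : ℝ => o + t • u := by fun_prop
  let T : Set ℝ := {t | o + t • u ∈ C}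
  have hTclosed : IsClosed T := hCc.isClosed.preimage hcont
  have hTbdd : Bornology.IsBounded T := by
    obtain ⟨R, hR⟩ := hCc.isBounded.exists_norm_le
    rw [isBounded_iff_forall_norm_le]
    refine ⟨(R + ‖o‖) / ‖u‖, fun t ht => ?_⟩
    have h1 := hR _ ht
    have h2 : ‖t • u‖ ≤ R + ‖o‖ := by
      have : t • u = (o + t • u) - o := by abel
      rw [this]
      exact (norm_sub_le _ _).trans (by linarith)
    rw [norm_smul] at h2
    rw [le_div_iff₀ (norm_pos_iff.2 hu0)]
    exact h2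
  have hTcomp : IsCompact T := Metric.isCompact_of_isClosed_isBounded hTclosed hTbdd
  have h0T : (0 : ℝ) ∈ T := by
    show o + (0 : ℝ) • u ∈ C
    rw [zero_smul, add_zero]
    exact interior_subset ho
  set s := sSup T with hs
  have hsT : s ∈ T := hTcomp.sSup_mem ⟨0, h0T⟩
  have hsmax : ∀ t ∈ T, t ≤ s := fun t ht => le_csSup hTcomp.bddAbove ht
  have hspos : 0 < s := by
    have h1 : ∀ᶠ t : ℝ in 𝓝[>] 0, o + t • u ∈ C := by
      have h2 : Filter.Tendsto (fun t : ℝ => o + t • u) (𝓝[>] 0) (𝓝 o) := by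
        have h3 := hcont.tendsto 0
        rw [zero_smul, add_zero] at h3
        exact h3.mono_left nhdsWithin_le_nhds
      exact h2 (mem_interior_iff_mem_nhds.1 ho)
    obtain ⟨t, ht, ht'⟩ := (h1.and self_mem_nhdsWithin).exists
    exact lt_of_lt_of_le ht' (hsmax t ht)
  set c := o + s • u with hc
  have hcC : c ∈ C := hsT
  have hcseg : ∀ i j, c ∉ segment ℝ (p i) (p j) := by
    rintro i j ⟨a, b, ha, hb, hab, habc⟩
    refine hu i j ?_
    have h1 : s • u = a • (p i - o) + b • (p j - o) := by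
      have h2 : s • u = c - o := by rw [hc]; abel
      rw [h2, ← habc, smul_sub, smul_sub]
      have h3 : o = a • o + b • o := by rw [← add_smul, hab, one_smul]
      nth_rewrite 1 [h3]
      abel
    have h2 : s • u ∈ Submodule.span ℝ {p i - o, p j - o} := by
      rw [h1]
      exact Submodule.add_mem _ (Submodule.smul_mem _ _ (Submodule.subset_span (by simp)))
        (Submodule.smul_mem _ _ (Submodule.subset_span (by simp)))
    rw [Submodule.smul_mem_iff _ hspos.ne'] at h2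
    exact h2
  -- the functionals
  have hK : ∀ i, ∃ l : E →ₗ[ℝ] ℝ, (∀ j, j ≠ i → l (p j) < l (p i)) ∧ l c < l (p i) := by
    intro i
    obtain ⟨-, l, hl⟩ := isFace_singleton_iff.1 (h.subset_verts ⟨i, rfl⟩)
    refine ⟨l, fun j hj => hl _ (subset_convexHull ℝ _ ⟨j, rfl⟩) fun e => hj (h.injective e),
      hl c hcC fun e => hcseg i i ?_⟩
    rw [e]
    exact left_mem_segment ℝ _ _
  have hL : ∀ q : ι × ι, ∃ l : E →ₗ[ℝ] ℝ, q.1 ≠ q.2 → G.Adj q.1 q.2 → l (p q.1) = l (p q.2) ∧
      (∀ k, k ≠ q.1 → k ≠ q.2 → l (p k) < l (p q.1)) ∧ l c < l (p q.1) := by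
    rintro ⟨i, j⟩
    by_cases hij : i ≠ j ∧ G.Adj i j
    · obtain ⟨l, h1, h2⟩ := (h.2 i j hij.1).1 hij.2
      refine ⟨l, fun _ _ => ⟨h1, h2, ?_⟩⟩
      have h3 : ∀ v ∈ range p, l v ≤ l (p i) := by
        rintro _ ⟨k, rfl⟩
        by_cases hk : k = i
        · rw [hk]
        · by_cases hk' : k = j
          · rw [hk', h1]
          · exact (h2 k hk hk').le
      obtain ⟨h4, h5⟩ := mem_conv_max h3 hcC
      refine lt_of_le_of_ne h4 fun e => hcseg i j ?_
      have h6 := h5 e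
      have h7 : {v ∈ range p | l v = l (p i)} ⊆ {p i, p j} := by
        rintro _ ⟨⟨k, rfl⟩, hk⟩
        by_contra hcon
        simp only [mem_insert_iff, mem_singleton_iff, not_or] at hcon
        exact absurd hk (h2 k (fun e => hcon.1 (by rw [e])) fun e => hcon.2 (by rw [e])).ne
      have h8 := convexHull_mono h7 h6
      rwa [convexHull_pair] at h8
    · exact ⟨0, fun h1 h2 => absurd ⟨h1, h2⟩ hij⟩
  choose K hK1 hK2 using hK
  choose L hL using hL
  have hev : ∀ (l : E →ₗ[ℝ] ℝ) (M : ℝ), l c < M → ∀ᶠ ε : ℝ in 𝓝[>] 0, l (c + ε • u) < M := by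
    intro l M hM
    have h1 : Filter.Tendsto (fun ε : ℝ => l c + ε * l u) (𝓝[>] 0) (𝓝 (l c)) := by
      have h2 : Continuous fun ε : ℝ => l c + ε * l u := by fun_prop
      have h3 := h2.tendsto 0
      rw [zero_mul, add_zero] at h3
      exact h3.mono_left nhdsWithin_le_nhds
    filter_upwards [h1.eventually (gt_mem_nhds hM)] with ε hε
    simpa using hε
  have hevK : ∀ᶠ ε : ℝ in 𝓝[>] 0, ∀ i, K i (c + ε • u) < K i (p i) :=
    Filter.eventually_all.2 fun i => hev _ _ (hK2 i)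
  have hevL : ∀ᶠ ε : ℝ in 𝓝[>] 0, ∀ q : ι × ι, q.1 ≠ q.2 → G.Adj q.1 q.2 →
      L q (c + ε • u) < L q (p q.1) := by
    refine Filter.eventually_all.2 fun q => ?_
    by_cases hq : q.1 ≠ q.2 ∧ G.Adj q.1 q.2
    · filter_upwards [hev _ _ (hL q hq.1 hq.2).2.2] with ε hε
      exact fun _ _ => hε
    · exact Filter.Eventually.of_forall fun ε h1 h2 => absurd ⟨h1, h2⟩ hq
  obtain ⟨ε, ⟨hε1, hε2⟩, hε⟩ := ((hevK.and hevL).and self_mem_nhdsWithin).exists
  refine ⟨c + ε • u, ?_, fun i => ⟨K i, hK1 i, hε1 i⟩, fun i j hij hG =>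
    ⟨L (i, j), (hL (i, j) hij hG).1, (hL (i, j) hij hG).2.1, hε2 (i, j) hij hG⟩⟩
  have hq : c + ε • u ∉ C := by
    intro hmem
    have h1 : s + ε ∈ T := by
      show o + (s + ε) • u ∈ C
      rw [add_smul, ← add_assoc]
      exact hmem
    have h2 := hsmax _ h1
    have h3 : (0 : ℝ) < ε := hε
    linarith
  obtain ⟨f, w, hf1, hf2⟩ := geometric_hahn_banach_closed_point (convex_convexHull ℝ _)
    hCc.isClosed hq
  exact ⟨f.toLinearMap, fun i => (hf1 _ (subset_convexHull ℝ _ ⟨i, rfl⟩)).trans hf2⟩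

lemma fin_two_absurd : ∀ i j k : Fin 2, i ≠ j → k ≠ i → k ≠ j → False := by decide

/-- Two apexes in one more dimension. -/
lemma Rz.two_apexes [FiniteDimensional ℝ E] {ι : Type*} [Finite ι] {p : ι → E}
    {G : SimpleGraph ι} (h : Rz p G) (hp : affineSpan ℝ (range p) = ⊤)
    (hE : 3 ≤ Module.finrank ℝ E) :
    ∃ P : ι ⊕ Fin 2 → E × ℝ, Rz P (joinK G 2) ∧ affineSpan ℝ (range P) = ⊤ := by
  obtain ⟨q, ⟨f, hf⟩, hK, hL⟩ := h.exists_point hp hE
  let sg : Fin 2 → ℝ := ![1, -1]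
  let P : ι ⊕ Fin 2 → E × ℝ := Sum.elim (fun i => (p i, 0)) fun i => (q, sg i)
  have hP1 : ∀ i, P (Sum.inl i) = (p i, 0) := fun _ => rfl
  have hP2 : ∀ i, P (Sum.inr i) = (q, sg i) := fun _ => rfl
  have hsg : ∀ i, sg i = 1 ∨ sg i = -1 := by
    intro i
    fin_cases i
    · exact Or.inl rfl
    · exact Or.inr rfl
  have hsg2 : ∀ i, sg i * sg i = 1 := by
    intro i
    rcases hsg i with h | h <;> rw [h] <;> norm_num
  have hsgne : ∀ i j, i ≠ j → sg i * sg j = -1 := by
    intro i j hij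
    fin_cases i <;> fin_cases j
    · exact absurd rfl hij
    · show (1 : ℝ) * -1 = -1
      norm_num
    · show (-1 : ℝ) * 1 = -1
      norm_num
    · exact absurd rfl hij
  refine ⟨P, ⟨?_, ?_⟩, span_top hp (fun i => ⟨Sum.inl i, rfl⟩) one_ne_zero ⟨Sum.inr 0, rfl⟩⟩
  · rintro (i | i)
    · obtain ⟨l, hl, hlq⟩ := hK i
      refine ⟨fn l 0, ?_⟩
      rintro (j | j) hj
      · rw [hP1, hP1, fn_apply, fn_apply]
        have := hl j fun e => hj (by rw [e])
        linarith
      · rw [hP1, hP2, fn_apply, fn_apply]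
        linarith
    · refine ⟨fn 0 (sg i), ?_⟩
      rintro (j | j) hj
      · rw [hP1, hP2, fn_apply, fn_apply, hsg2]
        simp
      · rw [hP2, hP2, fn_apply, fn_apply, hsg2, hsgne i j fun e => hj (by rw [e])]
        simp only [LinearMap.zero_apply]
        norm_num
  · have key : ∀ i j, ∃ l : E × ℝ →ₗ[ℝ] ℝ, l (P (Sum.inl i)) = l (P (Sum.inr j)) ∧
        ∀ k, k ≠ Sum.inl i → k ≠ Sum.inr j → l (P k) < l (P (Sum.inl i)) := by
      intro i j
      obtain ⟨l, hl, hlq⟩ := hK i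
      refine ⟨fn l ((l (p i) - l q) * sg j), ?_, ?_⟩
      · rw [hP1, hP2, fn_apply, fn_apply, mul_assoc _ (sg j) (sg j), hsg2]
        ring
      · rintro (k | k) hk hk'
        · rw [hP1, hP1, fn_apply, fn_apply]
          have := hl k fun e => hk (by rw [e])
          linarith
        · rw [hP1, hP2, fn_apply, fn_apply, mul_assoc _ (sg j) (sg k),
            hsgne j k fun e => hk' (by rw [e])]
          linarith
    rintro (i | i) (j | j) hij
    · rw [joinK_inl_inl]
      constructor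
      · intro hG
        obtain ⟨l, h1, h2, h3⟩ := hL i j (fun e => hij (by rw [e])) hG
        refine ⟨fn l 0, by rw [hP1, hP1, fn_apply, fn_apply, h1], ?_⟩
        rintro (k | k) hk hk'
        · rw [hP1, hP1, fn_apply, fn_apply]
          have := h2 k (fun e => hk (by rw [e])) fun e => hk' (by rw [e])
          linarith
        · rw [hP1, hP2, fn_apply, fn_apply]
          linarith
      · rintro ⟨L, h1, h2⟩
        rw [h.2 i j fun e => hij (by rw [e])]
        obtain ⟨l, hl⟩ := fn_restrict L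
        refine ⟨l, by rw [← hl, ← hl]; exact h1, fun k hk hk' => ?_⟩
        rw [← hl, ← hl]
        exact h2 (Sum.inl k) (fun e => hk (Sum.inl_injective e)) fun e => hk' (Sum.inl_injective e)
    · exact iff_of_true (joinK_inl_inr _ _ _ _) (key i j)
    · refine iff_of_true (joinK_inr_inl _ _ _ _) ?_
      obtain ⟨l, h1, h2⟩ := key j i
      exact ⟨l, h1.symm, fun k hk hk' => by rw [← h1]; exact h2 k hk' hk⟩
    · have hij' : i ≠ j := fun e => hij (by rw [e])
      refine iff_of_true ((joinK_inr_inr _ _ _ _).2 hij') ⟨fn f 0, ?_, ?_⟩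
      · rw [hP2, hP2, fn_apply, fn_apply, zero_mul, zero_mul]
      · rintro (k | k) hk hk'
        · rw [hP1, hP2, fn_apply, fn_apply]
          have := hf k
          linarith
        · exfalso
          have h1 : k ≠ i := fun e => hk (by rw [e])
          have h2 : k ≠ j := fun e => hk' (by rw [e])
          exact fin_two_absurd i j k hij' h1 h2

end

end Pool.Agent.R656.PG
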