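import Pool.Agent.R656.PolyJoin

/-!
# Realizability of graphs by polytopes

Helper file for `MP_1e46c9_co`.
-/

set_option autoImplicit false

namespace Pool.Agent.R656.PG

open Set Topology

/-- `P` is a `d`-polytope: the convex hull of a finite set which affinely spans `ℝ^d`. -/
def IsPolytope (d : ℕ) (P : Set (EuclideanSpace ℝ (Fin d))) : Prop :=
  ∃ V : Set (EuclideanSpace ℝ (Fin d)), V.Finite ∧ affineSpan ℝ V = ⊤ ∧ P = convexHull ℝ V

/-- `G` is `d`-realizable: it is isomorphic to the graph of a `d`-polytope. -/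
def Realizable {α : Type*} (G : SimpleGraph α) (d : ℕ) : Prop :=
  ∃ P : Set (EuclideanSpace ℝ (Fin d)), IsPolytope d P ∧ Nonempty (G ≃g polyGraph P)

/-- `G` is isomorphic to the graphs of two polytopes of different dimensions. -/
def DimAmbiguous {α : Type*} (G : SimpleGraph α) : Prop :=
  ∃ d d' : ℕ, d ≠ d' ∧ Realizable G d ∧ Realizable G d'

/-- The face lattice of `P`, ordered by inclusion. -/
abbrev Faces {E : Type*} [AddCommGroup E] [Module ℝ E] (P : Set E) : Type _ :=
  {F : Set E // IsFace P F}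

/-- `G` is isomorphic to the graphs of two `d`-polytopes with non-isomorphic face lattices. -/
def StronglyAmbiguous {α : Type*} (G : SimpleGraph α) (d : ℕ) : Prop :=
  ∃ P Q : Set (EuclideanSpace ℝ (Fin d)), IsPolytope d P ∧ IsPolytope d Q ∧
    Nonempty (G ≃g polyGraph P) ∧ Nonempty (G ≃g polyGraph Q) ∧ IsEmpty (Faces P ≃o Faces Q)

/-- The automorphism `σ` of the graph of `P` extends to an automorphism of the face lattice. -/
def Extends {E : Type*} [AddCommGroup E] [Module ℝ E] {P : Set E}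
    (σ : polyGraph P ≃g polyGraph P) : Prop :=
  ∃ Φ : Faces P ≃o Faces P, ∀ x : Verts P, Φ ⟨{(x : E)}, x.2⟩ = ⟨{(σ x : E)}, (σ x).2⟩

/-- There are a `d`-polytope `P` and isomorphisms `φ`, `ψ` from `G` to the graph of `P` such that
`φ ψ⁻¹` does not extend to an automorphism of the face lattice of `P`. -/
def WeaklyAmbiguous {α : Type*} (G : SimpleGraph α) (d : ℕ) : Prop :=
  ∃ P : Set (EuclideanSpace ℝ (Fin d)), IsPolytope d P ∧
    ∃ φ ψ : G ≃g polyGraph P, ¬ Extends (ψ.symm.trans φ)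

/-- The two properties of the base `P`. -/
def Admissible (n : ℕ) (P : Set (EuclideanSpace ℝ (Fin n))) : Prop :=
  IsPolytope n P ∧ ¬ DimAmbiguous (polyGraph P) ∧ ¬ StronglyAmbiguous (polyGraph P) n ∧
    ¬ WeaklyAmbiguous (polyGraph P) n ∧
    ∀ H : (polyGraph P).Subgraph, H ≠ ⊤ → ¬ Realizable H.coe n

/-! ### Realizations -/

/-- Realization by points. -/
def R {α : Type*} (G : SimpleGraph α) (d : ℕ) : Prop :=
  ∃ p : α → EuclideanSpace ℝ (Fin d), Rz p G ∧ affineSpan ℝ (range p) = ⊤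

lemma R.of {α : Type*} {G : SimpleGraph α} {E : Type*} [NormedAddCommGroup E] [NormedSpace ℝ E]
    [FiniteDimensional ℝ E] {d : ℕ} (hd : Module.finrank ℝ E = d) {p : α → E} (h : Rz p G)
    (hp : affineSpan ℝ (range p) = ⊤) : R G d := by
  have e : E ≃ₗ[ℝ] EuclideanSpace ℝ (Fin d) :=
    LinearEquiv.ofFinrankEq _ _ (by rw [hd, finrank_euclideanSpace_fin])
  refine ⟨e ∘ p, h.map e, ?_⟩
  have h1 : (affineSpan ℝ (range p)).map (e.toLinearMap.toAffineMap) =
      affineSpan ℝ (range (e ∘ p)) := by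
    rw [AffineSubspace.map_span, ← range_comp]
    rfl
  rw [← h1, hp]
  rw [eq_top_iff]
  intro x _
  exact ⟨e.symm x, AffineSubspace.mem_top _ _ _, by simp⟩

lemma R.iso {α β : Type*} {G : SimpleGraph α} {G' : SimpleGraph β} {d : ℕ} (h : R G d)
    (e : G' ≃g G) : R G' d := by
  obtain ⟨p, hp, hs⟩ := h
  refine ⟨p ∘ e, hp.reindex e, ?_⟩
  rw [e.surjective.range_comp, hs]

lemma R.realizable {α : Type*} [Finite α] {G : SimpleGraph α} {d : ℕ} (h : R G d) :
    Realizable G d := by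
  obtain ⟨p, hp, hs⟩ := h
  exact ⟨_, ⟨range p, finite_range p, hs, rfl⟩, ⟨hp.iso⟩⟩

lemma IsPolytope.verts_finite {d : ℕ} {P : Set (EuclideanSpace ℝ (Fin d))} (h : IsPolytope d P) :
    (Verts P).Finite := by
  obtain ⟨V, h1, h2, rfl⟩ := h
  exact (conv_verts h1).1

lemma IsPolytope.conv {d : ℕ} {P : Set (EuclideanSpace ℝ (Fin d))} (h : IsPolytope d P) :
    convexHull ℝ (Verts P) = P := by
  obtain ⟨V, h1, h2, rfl⟩ := h
  exact (conv_verts h1).2

lemma IsPolytope.span {d : ℕ} {P : Set (EuclideanSpace ℝ (Fin d))} (h : IsPolytope d P) :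
    affineSpan ℝ (Verts P) = ⊤ := by
  rw [← affineSpan_convexHull, h.conv]
  obtain ⟨V, h1, h2, rfl⟩ := h
  rw [affineSpan_convexHull, h2]

lemma IsPolytope.rz {d : ℕ} {P : Set (EuclideanSpace ℝ (Fin d))} (h : IsPolytope d P) :
    Rz (Subtype.val : Verts P → _) (polyGraph P) := by
  obtain ⟨V, h1, h2, rfl⟩ := h
  exact rz_polyGraph h1

lemma Realizable.r {α : Type*} {G : SimpleGraph α} {d : ℕ} (h : Realizable G d) : R G d := by
  obtain ⟨P, hP, ⟨e⟩⟩ := h
  refine R.iso ⟨Subtype.val, hP.rz, ?_⟩ e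
  rw [Subtype.range_coe, hP.span]

lemma R.pyramid {α : Type*} {G : SimpleGraph α} {d : ℕ} (h : R G d) :
    R (joinK G 1) (d + 1) := by
  obtain ⟨p, hp, hs⟩ := h
  obtain ⟨P, h1, h2⟩ := hp.pyramid hs
  exact R.of (by simp) h1 h2

lemma R.two {α : Type*} [Finite α] {G : SimpleGraph α} {d : ℕ} (hd : 3 ≤ d) (h : R G d) :
    R (joinK G 2) (d + 1) := by
  obtain ⟨p, hp, hs⟩ := h
  obtain ⟨P, h1, h2⟩ := hp.two_apexes hs (by simpa using hd)
  exact R.of (by simp) h1 h2

/-- Adding no apex. -/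
def joinZero {α : Type*} (G : SimpleGraph α) : joinK G 0 ≃g G where
  toEquiv := Equiv.sumEmpty α (Fin 0)
  map_rel_iff' := by
    rintro (x | i) (y | j)
    · rw [joinK_inl_inl]
      rfl
    · exact j.elim0
    · exact i.elim0
    · exact i.elim0

lemma R.join {α : Type*} {G : SimpleGraph α} {n : ℕ} (h : R G n) (k : ℕ) :
    R (joinK G k) (n + k) := by
  induction k with
  | zero => exact h.iso (joinZero G)
  | succ k ih => exact ih.pyramid.iso (joinSucc G k)

lemma R.join' {α : Type*} [Finite α] {G : SimpleGraph α} {n : ℕ} (hn : 3 ≤ n) (h : R G n) (k : ℕ) :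
    R (joinK G (k + 2)) (n + 1 + k) := by
  induction k with
  | zero => exact h.two hn
  | succ k ih => exact ih.pyramid.iso (joinSucc G (k + 2))

/-- For every `n`-polytope `P`, `n ≥ 3`, and every `d ≥ n + 2`, the graph of the `(d - n)`-fold
pyramid over `P` is both `d`-realizable and `(d - 1)`-realizable. -/
theorem main {n : ℕ} (hn : 3 ≤ n) {P : Set (EuclideanSpace ℝ (Fin n))} (hP : IsPolytope n P)
    {d : ℕ} (hd : n + 2 ≤ d) :
    Realizable (joinK (polyGraph P) (d - n)) d ∧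
      Realizable (joinK (polyGraph P) (d - n)) (d - 1) := by
  have : Finite (Verts P) := hP.verts_finite
  have h0 : R (polyGraph P) n := Realizable.r ⟨P, hP, ⟨RelIso.refl _⟩⟩
  obtain ⟨k, rfl⟩ := Nat.exists_eq_add_of_le hd
  have e1 : n + 2 + k - n = k + 2 := by omega
  have e2 : n + 2 + k - 1 = n + 1 + k := by omega
  rw [e1, e2]
  refine ⟨R.realizable ?_, R.realizable (h0.join' hn k)⟩
  have := h0.join (k + 2)
  rwa [show n + (k + 2) = n + 2 + k by omega] at this

/-! ### The tetrahedron -/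

section tetra

variable {E : Type*} [NormedAddCommGroup E] [NormedSpace ℝ E]

lemma radon_aux {ι : Type*} {p : ι → E} {l : E →ₗ[ℝ] ℝ} {M : ℝ} {S : Set ι}
    (h1 : ∀ i ∈ S, l (p i) = M) (h2 : ∀ i ∉ S, l (p i) < M) :
    ¬ (convexHull ℝ (p '' S) ∩ convexHull ℝ (p '' Sᶜ)).Nonempty := by
  rintro ⟨z, hz1, hz2⟩
  have h3 : convexHull ℝ (p '' S) ⊆ {z | M ≤ l z} := by
    refine convexHull_min ?_ (convex_halfSpace_ge l.isLinear M)
    rintro _ ⟨i, hi, rfl⟩
    exact (h1 i hi).ge
  have h4 : convexHull ℝ (p '' Sᶜ) ⊆ {z | l z < M} := by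
    refine convexHull_min ?_ (convex_halfSpace_lt l.isLinear M)
    rintro _ ⟨i, hi, rfl⟩
    exact h2 i hi
  have h5 : l z < M := h4 hz2
  have h6 : M ≤ l z := h3 hz1
  linarith

lemma radon_small {ι : Type*} [Finite ι] {p : ι → E} (h : Rz p (⊤ : SimpleGraph ι)) {S : Set ι}
    (hS : S.ncard ≤ 2) : ¬ (convexHull ℝ (p '' S) ∩ convexHull ℝ (p '' Sᶜ)).Nonempty := by
  have h0 : S.ncard = 0 ∨ S.ncard = 1 ∨ S.ncard = 2 := by omega
  rcases h0 with h0 | h0 | h0
  · rw [ncard_eq_zero (toFinite S)] at h0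
    subst h0
    simp
  · obtain ⟨i, rfl⟩ := ncard_eq_one.1 h0
    obtain ⟨l, hl⟩ := h.1 i
    refine radon_aux (l := l) (M := l (p i)) ?_ ?_
    · rintro j rfl
      rfl
    · intro j hj
      exact hl j hj
  · obtain ⟨i, j, hij, rfl⟩ := ncard_eq_two.1 h0
    obtain ⟨l, hl1, hl2⟩ := (h.2 i j hij).1 hij
    refine radon_aux (l := l) (M := l (p i)) ?_ ?_
    · rintro k (rfl | rfl)
      · rfl
      · exact hl1.symm
    · intro k hk
      exact hl2 k (fun e => hk (Or.inl e)) fun e => hk (Or.inr e)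

lemma affineIndependent_of_complete {ι : Type*} [Fintype ι] {p : ι → E}
    (h : Rz p (⊤ : SimpleGraph ι)) (hι : Fintype.card ι ≤ 5) : AffineIndependent ℝ p := by
  classical
  by_contra hcon
  obtain ⟨I, hI⟩ := Convex.radon_partition hcon
  have h1 : I.ncard + Iᶜ.ncard = Fintype.card ι := by
    rw [ncard_add_ncard_compl, Nat.card_eq_fintype_card]
  have h2 : I.ncard ≤ 2 ∨ Iᶜ.ncard ≤ 2 := by omega
  rcases h2 with h2 | h2
  · exact radon_small h h2 hI
  · refine radon_small h h2 ?_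
    rwa [compl_compl, inter_comm]

lemma isFace_image {P F : Set E} (e : E ≃ᵃ[ℝ] E) (hF : IsFace P F) : IsFace (e '' P) (e '' F) := by
  rcases hF with rfl | ⟨l, rfl⟩
  · left
    rw [image_empty]
  · right
    let l' : E →ₗ[ℝ] ℝ := l ∘ₗ e.linear.symm.toLinearMap
    have key : ∀ z w, l' (e w) ≤ l' (e z) ↔ l w ≤ l z := by
      intro z w
      have h1 : l' (e w - e z) = l (w - z) := by
        have h2 : e w - e z = e.linear (w - z) := (e.toAffineMap.linearMap_vsub w z).symm
        rw [h2]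
        show l (e.linear.symm (e.linear (w - z))) = l (w - z)
        rw [LinearEquiv.symm_apply_apply]
      rw [map_sub, map_sub] at h1
      constructor <;> intro h <;> linarith
    refine ⟨l', ?_⟩
    ext y
    constructor
    · rintro ⟨z, ⟨hz, hz'⟩, rfl⟩
      refine ⟨⟨z, hz, rfl⟩, ?_⟩
      rintro _ ⟨w, hw, rfl⟩
      exact (key z w).2 (hz' w hw)
    · rintro ⟨⟨z, hz, rfl⟩, hz'⟩
      exact ⟨z, ⟨hz, fun w hw => (key z w).1 (hz' _ ⟨w, hw, rfl⟩)⟩, rfl⟩

/-- Affine isomorphisms map faces to faces. -/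
noncomputable def facesIso {P Q : Set E} (e : E ≃ᵃ[ℝ] E) (h : e '' P = Q) : Faces P ≃o Faces Q where
  toFun F := ⟨e '' F.1, by rw [← h]; exact isFace_image e F.2⟩
  invFun F := ⟨e.symm '' F.1, by
    have h1 : e.symm '' Q = P := by
      rw [← h, ← image_comp]
      simp
    rw [← h1]
    exact isFace_image e.symm F.2⟩
  left_inv F := by
    apply Subtype.ext
    show e.symm '' (e '' F.1) = F.1
    rw [← image_comp]
    simp
  right_inv F := by
    apply Subtype.ext
    show e '' (e.symm '' F.1) = F.1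
    rw [← image_comp]
    simp
  map_rel_iff' := by
    intro F F'
    show e '' F.1 ⊆ e '' F'.1 ↔ F.1 ⊆ F'.1
    exact image_subset_image_iff e.injective

lemma facesIso_apply {P Q : Set E} (e : E ≃ᵃ[ℝ] E) (h : e '' P = Q) (F : Faces P) :
    (facesIso e h F).1 = e '' F.1 := rfl

/-- The affine map between two affine bases. -/
lemma exists_affineEquiv {ι : Type*} [Nonempty ι] {p q : ι → E} (hp : AffineIndependent ℝ p)
    (hp' : affineSpan ℝ (range p) = ⊤) (hq : AffineIndependent ℝ q)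
    (hq' : affineSpan ℝ (range q) = ⊤) : ∃ e : E ≃ᵃ[ℝ] E, ∀ i, e (p i) = q i := by
  let b : AffineBasis ι ℝ E := ⟨p, hp, hp'⟩
  let c : AffineBasis ι ℝ E := ⟨q, hq, hq'⟩
  obtain ⟨i0⟩ := (inferInstance : Nonempty ι)
  let L : E ≃ₗ[ℝ] E := (b.basisOf i0).equiv (c.basisOf i0) (Equiv.refl _)
  have hL : ∀ j, L (p j - p i0) = q j - q i0 := by
    intro j
    by_cases h : j = i0
    · rw [h]
      simp
    · have h1 : b.basisOf i0 ⟨j, h⟩ = p j - p i0 := b.basisOf_apply i0 ⟨j, h⟩
      have h2 : c.basisOf i0 ⟨j, h⟩ = q j - q i0 := c.basisOf_apply i0 ⟨j, h⟩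
      rw [← h1, ← h2]
      exact Module.Basis.equiv_apply _ _ _ _
  refine ⟨(AffineEquiv.vaddConst ℝ (p i0)).symm.trans
    (L.toAffineEquiv.trans (AffineEquiv.vaddConst ℝ (q i0))), fun j => ?_⟩
  show L (p j - p i0) + q i0 = q j
  rw [hL]
  abel

lemma exists_facesIso {ι : Type*} [Nonempty ι] {p q : ι → E} (hp : AffineIndependent ℝ p)
    (hp' : affineSpan ℝ (range p) = ⊤) (hq : AffineIndependent ℝ q)
    (hq' : affineSpan ℝ (range q) = ⊤) {P Q : Set E} (hP : convexHull ℝ (range p) = P)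
    (hQ : convexHull ℝ (range q) = Q) :
    ∃ Φ : Faces P ≃o Faces Q, ∀ i, ∀ h : IsFace P {p i}, (Φ ⟨{p i}, h⟩).1 = {q i} := by
  obtain ⟨e, he⟩ := exists_affineEquiv hp hp' hq hq'
  have h1 : e '' P = Q := by
    rw [← hP, ← hQ]
    have h2 := e.toAffineMap.image_convexHull (range p)
    have h3 : e.toAffineMap '' range p = range q := by
      rw [← range_comp]
      congr 1
      ext1 i
      exact he i
    rw [h3] at h2
    exact h2
  refine ⟨facesIso e h1, fun i h => ?_⟩
  rw [facesIso_apply, image_singleton, he]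

/-- Any two vertices of a simplex are adjacent. -/
lemma exists_edge {ι : Type*} {p : ι → E} (hp : AffineIndependent ℝ p)
    (hp' : affineSpan ℝ (range p) = ⊤) {i j : ι} (hij : i ≠ j) :
    ∃ l : E →ₗ[ℝ] ℝ, l (p i) = l (p j) ∧ ∀ k, k ≠ i → k ≠ j → l (p k) < l (p i) := by
  let b : AffineBasis ι ℝ E := ⟨p, hp, hp'⟩
  let f : E →ᵃ[ℝ] ℝ := b.coord i + b.coord j
  have hf : ∀ x y, f.linear x - f.linear y = f x - f y := by
    intro x y
    have := f.linearMap_vsub x y
    rw [vsub_eq_sub, map_sub] at this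
    exact this
  have hfi : f (p i) = 1 := by
    show b.coord i (b i) + b.coord j (b i) = 1
    rw [b.coord_apply_eq, b.coord_apply_ne hij.symm]
    norm_num
  have hfj : f (p j) = 1 := by
    show b.coord i (b j) + b.coord j (b j) = 1
    rw [b.coord_apply_eq, b.coord_apply_ne hij]
    norm_num
  refine ⟨f.linear, ?_, fun k hk hk' => ?_⟩
  · have := hf (p i) (p j)
    linarith
  · have hfk : f (p k) = 0 := by
      show b.coord i (b k) + b.coord j (b k) = 0
      rw [b.coord_apply_ne hk.symm, b.coord_apply_ne hk'.symm]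
      norm_num
    have := hf (p k) (p i)
    linarith

/-- The vertices of a simplex are exposed. -/
lemma exists_vertex {ι : Type*} {p : ι → E} (hp : AffineIndependent ℝ p)
    (hp' : affineSpan ℝ (range p) = ⊤) (i : ι) :
    ∃ l : E →ₗ[ℝ] ℝ, ∀ k, k ≠ i → l (p k) < l (p i) := by
  let b : AffineBasis ι ℝ E := ⟨p, hp, hp'⟩
  let f : E →ᵃ[ℝ] ℝ := b.coord i
  have hf : ∀ x y, f.linear x - f.linear y = f x - f y := by
    intro x y
    have := f.linearMap_vsub x y
    rw [vsub_eq_sub, map_sub] at this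
    exact this
  have hfi : f (p i) = 1 := b.coord_apply_eq i
  refine ⟨f.linear, fun k hk => ?_⟩
  have hfk : f (p k) = 0 := b.coord_apply_ne hk.symm
  have := hf (p k) (p i)
  linarith

lemma rz_simplex {ι : Type*} {p : ι → E} (hp : AffineIndependent ℝ p)
    (hp' : affineSpan ℝ (range p) = ⊤) : Rz p (⊤ : SimpleGraph ι) :=
  ⟨exists_vertex hp hp', fun _ _ hij => iff_of_true hij (exists_edge hp hp' hij)⟩

end tetra

lemma card_of_indep {ι : Type*} [Fintype ι] {d : ℕ} {p : ι → EuclideanSpace ℝ (Fin d)}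
    (hp : AffineIndependent ℝ p) (hp' : affineSpan ℝ (range p) = ⊤) : Fintype.card ι = d + 1 := by
  have := hp.affineSpan_eq_top_iff_card_eq_finrank_add_one.1 hp'
  simpa using this

lemma card_ge {ι : Type*} [Fintype ι] {d : ℕ} {p : ι → EuclideanSpace ℝ (Fin d)}
    (hp' : affineSpan ℝ (range p) = ⊤) : d + 1 ≤ Fintype.card ι := by
  have hne : Nonempty ι := by
    by_contra hcon
    rw [not_nonempty_iff] at hcon
    rw [range_eq_empty, AffineSubspace.span_empty] at hp'
    exact bot_ne_top hp'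
  have h1 := finrank_vectorSpan_range_add_one_le ℝ p
  rw [← direction_affineSpan, hp', AffineSubspace.direction_top, finrank_top,
    finrank_euclideanSpace_fin] at h1
  exact h1

lemma indep_of_card {ι : Type*} [Fintype ι] {d : ℕ} {p : ι → EuclideanSpace ℝ (Fin d)}
    (hp' : affineSpan ℝ (range p) = ⊤) (h : Fintype.card ι = d + 1) : AffineIndependent ℝ p := by
  rw [affineIndependent_iff_finrank_vectorSpan_eq ℝ p h, ← direction_affineSpan, hp',
    AffineSubspace.direction_top, finrank_top, finrank_euclideanSpace_fin]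

end Pool.Agent.R656.PG
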