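import Pool.Agent.R656.ToepMeas

set_option autoImplicit false

namespace Pool.Agent.R656.Toep

open Finset MeasureTheory Filter Topology
open scoped symmDiff

theorem loc_of_cylinder {C : Set (ℤ → Bool)} (hC : C ∈ measurableCylinders (fun _ : ℤ => Bool)) :
    ∃ R : ℕ, Loc C R := by
  rw [mem_measurableCylinders] at hC
  obtain ⟨s, S, hS, rfl⟩ := hC
  refine ⟨s.sup Int.natAbs, fun y y' h => ?_⟩
  have : s.restrict y = s.restrict y' := by
    funext i
    apply h
    · have := Finset.le_sup (f := Int.natAbs) i.2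
      omega
    · have := Finset.le_sup (f := Int.natAbs) i.2
      omega
  rw [mem_cylinder, mem_cylinder, this]

theorem clopen_of_cylinder {C : Set (ℤ → Bool)} (hC : C ∈ measurableCylinders (fun _ : ℤ => Bool)) :
    IsClopen C := by
  rw [mem_measurableCylinders] at hC
  obtain ⟨s, S, hS, rfl⟩ := hC
  exact (isClopen_discrete S).preimage (Finset.continuous_restrict s)

theorem continuous_ic {C : Set (ℤ → Bool)} (hC : IsClopen C) : Continuous (ic C) := by
  have := hC.continuous_indicator (continuous_const (y := (1 : ℝ)))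
  convert this using 1
  funext y
  unfold ic
  by_cases h : y ∈ C <;> simp [h]

theorem integral_ic {C : Set (ℤ → Bool)} (hC : MeasurableSet C) (μ : Measure (ℤ → Bool))
    [IsProbabilityMeasure μ] : ∫ y, ic C y ∂μ = μ.real C := by
  have : ic C = C.indicator (fun _ => (1 : ℝ)) := by
    funext y
    unfold ic
    by_cases h : y ∈ C <;> simp [h]
  rw [this, integral_indicator_const _ hC]
  simp

theorem ic_mul (C D : Set (ℤ → Bool)) (y : ℤ → Bool) : ic C y * ic D y = ic (C ∩ D) y := by
  unfold ic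
  by_cases h : y ∈ C <;> by_cases h' : y ∈ D <;> simp [h, h']

theorem cyl_ret {μ : Measure (ℤ → Bool)} [IsProbabilityMeasure μ] (hinv : μ.map shift = μ)
    (hX : μ (sys x)ᶜ = 0) {C : Set (ℤ → Bool)}
    (hC : C ∈ measurableCylinders (fun _ : ℤ => Bool)) {R : ℕ} (hR : Loc C R) (K : ℕ) :
    μ.real C / 9 - 2 * R / q K ≤ μ.real (C ∩ shift^[q K] ⁻¹' C) := by
  have hcl := clopen_of_cylinder hC
  have hm : MeasurableSet C := hcl.isOpen.measurableSet
  have hcont : Continuous fun y => (1 / 9) * ic C y - ic C y * ic C (shift^[q K] y) :=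
    (continuous_const.mul (continuous_ic hcl)).sub ((continuous_ic hcl).mul
      ((continuous_ic hcl).comp (continuous_shift_iter _)))
  have h1 := integral_le (x := x) hcont (c := 2 * R / q K) (by
    refine (ret_DP hR K).mono fun n => le_of_eq ?_
    rw [shift_iter]
    congr 3
    funext m
    congr 1
    ring) hinv hX
  have hint : ∀ D : Set (ℤ → Bool), IsClopen D → Integrable (ic D) μ := by
    intro D hD
    exact (BoundedContinuousFunction.mkOfCompact ⟨ic D, continuous_ic hD⟩).integrable μ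
  have hcl2 : IsClopen (C ∩ shift^[q K] ⁻¹' C) := hcl.inter (hcl.preimage (continuous_shift_iter _))
  have e : (fun y => (1 / 9) * ic C y - ic C y * ic C (shift^[q K] y)) =
      fun y => (1 / 9) * ic C y - ic (C ∩ shift^[q K] ⁻¹' C) y := by
    funext y
    rw [← ic_mul]
    rfl
  rw [e, integral_sub ((hint C hcl).const_mul _) (hint _ hcl2), integral_const_mul,
    integral_ic hm, integral_ic hcl2.isOpen.measurableSet] at h1
  linarith

theorem exists_cyl (μ : Measure (ℤ → Bool)) [IsProbabilityMeasure μ] {B : Set (ℤ → Bool)}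
    (hB : MeasurableSet B) {ε : ℝ} (hε : 0 < ε) :
    ∃ C ∈ measurableCylinders (fun _ : ℤ => Bool), μ.real (B ∆ C) ≤ ε := by
  have hd : μ.MeasureDense (measurableCylinders (fun _ : ℤ => Bool)) :=
    Measure.MeasureDense.of_generateFrom_isSetAlgebra_finite μ
      ⟨empty_mem_measurableCylinders _, fun s hs => compl_mem_measurableCylinders hs,
        fun s t hs ht => union_mem_measurableCylinders hs ht⟩ generateFrom_measurableCylinders.symm
  obtain ⟨C, hC, h⟩ := hd.approx B hB (measure_ne_top _ _) ε hε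
  refine ⟨C, hC, ?_⟩
  unfold Measure.real
  exact ENNReal.toReal_le_of_le_ofReal hε.le h.le

theorem set_ret {μ : Measure (ℤ → Bool)} [IsProbabilityMeasure μ] (hinv : μ.map shift = μ)
    (hX : μ (sys x)ᶜ = 0) {B : Set (ℤ → Bool)} (hB : MeasurableSet B) {ε : ℝ} (hε : 0 < ε) :
    ∀ᶠ K in atTop, μ.real B / 9 - ε ≤ μ.real (B ∩ shift^[q K] ⁻¹' B) := by
  obtain ⟨C, hC, hBC⟩ := exists_cyl μ hB (ε := ε / 4) (by linarith)
  obtain ⟨R, hR⟩ := loc_of_cylinder hC
  have hCm : MeasurableSet C := (clopen_of_cylinder hC).isOpen.measurableSet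
  have hmp : MeasurePreserving shift μ μ := ⟨continuous_shift.measurable, hinv⟩
  have hlim : Tendsto (fun K : ℕ => 2 * (R : ℝ) / q K) atTop (𝓝 0) := by
    apply Tendsto.div_atTop tendsto_const_nhds
    apply tendsto_natCast_atTop_atTop.comp
    exact tendsto_atTop_mono (fun K => (q_ge K).le) tendsto_id
  have hev := hlim.eventually (gt_mem_nhds (show (0 : ℝ) < ε / 4 by linarith))
  filter_upwards [hev] with K hK
  have h1 := cyl_ret hinv hX hC hR K
  have h2 : μ.real B ≤ μ.real C + μ.real (B ∆ C) := by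
    refine (measureReal_mono ?_).trans (measureReal_union_le _ _)
    intro y hy
    by_cases h : y ∈ C
    · exact Or.inl h
    · exact Or.inr (Or.inl ⟨hy, h⟩)
  have h3 : μ.real (C ∩ shift^[q K] ⁻¹' C) ≤ μ.real (B ∩ shift^[q K] ⁻¹' B) +
      (μ.real (B ∆ C) + μ.real (shift^[q K] ⁻¹' (B ∆ C))) := by
    refine (measureReal_mono ?_).trans ((measureReal_union_le (B ∩ shift^[q K] ⁻¹' B)
      ((B ∆ C) ∪ shift^[q K] ⁻¹' (B ∆ C))).trans ?_)
    · rintro y ⟨hy1, hy2⟩
      by_cases h : y ∈ B
      · by_cases h' : shift^[q K] y ∈ B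
        · exact Or.inl ⟨h, h'⟩
        · exact Or.inr (Or.inr (Or.inr ⟨hy2, h'⟩))
      · exact Or.inr (Or.inl (Or.inr ⟨hy1, h⟩))
    · have := measureReal_union_le (μ := μ) (B ∆ C) (shift^[q K] ⁻¹' (B ∆ C))
      linarith
  have h4 : μ.real (shift^[q K] ⁻¹' (B ∆ C)) = μ.real (B ∆ C) := by
    unfold Measure.real
    rw [(hmp.iterate (q K)).measure_preimage (hB.symmDiff hCm).nullMeasurableSet]
  linarith

theorem diag_le {μ : Measure (ℤ → Bool)} [IsProbabilityMeasure μ] (hinv : μ.map shift = μ)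
    (hX : μ (sys x)ᶜ = 0) {n : ℕ} (hn : 0 < n) : μ.real {y : ℤ → Bool | y 0 = y n} ≤ 8 / 9 := by
  have hcl : IsClopen {y : ℤ → Bool | y 0 = y n} := by
    have hc : Continuous fun y : ℤ → Bool => (y 0, y n) :=
      (continuous_apply (0 : ℤ)).prodMk (continuous_apply (n : ℤ))
    exact (isClopen_discrete {p : Bool × Bool | p.1 = p.2}).preimage hc
  have h1 := integral_le (x := x) (continuous_ic hcl) (c := 8 / 9) (by
    refine (x_DP (t := n) (by exact_mod_cast hn)).mono fun m => le_of_eq ?_
    unfold ic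
    simp only [Set.mem_ofPred_eq, zero_add]
    rw [add_comm (n : ℤ) m]) hinv hX
  rwa [integral_ic hcl.isOpen.measurableSet] at h1

end Pool.Agent.R656.Toep
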