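import Pool.Agent.R656.ToepU

set_option autoImplicit false

namespace Pool.Agent.R656.Toep

open Finset MeasureTheory Filter Topology

def shift (y : ℤ → Bool) : ℤ → Bool := fun n => y (n + 1)

def sys (x : ℤ → Bool) : Set (ℤ → Bool) := closure {y | ∃ k : ℤ, ∀ n, y n = x (n + k)}

theorem shift_iter (m : ℕ) (y : ℤ → Bool) : shift^[m] y = fun n => y (n + m) := by
  induction m with
  | zero => simp
  | succ m ih =>
    rw [Function.iterate_succ_apply', ih]
    funext n
    unfold shift
    push_cast
    congr 1
    ring

theorem continuous_shift : Continuous shift :=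
  continuous_pi fun n => continuous_apply (n + 1)

theorem continuous_shift_iter (m : ℕ) : Continuous (shift^[m]) := continuous_shift.iterate m

/-- averaging principle -/
theorem integral_le {x : ℤ → Bool} {φ : (ℤ → Bool) → ℝ} (hφ : Continuous φ) {c : ℝ}
    (h : DP (fun j => φ (fun n => x (n + j))) c) {μ : Measure (ℤ → Bool)} [IsProbabilityMeasure μ]
    (hinv : μ.map shift = μ) (hX : μ (sys x)ᶜ = 0) : ∫ y, φ y ∂μ ≤ c := by
  obtain ⟨C, hC⟩ := h
  have hmp : MeasurePreserving shift μ μ := ⟨continuous_shift.measurable, hinv⟩
  have hint : ∀ ψ : (ℤ → Bool) → ℝ, Continuous ψ → Integrable ψ μ := by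
    intro ψ hψ
    exact (BoundedContinuousFunction.mkOfCompact ⟨ψ, hψ⟩).integrable μ
  have hN : ∀ N : ℕ, (N : ℝ) * ∫ y, φ y ∂μ ≤ c * N + C := by
    intro N
    have h1 : ∀ i : ℕ, ∫ y, φ (shift^[i] y) ∂μ = ∫ y, φ y ∂μ := by
      intro i
      have := (hmp.iterate i).map_eq
      conv_rhs => rw [← this]
      rw [integral_map (continuous_shift_iter i).measurable.aemeasurable
        hφ.measurable.aestronglyMeasurable]
    have h2 : ∫ y, ∑ i ∈ range N, φ (shift^[i] y) ∂μ = N * ∫ y, φ y ∂μ := by
      rw [integral_finsetSum]
      · simp [h1]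
      · intro i _
        exact hint _ (hφ.comp (continuous_shift_iter i))
    rw [← h2]
    have h3 : ∀ y ∈ sys x, ∑ i ∈ range N, φ (shift^[i] y) ≤ c * N + C := by
      have hcl : IsClosed {y : ℤ → Bool | ∑ i ∈ range N, φ (shift^[i] y) ≤ c * N + C} := by
        apply isClosed_le _ continuous_const
        exact continuous_finsetSum _ fun i _ => hφ.comp (continuous_shift_iter i)
      apply closure_minimal _ hcl
      rintro y ⟨k, hk⟩
      have hy : y = fun n => x (n + k) := funext hk
      subst hy
      refine le_trans (le_of_eq ?_) (hC k N)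
      apply sum_congr rfl
      intro i _
      rw [shift_iter]
      congr 1
      funext n
      congr 1
      ring
    have h4 : ∀ᵐ y ∂μ, ∑ i ∈ range N, φ (shift^[i] y) ≤ c * N + C := by
      rw [ae_iff]
      apply measure_mono_null _ hX
      intro y hy hy'
      exact hy (h3 y hy')
    calc ∫ y, ∑ i ∈ range N, φ (shift^[i] y) ∂μ ≤ ∫ _, (c * N + C) ∂μ := by
          apply integral_mono_ae _ (integrable_const _) h4
          exact integrable_finsetSum _ fun i _ => hint _ (hφ.comp (continuous_shift_iter i))
      _ = c * N + C := by simp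
  by_contra hcon
  push Not at hcon
  obtain ⟨N, hN'⟩ := exists_nat_gt (C / (∫ y, φ y ∂μ - c))
  have h5 : 0 < ∫ y, φ y ∂μ - c := by linarith
  rw [div_lt_iff₀ h5] at hN'
  have := hN N
  nlinarith

theorem DP.sum {ι : Type*} (s : Finset ι) {g : ι → ℤ → ℝ} {c : ι → ℝ}
    (h : ∀ i ∈ s, DP (g i) (c i)) : DP (fun n => ∑ i ∈ s, g i n) (∑ i ∈ s, c i) := by
  classical
  induction s using Finset.induction_on with
  | empty => simpa using DP.const 0
  | insert a s ha ih =>
    simp only [sum_insert ha]
    exact (h a (mem_insert_self _ _)).add (ih fun i hi => h i (mem_insert_of_mem hi))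

/-- membership only depends on coordinates in [-R, R] -/
def Loc (C : Set (ℤ → Bool)) (R : ℕ) : Prop :=
  ∀ y y' : ℤ → Bool, (∀ i : ℤ, -(R : ℤ) ≤ i → i ≤ R → y i = y' i) → (y ∈ C ↔ y' ∈ C)

open Classical in
/-- indicator -/
noncomputable def ic (C : Set (ℤ → Bool)) (y : ℤ → Bool) : ℝ := if y ∈ C then 1 else 0

open Classical in
theorem ret_DP {C : Set (ℤ → Bool)} {R : ℕ} (hC : Loc C R) (K : ℕ) :
    DP (fun j => (1 / 9) * ic C (fun n => x (n + j)) -
      ic C (fun n => x (n + j)) * ic C (fun n => x (n + j + q K))) (2 * R / q K) := by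
  have hq0 := q_pos K
  have hqr : (0 : ℝ) < q K := by exact_mod_cast hq0
  have ic01 : ∀ y, ic C y = 0 ∨ ic C y = 1 := by
    intro y; unfold ic; split_ifs <;> simp
  apply DP.of_block (by positivity) hq0
  · intro n
    rcases ic01 (fun m => x (m + n)) with h1 | h1 <;>
      rcases ic01 (fun m => x (m + n + q K)) with h2 | h2 <;> rw [h1, h2] <;>
      rw [abs_le] <;> constructor <;> norm_num
  · have e : (q K : ℝ) * (2 * R / q K) = 2 * R := by field_simp
    rw [e]
    set c : ℕ → ℝ := fun r => if R ≤ r ∧ r + R < q K then 0 else 1 with hc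
    have hcs : ∑ r ∈ range (q K), c r ≤ 2 * R := by
      have : ∀ r, c r = if ¬ (R ≤ r ∧ r + R < q K) then (1 : ℝ) else 0 := by
        intro r; simp only [hc]; split_ifs <;> simp_all
      simp_rw [this]
      rw [sum_boole]
      have hsub : (range (q K)).filter (fun r => ¬ (R ≤ r ∧ r + R < q K)) ⊆
          range R ∪ Ico (q K - R) (q K) := by
        intro r hr
        rw [mem_filter, mem_range] at hr
        rw [mem_union, mem_range, mem_Ico]
        omega
      have h1 := card_le_card hsub
      have h2 := card_union_le (range R) (Ico (q K - R) (q K))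
      rw [card_range, Nat.card_Ico] at h2
      have h3 : ((range (q K)).filter (fun r => ¬ (R ≤ r ∧ r + R < q K))).card ≤ 2 * R := by omega
      exact_mod_cast h3
    refine DP.weaken (DP.sum (range (q K)) (c := c) ?_) hcs
    intro r hr
    rw [mem_range] at hr
    by_cases hin : R ≤ r ∧ r + R < q K
    · simp only [hc, hin, and_self, if_true]
      -- inner residue
      set P : ℤ → Prop := fun I => (fun n => x (n + (q K * I + r))) ∈ C with hP
      have hPt : ∀ I I', U K I = U K I' → (P I ↔ P I') := by
        intro I I' hU
        apply hC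
        intro i hi1 hi2
        have e1 : ∀ J : ℤ, i + ((q K : ℤ) * J + r) = q K * J + (r + i) := by intro J; ring
        rw [e1, e1]
        apply x_block K _ _ hU
        · omega
        · omega
      set W : ℤ → ℝ := fun I => if P I then 1 else 0 with hW
      set Q : ℤ → ℝ := fun I => if P I ∧ P (I + 1) then 1 else 0 with hQ
      have hW01 : ∀ I, 0 ≤ W I ∧ W I ≤ 1 := by
        intro I; simp only [hW]; split_ifs <;> norm_num
      have hQ01 : ∀ I, 0 ≤ Q I ∧ Q I ≤ 1 := by
        intro I; simp only [hQ]; split_ifs <;> norm_num
      have hval : ∀ I : ℤ, (1 / 9) * ic C (fun n => x (n + (q K * I + r))) -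
          ic C (fun n => x (n + (q K * I + r))) * ic C (fun n => x (n + (q K * I + r) + q K)) =
          (1 / 9) * W I - Q I := by
        intro I
        simp only [hW, hQ]
        have e2 : (fun n => x (n + (q K * I + r) + q K)) = (fun n => x (n + (q K * (I + 1) + r))) := by
          funext n; congr 1; ring
        rw [e2]
        unfold ic
        by_cases h1 : P I <;> by_cases h2 : P (I + 1) <;> simp only [hP] at h1 h2 ⊢ <;>
          simp only [h1, h2] <;> simp
      simp only [hval]
      apply DP.of_block (p := 9) le_rfl (by norm_num)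
      · intro n
        have := hW01 n
        have := hQ01 n
        rw [abs_le]
        constructor <;> linarith
      · rw [mul_zero]
        apply DP.of_le
        intro J
        rw [sum_sub_distrib]
        have hpair := U_pair K J
        by_cases hex : ∃ I0, P I0
        · obtain ⟨I0, hI0⟩ := hex
          have hb1 : ∑ b ∈ range 9, (1 / 9) * W (((9 : ℕ) : ℤ) * J + b) ≤ 1 := by
            calc _ ≤ ∑ b ∈ range 9, (1 / 9 : ℝ) := by
                  apply sum_le_sum
                  intro b _
                  exact (mul_le_mul_of_nonneg_left (hW01 _).2 (by norm_num)).trans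
                    (le_of_eq (mul_one _))
              _ = 1 := by simp
          have hone : ∃ b ∈ range 9, Q (((9 : ℕ) : ℤ) * J + b) = 1 := by
            suffices h : ∃ b ∈ range 9, P (((9 : ℕ) : ℤ) * J + b) ∧
                P (((9 : ℕ) : ℤ) * J + b + 1) by
              obtain ⟨b, hb, hb'⟩ := h
              exact ⟨b, hb, by simp only [hQ]; rw [if_pos hb']⟩
            have hs : U K I0 = U K (9 * J + 3) ∨ U K I0 = -U K (9 * J + 3) := by
              rcases U_sgn K I0 with h1 | h1 <;> rcases U_sgn K (9 * J + 3) with h2 | h2 <;>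
                rw [h1, h2] <;> simp
            rcases hs with hs | hs
            · refine ⟨3, by simp, ?_, ?_⟩
              · exact (hPt I0 _ hs).1 hI0
              · refine (hPt I0 _ ?_).1 hI0
                rw [hs, ← hpair.1]
                congr 1
                push_cast
                ring
            · refine ⟨5, by simp, ?_, ?_⟩
              · refine (hPt I0 _ ?_).1 hI0
                rw [hs, ← hpair.2.1]
                congr 1
              · refine (hPt I0 _ ?_).1 hI0
                rw [hs, ← hpair.2.2]
                congr 1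
                push_cast
                ring
          obtain ⟨b, hb, hPb⟩ := hone
          have hb2 : (1 : ℝ) ≤ ∑ b ∈ range 9, Q (((9 : ℕ) : ℤ) * J + b) := by
            have := single_le_sum (s := range 9)
              (f := fun b : ℕ => Q (((9 : ℕ) : ℤ) * J + b)) (fun i _ => (hQ01 _).1) hb
            simp only [hPb] at this
            exact this
          exact sub_nonpos.2 (hb1.trans hb2)
        · push Not at hex
          simp [hW, hQ, hex]
    · simp only [hc, hin, if_false]
      apply DP.of_le
      intro n
      rcases ic01 (fun m => x (m + (q K * n + r))) with h1 | h1 <;>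
        rcases ic01 (fun m => x (m + (q K * n + r) + q K)) with h2 | h2 <;> rw [h1, h2] <;> norm_num

end Pool.Agent.R656.Toep
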