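import Mathlib

set_option autoImplicit false

namespace Pool.Agent.R656.Toep

open Finset

/-- one sided discrepancy bound -/
def DP (f : ℤ → ℝ) (c : ℝ) : Prop :=
  ∃ C : ℝ, ∀ (a : ℤ) (N : ℕ), ∑ i ∈ range N, f (a + i) ≤ c * N + C

theorem exists_prim (f : ℤ → ℝ) : ∃ F : ℤ → ℝ, ∀ n, F (n + 1) = F n + f n := by
  refine ⟨fun n => (∑ i ∈ range n.toNat, f i) - ∑ i ∈ range (-n).toNat, f (-(i:ℤ) - 1),
    fun n => ?_⟩
  rcases le_or_gt 0 n with h | h
  · obtain ⟨m, rfl⟩ := Int.eq_ofNat_of_zero_le h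
    have h1 : ((m:ℤ)+1).toNat = m + 1 := by omega
    have h2 : (-((m:ℤ)+1)).toNat = 0 := by omega
    have h3 : (-(m:ℤ)).toNat = 0 := by omega
    have h4 : ((m:ℤ)).toNat = m := by omega
    simp only [h1, h2, h3, h4, sum_range_succ, range_zero, sum_empty]
    ring
  · obtain ⟨m, rfl⟩ : ∃ m : ℕ, n = -(m:ℤ) - 1 := ⟨(-n-1).toNat, by omega⟩
    have h1 : (-(m:ℤ) - 1 + 1).toNat = 0 := by omega
    have h2 : (-(-(m:ℤ) - 1 + 1)).toNat = m := by omega
    have h3 : (-(m:ℤ) - 1).toNat = 0 := by omega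
    have h4 : (-(-(m:ℤ) - 1)).toNat = m + 1 := by omega
    simp only [h1, h2, h3, h4, sum_range_succ, range_zero, sum_empty]
    ring

theorem prim_sum {f F : ℤ → ℝ} (hF : ∀ n, F (n + 1) = F n + f n) (a : ℤ) (N : ℕ) :
    ∑ i ∈ range N, f (a + i) = F (a + N) - F a := by
  induction N with
  | zero => simp
  | succ N ih =>
    rw [sum_range_succ, ih]
    push_cast
    rw [← add_assoc, hF]
    ring

theorem prim_lip {f F : ℤ → ℝ} (hF : ∀ n, F (n + 1) = F n + f n) (hf : ∀ n, |f n| ≤ 1)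
    (a : ℤ) (N : ℕ) : |F (a + N) - F a| ≤ N := by
  rw [← prim_sum hF]
  calc |∑ i ∈ range N, f (a + i)| ≤ ∑ i ∈ range N, |f (a + i)| := abs_sum_le_sum_abs _ _
    _ ≤ ∑ i ∈ range N, (1 : ℝ) := sum_le_sum fun i _ => hf _
    _ = N := by simp

theorem DP.of_block {f : ℤ → ℝ} {c : ℝ} (hc : 0 ≤ c) {p : ℕ} (hp : 0 < p)
    (hf : ∀ n, |f n| ≤ 1)
    (h : DP (fun J => ∑ b ∈ range p, f (p * J + b)) (p * c)) : DP f c := by
  obtain ⟨C, hC⟩ := h
  obtain ⟨F, hF⟩ := exists_prim f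
  refine ⟨C + 3 * p, fun a N => ?_⟩
  rw [prim_sum hF]
  have hG : ∀ J : ℤ, F (p * (J + 1)) = F (p * J) + ∑ b ∈ range p, f (p * J + b) := by
    intro J
    rw [prim_sum hF]
    have : (p : ℤ) * (J + 1) = p * J + p := by ring
    rw [this]; ring
  have h1 := hC (a / p) (N / p)
  rw [prim_sum (F := fun J => F (p * J)) hG] at h1
  have hp' : (0 : ℤ) < p := by exact_mod_cast hp
  have e1 := Int.emod_add_mul_ediv a p
  have e2 := Nat.mod_add_div N p
  have b1 := Int.emod_nonneg a hp'.ne'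
  have b2 := Int.emod_lt_of_pos a hp'
  have b3 := Nat.mod_lt N hp
  obtain ⟨r, hr⟩ := Int.eq_ofNat_of_zero_le b1
  have l1 : |F a - F (p * (a / p))| ≤ r := by
    have := prim_lip hF hf (p * (a / p)) r
    have e : (p : ℤ) * (a / p) + r = a := by rw [← hr]; linarith
    rwa [e] at this
  have l2 : |F (a + N) - F (p * (a / p + (N / p : ℕ)))| ≤ (r + N % p : ℕ) := by
    have := prim_lip hF hf (p * (a / p + (N / p : ℕ))) (r + N % p)
    have e : (p : ℤ) * (a / p + (N / p : ℕ)) + (r + N % p : ℕ) = a + N := by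
      have e3 : (N : ℤ) = ((N % p : ℕ) : ℤ) + p * ((N / p : ℕ) : ℤ) := by
        exact_mod_cast e2.symm
      rw [Nat.cast_add]
      nlinarith
    rwa [e] at this
  have l3 : (r : ℝ) ≤ p := by
    have : (r : ℤ) ≤ p := by linarith
    exact_mod_cast this
  have l4 : ((r + N % p : ℕ) : ℝ) ≤ 2 * p := by
    have : (r : ℤ) ≤ p := by linarith
    have h5 : r ≤ p := by exact_mod_cast this
    have : r + N % p ≤ 2 * p := by omega
    exact_mod_cast this
  have l5 : (p : ℝ) * c * (N / p : ℕ) ≤ c * N := by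
    have : p * (N / p) ≤ N := Nat.mul_div_le N p
    have h6 : (p : ℝ) * (N / p : ℕ) ≤ N := by exact_mod_cast this
    calc (p : ℝ) * c * (N / p : ℕ) = c * (p * (N / p : ℕ)) := by ring
      _ ≤ c * N := mul_le_mul_of_nonneg_left h6 hc
  have a1 := abs_le.1 l1
  have a2 := abs_le.1 l2
  linarith [a1.1, a1.2, a2.1, a2.2]

theorem DP.mono {f g : ℤ → ℝ} {c : ℝ} (h : DP g c) (hfg : ∀ n, f n ≤ g n) : DP f c := by
  obtain ⟨C, hC⟩ := h
  exact ⟨C, fun a N => (sum_le_sum fun i _ => hfg _).trans (hC a N)⟩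

theorem DP.add {f g : ℤ → ℝ} {c d : ℝ} (h : DP f c) (h' : DP g d) :
    DP (fun n => f n + g n) (c + d) := by
  obtain ⟨C, hC⟩ := h
  obtain ⟨D, hD⟩ := h'
  refine ⟨C + D, fun a N => ?_⟩
  rw [sum_add_distrib]
  have := hC a N
  have := hD a N
  linarith

theorem DP.smul {f : ℤ → ℝ} {c s : ℝ} (h : DP f c) (hs : 0 ≤ s) :
    DP (fun n => s * f n) (s * c) := by
  obtain ⟨C, hC⟩ := h
  refine ⟨s * C, fun a N => ?_⟩
  rw [← mul_sum]
  have := mul_le_mul_of_nonneg_left (hC a N) hs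
  linarith

theorem DP.const (s : ℝ) : DP (fun _ => s) s := by
  refine ⟨0, fun a N => ?_⟩
  simp [mul_comm]

theorem DP.of_le {f : ℤ → ℝ} {s : ℝ} (h : ∀ n, f n ≤ s) : DP f s := (DP.const s).mono h

theorem DP.weaken {f : ℤ → ℝ} {c d : ℝ} (h : DP f c) (hcd : c ≤ d) : DP f d := by
  obtain ⟨C, hC⟩ := h
  refine ⟨C, fun a N => (hC a N).trans ?_⟩
  have : c * N ≤ d * N := mul_le_mul_of_nonneg_right hcd (by positivity)
  linarith

/-- indicator of divisibility -/
noncomputable def ind (p : ℤ) (n : ℤ) : ℝ := by classical exact if p ∣ n then 1 else 0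

theorem ind_sum (p : ℕ) (hp : 0 < p) (m : ℤ) : ∑ b ∈ range p, ind p (m + b) = 1 := by
  classical
  have hp' : (0 : ℤ) < p := by exact_mod_cast hp
  have b1 := Int.emod_nonneg (-m) hp'.ne'
  have b2 := Int.emod_lt_of_pos (-m) hp'
  rw [sum_eq_single ((-m) % p).toNat]
  · unfold ind
    rw [if_pos]
    rw [Int.toNat_of_nonneg b1]
    have := Int.emod_add_mul_ediv (-m) p
    refine ⟨-(-m / p), ?_⟩
    linarith
  · intro b hb hne
    unfold ind
    rw [if_neg]
    intro hd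
    apply hne
    have hb' := mem_range.1 hb
    have h2 : (b : ℤ) % p = (-m) % p := by
      apply Int.emod_eq_emod_iff_emod_sub_eq_zero.2
      have e : (b : ℤ) - -m = m + b := by ring
      rw [e]
      exact Int.emod_eq_zero_of_dvd hd
    rw [Int.emod_eq_of_lt (by positivity) (by exact_mod_cast hb')] at h2
    omega
  · intro h
    exfalso
    apply h
    rw [mem_range]
    omega

theorem DP_ind (p : ℕ) (hp : 0 < p) (c : ℤ) : DP (fun n => ind p (n + c)) (1 / p) := by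
  have hp' : (0 : ℝ) < p := by exact_mod_cast hp
  apply DP.of_block (by positivity) hp
  · intro n
    unfold ind
    split_ifs <;> simp
  · have e : (p : ℝ) * (1 / p) = 1 := by field_simp
    rw [e]
    apply DP.of_le
    intro J
    have := ind_sum p hp (p * J + c)
    rw [← this]
    apply le_of_eq
    apply sum_congr rfl
    intro b _
    congr 1
    ring

/-- the digit sign -/
noncomputable def eps (b : ℤ) : ℝ := if b = 2 then -1 else 1

noncomputable def TT (S : ℤ → ℝ) : ℤ → ℝ := fun I => eps (I % 3) * S (I / 3)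

noncomputable def th : ℕ → ℤ → ℝ
  | 0, _ => 1
  | w + 1, I => eps (I % 3) * th w (I / 3)

theorem TT_iter (w : ℕ) (S : ℤ → ℝ) (I : ℤ) : TT^[w] S I = th w I * S (I / 3 ^ w) := by
  induction w generalizing I with
  | zero => simp [th]
  | succ w ih =>
    rw [Function.iterate_succ_apply']
    unfold TT
    change _ * (TT^[w] S (I / 3)) = _
    rw [ih]
    rw [Int.ediv_ediv_of_nonneg (by norm_num), th, pow_succ']
    ring

theorem th_add (w : ℕ) (m b : ℤ) : th w (3 ^ w * m + b) = th w b := by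
  induction w generalizing m b with
  | zero => rfl
  | succ w ih =>
    unfold th
    have e1 : (3 ^ (w + 1) * m + b) % 3 = b % 3 := by
      have : (3 ^ (w + 1) * m + b) = b + 3 * (3 ^ w * m) := by ring
      rw [this, Int.add_mul_emod_self_left]
    have e2 : (3 ^ (w + 1) * m + b) / 3 = 3 ^ w * m + b / 3 := by
      have : (3 ^ (w + 1) * m + b) = b + 3 * (3 ^ w * m) := by ring
      rw [this, Int.add_mul_ediv_left _ _ (by norm_num)]
      ring
    rw [e1, e2, ih]

def Sgn (S : ℤ → ℝ) : Prop := ∀ n, S n = 1 ∨ S n = -1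

theorem eps_sgn (b : ℤ) : eps b = 1 ∨ eps b = -1 := by
  unfold eps; split_ifs <;> simp

theorem Sgn.TT {S : ℤ → ℝ} (h : Sgn S) : Sgn (TT S) := by
  intro n
  unfold Toep.TT
  rcases eps_sgn (n % 3) with h1 | h1 <;> rcases h (n / 3) with h2 | h2 <;> rw [h1, h2] <;> simp

theorem Sgn.iter {S : ℤ → ℝ} (h : Sgn S) (w : ℕ) : Sgn (Toep.TT^[w] S) := by
  induction w with
  | zero => exact h
  | succ w ih => rw [Function.iterate_succ_apply']; exact ih.TT

theorem th_sgn (w : ℕ) (I : ℤ) : th w I = 1 ∨ th w I = -1 := by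
  have := Sgn.iter (S := fun _ => 1) (fun _ => Or.inl rfl) w I
  rw [TT_iter] at this
  simpa using this

theorem Sgn.abs {S : ℤ → ℝ} (h : Sgn S) (n : ℤ) : |S n| ≤ 1 := by
  rcases h n with h | h <;> rw [h] <;> simp

theorem Sgn.mul_le {S : ℤ → ℝ} (h : Sgn S) (n m : ℤ) : |S n * S m| ≤ 1 := by
  rcases h n with h1 | h1 <;> rcases h m with h2 | h2 <;> rw [h1, h2] <;> simp

theorem Sgn.mul_ge {S : ℤ → ℝ} (h : Sgn S) (n m : ℤ) : -(S n * S m) ≤ 1 := by
  rcases h n with h1 | h1 <;> rcases h m with h2 | h2 <;> rw [h1, h2] <;> norm_num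

/-- correlations -/
def Cor (S : ℤ → ℝ) (t : ℤ) (c : ℝ) : Prop := DP (fun n => S n * S (n + t)) c

theorem TT_val (S : ℤ → ℝ) (J b : ℤ) (h0 : 0 ≤ b) (h3 : b < 3) :
    TT S (3 * J + b) = eps b * S J := by
  unfold TT
  have e1 : (3 * J + b) % 3 = b := by omega
  have e2 : (3 * J + b) / 3 = J := by omega
  rw [e1, e2]

theorem cor_T0 {S : ℤ → ℝ} (h : Sgn S) {t : ℤ} (ht : t % 3 ≠ 0) : Cor (TT S) t (1 / 3) := by
  unfold Cor
  apply DP.of_block (p := 3) (by norm_num) (by norm_num) (fun n => h.TT.mul_le _ _)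
  have e : ((3 : ℕ) : ℝ) * (1 / 3) = 1 := by norm_num
  rw [e]
  apply DP.of_le
  intro J
  simp only [sum_range_succ, range_zero, sum_empty, Nat.cast_ofNat, Nat.cast_zero, Nat.cast_one,
    zero_add]
  have v0 := TT_val S J 0 (by norm_num) (by norm_num)
  have v1 := TT_val S J 1 (by norm_num) (by norm_num)
  have v2 := TT_val S J 2 (by norm_num) (by norm_num)
  have ep0 : eps 0 = 1 := by simp [eps]
  have ep1 : eps 1 = 1 := by simp [eps]
  have ep2 : eps 2 = -1 := by simp [eps]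
  obtain ⟨t', ht' | ht'⟩ : ∃ t', t = 3 * t' + 1 ∨ t = 3 * t' + 2 := ⟨t / 3, by omega⟩
  · have a0 : 3 * J + 0 + t = 3 * (J + t') + 1 := by omega
    have a1 : 3 * J + 1 + t = 3 * (J + t') + 2 := by omega
    have a2 : 3 * J + 2 + t = 3 * (J + t' + 1) + 0 := by omega
    rw [a0, a1, a2, v0, v1, v2, TT_val S _ 1 (by norm_num) (by norm_num),
      TT_val S _ 2 (by norm_num) (by norm_num), TT_val S _ 0 (by norm_num) (by norm_num),
      ep0, ep1, ep2]
    have := h.mul_ge J (J + t' + 1)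
    linarith
  · have a0 : 3 * J + 0 + t = 3 * (J + t') + 2 := by omega
    have a1 : 3 * J + 1 + t = 3 * (J + t' + 1) + 0 := by omega
    have a2 : 3 * J + 2 + t = 3 * (J + t' + 1) + 1 := by omega
    rw [a0, a1, a2, v0, v1, v2, TT_val S _ 1 (by norm_num) (by norm_num),
      TT_val S _ 2 (by norm_num) (by norm_num), TT_val S _ 0 (by norm_num) (by norm_num),
      ep0, ep1, ep2]
    have := h.mul_ge J (J + t')
    linarith

theorem cor_T1 {S : ℤ → ℝ} (h : Sgn S) {t : ℤ} {c : ℝ} (hc : 0 ≤ c) (ht : Cor S t c) :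
    Cor (TT S) (3 * t) c := by
  unfold Cor
  apply DP.of_block (p := 3) hc (by norm_num) (fun n => h.TT.mul_le _ _)
  have := DP.smul (s := 3) ht (by norm_num)
  refine DP.mono ?_ (g := fun n => 3 * (S n * S (n + t))) ?_
  · exact_mod_cast this
  · intro J
    simp only [sum_range_succ, range_zero, sum_empty, Nat.cast_ofNat, Nat.cast_zero, Nat.cast_one,
      zero_add]
    have a0 : 3 * J + 0 + 3 * t = 3 * (J + t) + 0 := by omega
    have a1 : 3 * J + 1 + 3 * t = 3 * (J + t) + 1 := by omega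
    have a2 : 3 * J + 2 + 3 * t = 3 * (J + t) + 2 := by omega
    have ep0 : eps 0 = 1 := by simp [eps]
    have ep1 : eps 1 = 1 := by simp [eps]
    have ep2 : eps 2 = -1 := by simp [eps]
    rw [a0, a1, a2, TT_val S _ 1 (by norm_num) (by norm_num),
      TT_val S _ 2 (by norm_num) (by norm_num), TT_val S _ 0 (by norm_num) (by norm_num),
      TT_val S _ 1 (by norm_num) (by norm_num),
      TT_val S _ 2 (by norm_num) (by norm_num), TT_val S _ 0 (by norm_num) (by norm_num),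
      ep0, ep1, ep2]
    apply le_of_eq
    ring

theorem cor_iter {S : ℤ → ℝ} (h : Sgn S) {c : ℝ} (hc : 1 / 3 ≤ c) (w : ℕ) {t : ℤ} (ht : 0 < t)
    (hS : ∀ t', 0 < t' → 3 ^ w * t' = t → Cor S t' c) : Cor (TT^[w] S) t c := by
  induction w generalizing t with
  | zero => exact hS t ht (by simp)
  | succ w ih =>
    rw [Function.iterate_succ_apply']
    by_cases h3 : t % 3 = 0
    · obtain ⟨s, rfl⟩ : ∃ s, t = 3 * s := ⟨t / 3, by omega⟩
      apply cor_T1 (h.iter w) (by linarith)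
      apply ih (by omega)
      intro t' ht' hs
      apply hS t' ht'
      rw [← hs]; ring
    · exact DP.weaken (cor_T0 (h.iter w) h3) hc

theorem cor_exc {S S' : ℤ → ℝ} (h : Sgn S) (h' : Sgn S') {p : ℕ} (hp : 0 < p) {t : ℤ} {c : ℝ}
    (hS : ∀ n : ℤ, ¬ ((p : ℤ) ∣ n ∨ (p : ℤ) ∣ n + 1) → S n = S' n) (hc : Cor S' t c) :
    Cor S t (c + 8 / p) := by
  unfold Cor at *
  have h1 := DP_ind p hp 0
  have h2 := DP_ind p hp 1
  have h3 := DP_ind p hp t
  have h4 := DP_ind p hp (t + 1)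
  have h5 := DP.smul (s := 2) (((h1.add h2).add h3).add h4) (by norm_num)
  have h6 := hc.add h5
  have e : c + 2 * (1 / (p:ℝ) + 1 / p + 1 / p + 1 / p) = c + 8 / p := by ring
  rw [e] at h6
  refine h6.mono ?_
  intro n
  simp only [add_zero]
  have i0 : ∀ m, 0 ≤ ind p m := by intro m; unfold ind; split_ifs <;> norm_num
  have i1 : ∀ m, (p : ℤ) ∣ m → ind p m = 1 := by intro m hm; unfold ind; rw [if_pos hm]
  have b1 := h.mul_le n (n + t)
  have b2 := h'.mul_le n (n + t)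
  have c1 := (abs_le.1 b1).2
  have c2 := (abs_le.1 b2).1
  have j1 := i0 n
  have j2 := i0 (n + 1)
  have j3 := i0 (n + t)
  have j4 := i0 (n + (t + 1))
  by_cases k1 : (p : ℤ) ∣ n
  · have := i1 _ k1; linarith
  by_cases k2 : (p : ℤ) ∣ n + 1
  · have := i1 _ k2; linarith
  by_cases k3 : (p : ℤ) ∣ n + t
  · have := i1 _ k3; linarith
  by_cases k4 : (p : ℤ) ∣ n + (t + 1)
  · have := i1 _ k4; linarith
  have k5 : ¬ (p : ℤ) ∣ n + t + 1 := by rwa [add_assoc]
  rw [hS n (by tauto), hS (n + t) (by tauto)]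
  linarith

end Pool.Agent.R656.Toep
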