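import Pool.Agent.R656.ToepSeq

set_option autoImplicit false

namespace Pool.Agent.R656.Toep

open Finset

theorem div_natAbs_lt {p I : ℤ} (hp : 3 ≤ p) (h0 : ¬ p ∣ I) (h1 : ¬ p ∣ I + 1) :
    (I / p).natAbs < I.natAbs := by
  have e := Int.emod_add_mul_ediv I p
  have b1 := Int.emod_nonneg I (by omega : p ≠ 0)
  have b2 := Int.emod_lt_of_pos I (by omega : 0 < p)
  have hI0 : I ≠ 0 := by rintro rfl; exact h0 (dvd_zero _)
  have hI1 : I ≠ -1 := by rintro rfl; exact h1 (by simp)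
  set m := I / p with hm
  set r := I % p with hr
  rcases lt_or_gt_of_ne hI0 with h | h
  · have hm0 : m < 0 := by
      by_contra hcon
      push Not at hcon
      nlinarith
    have : I < m := by
      by_contra hcon
      push Not at hcon
      rcases eq_or_lt_of_le (show m ≤ -1 by omega) with h5 | h5
      · omega
      · nlinarith
    omega
  · have hm0 : 0 ≤ m := by
      by_contra hcon
      push Not at hcon
      nlinarith
    have : m < I := by
      by_contra hcon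
      push Not at hcon
      nlinarith
    omega

theorem three_le (K : ℕ) : (3 : ℤ) ≤ 3 ^ (K + 3) := by
  calc (3 : ℤ) = 3 ^ 1 := by norm_num
    _ ≤ 3 ^ (K + 3) := pow_le_pow_right₀ (by norm_num) (by omega)

noncomputable def U (K : ℕ) (I : ℤ) : ℝ := by
  classical
  exact if h : ((3 : ℤ) ^ (K + 3)) ∣ I ∨ ((3 : ℤ) ^ (K + 3)) ∣ I + 1 then 1
  else th (K + 3) I * U (K + 1) (I / 3 ^ (K + 3))
termination_by I.natAbs
decreasing_by
  push Not at h
  exact div_natAbs_lt (three_le K) h.1 h.2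

theorem U_exc {K : ℕ} {I : ℤ} (h : ((3 : ℤ) ^ (K + 3)) ∣ I ∨ ((3 : ℤ) ^ (K + 3)) ∣ I + 1) :
    U K I = 1 := by
  rw [U]
  simp [h]

theorem U_reg {K : ℕ} {I : ℤ} (h : ¬ (((3 : ℤ) ^ (K + 3)) ∣ I ∨ ((3 : ℤ) ^ (K + 3)) ∣ I + 1)) :
    U K I = th (K + 3) I * U (K + 1) (I / 3 ^ (K + 3)) := by
  conv_lhs => rw [U]
  simp only [h, dite_false]

theorem U_reg' {K : ℕ} {I : ℤ} (h : ¬ (((3 : ℤ) ^ (K + 3)) ∣ I ∨ ((3 : ℤ) ^ (K + 3)) ∣ I + 1)) :
    U K I = TT^[K + 3] (U (K + 1)) I := by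
  rw [U_reg h, TT_iter]

theorem U_sgn (K : ℕ) : Sgn (U K) := by
  have key : ∀ n : ℕ, ∀ K : ℕ, ∀ I : ℤ, I.natAbs ≤ n → U K I = 1 ∨ U K I = -1 := by
    intro n
    induction n with
    | zero =>
      intro K I hI
      have : I = 0 := by omega
      subst this
      left
      exact U_exc (Or.inl (dvd_zero _))
    | succ n ih =>
      intro K I hI
      by_cases h : ((3 : ℤ) ^ (K + 3)) ∣ I ∨ ((3 : ℤ) ^ (K + 3)) ∣ I + 1
      · left; exact U_exc h
      · rw [U_reg h]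
        push Not at h
        have := div_natAbs_lt (three_le K) h.1 h.2
        rcases th_sgn (K + 3) I with h1 | h1 <;>
          rcases ih (K + 1) (I / 3 ^ (K + 3)) (by omega) with h2 | h2 <;> rw [h1, h2] <;> simp
  exact fun n => key _ K n le_rfl

theorem U_pair (K : ℕ) (J : ℤ) : U K (9 * J + 4) = U K (9 * J + 3) ∧
    U K (9 * J + 5) = -U K (9 * J + 3) ∧ U K (9 * J + 6) = -U K (9 * J + 3) := by
  have h9 : (9 : ℤ) ∣ 3 ^ (K + 3) := by
    refine ⟨3 ^ (K + 1), ?_⟩
    rw [show K + 3 = (K + 1) + 2 by ring, pow_add]; ring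
  have hexc : ∀ b : ℤ, 3 ≤ b → b ≤ 6 →
      ¬ (((3 : ℤ) ^ (K + 3)) ∣ 9 * J + b ∨ ((3 : ℤ) ^ (K + 3)) ∣ 9 * J + b + 1) := by
    intro b hb1 hb2 h
    rcases h with h | h
    · have := h9.trans h; omega
    · have := h9.trans h; omega
  have hv : ∀ b : ℤ, 3 ≤ b → b ≤ 6 →
      U K (9 * J + b) = eps (b % 3) * (eps (b / 3) * TT^[K + 1] (U (K + 1)) J) := by
    intro b hb1 hb2
    rw [U_reg' (hexc b hb1 hb2)]
    rw [show K + 3 = (K + 1) + 1 + 1 by ring, Function.iterate_succ_apply',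
      Function.iterate_succ_apply']
    unfold TT
    have e1 : (9 * J + b) % 3 = b % 3 := by omega
    have e2 : (9 * J + b) / 3 % 3 = b / 3 := by omega
    have e3 : (9 * J + b) / 3 / 3 = J := by omega
    rw [e1, e2, e3]
  have v3 := hv 3 (by norm_num) (by norm_num)
  have v4 := hv 4 (by norm_num) (by norm_num)
  have v5 := hv 5 (by norm_num) (by norm_num)
  have v6 := hv 6 (by norm_num) (by norm_num)
  norm_num at v3 v4 v5 v6
  have ep0 : eps 0 = 1 := by simp [eps]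
  have ep1 : eps 1 = 1 := by simp [eps]
  have ep2 : eps 2 = -1 := by simp [eps]
  rw [ep0, ep1] at v3
  rw [ep1] at v4
  rw [ep1, ep2] at v5
  rw [ep0, ep2] at v6
  rw [v3, v4, v5, v6]
  refine ⟨by ring, by ring, by ring⟩

/-- block lengths -/
def q : ℕ → ℕ
  | 0 => 1
  | K + 1 => q K * 3 ^ (K + 3)

theorem q_pos (K : ℕ) : 0 < q K := by
  induction K with
  | zero => simp [q]
  | succ K ih => unfold q; positivity

theorem q_ge (K : ℕ) : K < q K := by
  induction K with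
  | zero => simp [q]
  | succ K ih =>
    unfold q
    have : 3 ≤ 3 ^ (K + 3) := by
      calc 3 = 3 ^ 1 := by norm_num
        _ ≤ 3 ^ (K + 3) := Nat.pow_le_pow_right (by norm_num) (by omega)
    nlinarith

theorem U_step {K : ℕ} {I I' b : ℤ} (hb0 : 0 ≤ b) (hb : b < 3 ^ (K + 3))
    (h : U (K + 1) I = U (K + 1) I') :
    U K (3 ^ (K + 3) * I + b) = U K (3 ^ (K + 3) * I' + b) := by
  have hp := three_le K
  have d1 : ∀ J : ℤ, ((3 : ℤ) ^ (K + 3)) ∣ 3 ^ (K + 3) * J + b ↔ ((3 : ℤ) ^ (K + 3)) ∣ b :=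
    fun J => (Int.dvd_add_right (dvd_mul_right _ _))
  have d2 : ∀ J : ℤ, ((3 : ℤ) ^ (K + 3)) ∣ 3 ^ (K + 3) * J + b + 1 ↔
      ((3 : ℤ) ^ (K + 3)) ∣ b + 1 := by
    intro J
    rw [add_assoc]
    exact (Int.dvd_add_right (dvd_mul_right _ _))
  by_cases hex : ((3 : ℤ) ^ (K + 3)) ∣ b ∨ ((3 : ℤ) ^ (K + 3)) ∣ b + 1
  · rw [U_exc (by rw [d1, d2]; exact hex), U_exc (by rw [d1, d2]; exact hex)]
  · have r1 := U_reg (K := K) (I := 3 ^ (K + 3) * I + b) (by rw [d1, d2]; exact hex)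
    have r2 := U_reg (K := K) (I := 3 ^ (K + 3) * I' + b) (by rw [d1, d2]; exact hex)
    have e : ∀ J : ℤ, (3 ^ (K + 3) * J + b) / 3 ^ (K + 3) = J := by
      intro J
      rw [add_comm, Int.add_mul_ediv_left _ _ (by positivity), Int.ediv_eq_zero_of_lt hb0 hb]
      ring
    rw [e, th_add] at r1 r2
    rw [r1, r2, h]

theorem U_block (K : ℕ) {I I' r : ℤ} (hr0 : 0 ≤ r) (hr : r < q K) (h : U K I = U K I') :
    U 0 (q K * I + r) = U 0 (q K * I' + r) := by
  induction K generalizing I I' r with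
  | zero =>
    have hq : (q 0 : ℤ) = 1 := by simp [q]
    rw [hq] at hr ⊢
    have : r = 0 := by omega
    subst this
    simpa using h
  | succ K ih =>
    have hq0 : (0 : ℤ) < q K := by exact_mod_cast q_pos K
    have hq : (q (K + 1) : ℤ) = q K * 3 ^ (K + 3) := by simp [q]
    rw [hq] at hr ⊢
    have e := Int.emod_add_mul_ediv r (q K)
    have b1 := Int.emod_nonneg r hq0.ne'
    have b2 := Int.emod_lt_of_pos r hq0
    have e1 : ∀ J : ℤ, (q K : ℤ) * 3 ^ (K + 3) * J + r =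
        q K * (3 ^ (K + 3) * J + r / q K) + r % q K := by
      intro J
      conv_lhs => rw [← e]
      ring
    rw [e1, e1]
    apply ih b1 b2
    apply U_step
    · exact Int.ediv_nonneg hr0 hq0.le
    · apply Int.ediv_lt_of_lt_mul hq0
      linarith
    · exact h

theorem U_toeplitz (K : ℕ) (I : ℤ) : ∃ P : ℤ, 1 ≤ P ∧ ∀ k : ℤ, U K (I + k * P) = U K I := by
  have key : ∀ n : ℕ, ∀ K : ℕ, ∀ I : ℤ, I.natAbs ≤ n →
      ∃ P : ℤ, 1 ≤ P ∧ ∀ k : ℤ, U K (I + k * P) = U K I := by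
    intro n
    have hexc : ∀ K : ℕ, ∀ I : ℤ, (((3 : ℤ) ^ (K + 3)) ∣ I ∨ ((3 : ℤ) ^ (K + 3)) ∣ I + 1) →
        ∃ P : ℤ, 1 ≤ P ∧ ∀ k : ℤ, U K (I + k * P) = U K I := by
      intro K I h
      refine ⟨3 ^ (K + 3), by linarith [three_le K], fun k => ?_⟩
      rw [U_exc h, U_exc]
      rcases h with h | h
      · left
        exact dvd_add h (dvd_mul_left _ _)
      · right
        have : I + k * 3 ^ (K + 3) + 1 = (I + 1) + k * 3 ^ (K + 3) := by ring
        rw [this]
        exact dvd_add h (dvd_mul_left _ _)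
    induction n with
    | zero =>
      intro K I hI
      have : I = 0 := by omega
      subst this
      exact hexc K 0 (Or.inl (dvd_zero _))
    | succ n ih =>
      intro K I hI
      by_cases h : ((3 : ℤ) ^ (K + 3)) ∣ I ∨ ((3 : ℤ) ^ (K + 3)) ∣ I + 1
      · exact hexc K I h
      · have h' := h
        push Not at h'
        have := div_natAbs_lt (three_le K) h'.1 h'.2
        obtain ⟨P, hP, hk⟩ := ih (K + 1) (I / 3 ^ (K + 3)) (by omega)
        have hp := three_le K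
        refine ⟨3 ^ (K + 3) * P, by nlinarith, fun k => ?_⟩
        have hex : ¬ (((3 : ℤ) ^ (K + 3)) ∣ I + k * (3 ^ (K + 3) * P) ∨
            ((3 : ℤ) ^ (K + 3)) ∣ I + k * (3 ^ (K + 3) * P) + 1) := by
          intro hcon
          apply h
          have hd : ((3 : ℤ) ^ (K + 3)) ∣ k * (3 ^ (K + 3) * P) :=
            (Dvd.intro _ rfl : ((3 : ℤ) ^ (K + 3)) ∣ 3 ^ (K + 3) * P).mul_left k
          rcases hcon with hc | hc
          · left; exact (Int.dvd_add_left hd).1 hc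
          · right
            rw [add_right_comm] at hc
            exact (Int.dvd_add_left hd).1 hc
        rw [U_reg hex, U_reg h]
        have e1 : I + k * (3 ^ (K + 3) * P) = 3 ^ (K + 3) * (k * P) + I := by ring
        have e2 : (I + k * (3 ^ (K + 3) * P)) / 3 ^ (K + 3) = I / 3 ^ (K + 3) + k * P := by
          have : I + k * (3 ^ (K + 3) * P) = I + 3 ^ (K + 3) * (k * P) := by ring
          rw [this, Int.add_mul_ediv_left _ _ (by positivity)]
        rw [e2, e1, th_add, hk]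
  exact key _ K I le_rfl

theorem U_cor (K : ℕ) {t : ℤ} (ht : 0 < t) : Cor (U K) t (1 / 3 + 12 / 3 ^ (K + 3)) := by
  have key : ∀ n : ℕ, ∀ K : ℕ, ∀ t : ℤ, 0 < t → t ≤ n → Cor (U K) t (1 / 3 + 12 / 3 ^ (K + 3)) := by
    intro n
    induction n with
    | zero => intro K t h1 h2; exfalso; push_cast at h2; omega
    | succ n ih =>
      intro K t h1 h2
      have h3 : Cor (TT^[K + 3] (U (K + 1))) t (1 / 3 + 12 / 3 ^ (K + 1 + 3)) := by
        apply cor_iter (U_sgn _)
        · have : (0 : ℝ) ≤ 12 / 3 ^ (K + 1 + 3) := by positivity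
          linarith
        · exact h1
        · intro t' ht' he
          apply ih (K + 1) t' ht'
          have := three_le K
          push_cast at h2
          nlinarith
      have h4 := cor_exc (p := 3 ^ (K + 3)) (U_sgn K) ((U_sgn (K + 1)).iter (K + 3))
        (by positivity) (fun n hn => U_reg' (by push_cast at hn; exact hn)) h3
      refine DP.weaken h4 (le_of_eq ?_)
      push_cast
      have : (3 : ℝ) ^ (K + 1 + 3) = 3 * 3 ^ (K + 3) := by ring
      rw [this]
      field_simp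
      ring
  exact key t.toNat K t ht (by omega)

theorem U_cor0 {t : ℤ} (ht : 0 < t) : Cor (U 0) t (7 / 9) := by
  have := U_cor 0 ht
  refine DP.weaken this ?_
  norm_num

/-- the Toeplitz sequence -/
noncomputable def x (j : ℤ) : Bool := by classical exact decide (U 0 j = 1)

theorem x_eq_iff (i j : ℤ) : x i = x j ↔ U 0 i = U 0 j := by
  classical
  unfold x
  rcases U_sgn 0 i with h1 | h1 <;> rcases U_sgn 0 j with h2 | h2 <;> rw [h1, h2] <;> norm_num

theorem x_block (K : ℕ) {I I' r : ℤ} (hr0 : 0 ≤ r) (hr : r < q K) (h : U K I = U K I') :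
    x (q K * I + r) = x (q K * I' + r) := (x_eq_iff _ _).2 (U_block K hr0 hr h)

theorem x_toeplitz (n : ℤ) : ∃ p : ℤ, 1 ≤ p ∧ ∀ k : ℤ, x (n + k * p) = x n := by
  obtain ⟨P, hP, h⟩ := U_toeplitz 0 n
  exact ⟨P, hP, fun k => (x_eq_iff _ _).2 (h k)⟩

theorem x_DP {t : ℤ} (ht : 0 < t) : DP (fun n => if x n = x (n + t) then (1 : ℝ) else 0) (8 / 9) := by
  have h1 := (DP.const (1 / 2)).add ((U_cor0 ht).smul (s := 1 / 2) (by norm_num))
  refine (h1.mono ?_).weaken (by norm_num)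
  intro n
  simp only [x_eq_iff]
  rcases U_sgn 0 n with h1 | h1 <;> rcases U_sgn 0 (n + t) with h2 | h2 <;> rw [h1, h2] <;> norm_num

theorem x_aperiodic : ¬ ∃ p : ℤ, 1 ≤ p ∧ ∀ n, x (n + p) = x n := by
  rintro ⟨p, hp, h⟩
  obtain ⟨C, hC⟩ := x_DP (t := p) (by omega)
  obtain ⟨N, hN⟩ := exists_nat_gt (9 * C)
  have := hC 0 N
  simp only [zero_add, h, if_true, sum_const, card_range, nsmul_eq_mul, mul_one] at this
  linarith

end Pool.Agent.R656.Toep
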