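import Mathlib

/-!
# v-number and Castelnuovo–Mumford regularity of graded ideals: definitions

Everything is stated for an arbitrary `ℕ`-graded commutative algebra `R` over a Noetherian ring.
Local cohomology with support in `R_+` is computed in the textbook way, by the Čech complex of a
homogeneous sequence `x_1, …, x_s` generating `R_+` up to radical, which is the direct limit over
`n` of the Koszul cochain complexes of `x_1 ^ n, …, x_s ^ n`.
-/

namespace R656V

open Polynomial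

section defs

variable {C R : Type} [CommRing C] [CommRing R] [Algebra C R]

/-- `r` lies in the degree-`d` part of the `ℕ`-graded ring `R = ⨁ 𝒜 m`, where `d` is an integer
(for `d < 0` this part is zero). -/
def InDeg (𝒜 : ℕ → Submodule C R) (d : ℤ) (r : R) : Prop :=
  r = 0 ∨ ∃ m : ℕ, (m : ℤ) = d ∧ r ∈ 𝒜 m

/-- The Koszul cochain differential of `x_1 ^ n, …, x_s ^ n` with values in `M`.  A cochain of
degree `i` is a family `c σ` of elements of `M` indexed by the subsets `σ` with `i` elements. -/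
def kd {R M : Type} [CommRing R] [AddCommGroup M] [Module R M] {s : ℕ} (x : Fin s → R) (n : ℕ)
    (c : Finset (Fin s) → M) (σ : Finset (Fin s)) : M :=
  ∑ j ∈ σ, ((-1 : ℤ) ^ (σ.filter (· < j)).card) • (x j ^ n • c (σ.erase j))

/-- `x_1, …, x_s` is a finite sequence of homogeneous elements, `x_j` of degree `e j > 0`, which
generates an ideal with the same radical as `R_+ = ⨁_{d > 0} R_d`. -/
structure IsGenSeq (𝒜 : ℕ → Submodule C R) [GradedAlgebra 𝒜] {s : ℕ} (x : Fin s → R)
    (e : Fin s → ℕ) : Prop where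
  pos : ∀ j, 0 < e j
  mem : ∀ j, x j ∈ 𝒜 (e j)
  rad : (Ideal.span (Set.range x)).radical = (HomogeneousIdeal.irrelevant 𝒜).toIdeal.radical

/-- `H^i_{R_+}(I)_d = 0` for the homogeneous ideal `I`, viewed as a graded `R`-module.  Here local
cohomology is the cohomology of the Čech complex of `x`: a Čech cochain of degree `d` is a family of
fractions `c σ / x_σ ^ n` with `c σ ∈ I` homogeneous of degree `d + n * deg x_σ`
(`x_σ = ∏_{j ∈ σ} x_j`, `σ` having `i` elements); the condition says that every cocycle is a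
coboundary in the direct limit over `n`. -/
def LCZero (𝒜 : ℕ → Submodule C R) {s : ℕ} (x : Fin s → R) (e : Fin s → ℕ) (I : Ideal R)
    (i : ℕ) (d : ℤ) : Prop :=
  ∀ (n : ℕ) (c : Finset (Fin s) → R),
    (∀ σ, σ.card = i → c σ ∈ I ∧ InDeg 𝒜 (d + n * ∑ j ∈ σ, (e j : ℤ)) (c σ)) →
    (∀ σ, σ.card = i + 1 → kd x n c σ = 0) →
    ∃ m, n ≤ m ∧ ∃ b : Finset (Fin s) → R,
      (∀ σ, σ.card + 1 = i → b σ ∈ I ∧ InDeg 𝒜 (d + m * ∑ j ∈ σ, (e j : ℤ)) (b σ)) ∧
      ∀ σ, σ.card = i → (∏ j ∈ σ, x j) ^ (m - n) * c σ = kd x m b σ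

/-- `reg(I) = max_i (a_i(I) + i) = sup {d + i : H^i_{R_+}(I)_d ≠ 0}`. -/
noncomputable def reg (𝒜 : ℕ → Submodule C R) {s : ℕ} (x : Fin s → R) (e : Fin s → ℕ)
    (I : Ideal R) : EReal :=
  sSup {q : EReal | ∃ (i : ℕ) (d : ℤ), ¬ LCZero 𝒜 x e I i d ∧ q = (((d + i : ℤ) : ℝ) : EReal)}

/-- The v-number of `I`: the least degree of a homogeneous `f` such that `(I : f)` is prime. -/
noncomputable def vNum (𝒜 : ℕ → Submodule C R) (I : Ideal R) : ℕ :=
  sInf {d : ℕ | ∃ f ∈ 𝒜 d, (Submodule.colon I ({f} : Set R)).IsPrime}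

/-- Graded filtrations of `R`. -/
structure IsGradedFiltration (𝒜 : ℕ → Submodule C R) [GradedAlgebra 𝒜] (I : ℕ → Ideal R) :
    Prop where
  zero : I 0 = ⊤
  homog : ∀ k, (I k).IsHomogeneous 𝒜
  anti : ∀ k, I (k + 1) ≤ I k
  mul : ∀ k l, I k * I l ≤ I (k + l)

/-- The Rees algebra `⨁_k I_[k]` of a graded filtration, as the subring of `R[t]` of all
polynomials `∑ a_k t ^ k` with `a_k ∈ I_[k]`. -/
def rees {𝒜 : ℕ → Submodule C R} [GradedAlgebra 𝒜] {I : ℕ → Ideal R}
    (h : IsGradedFiltration 𝒜 I) : Subring R[X] where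
  carrier := {p | ∀ k, p.coeff k ∈ I k}
  mul_mem' := by
    intro p q hp hq k
    rw [coeff_mul]
    refine Ideal.sum_mem _ fun a ha => ?_
    rw [← Finset.HasAntidiagonal.mem_antidiagonal.mp ha]
    exact h.mul _ _ (Ideal.mul_mem_mul (hp _) (hq _))
  one_mem' := by
    intro k
    rw [coeff_one]
    split_ifs with hk
    · subst hk
      rw [h.zero]; trivial
    · exact Ideal.zero_mem _
  add_mem' := by
    intro p q hp hq k
    rw [coeff_add]
    exact Ideal.add_mem _ (hp k) (hq k)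
  zero_mem' := by
    intro k
    rw [coeff_zero]
    exact Ideal.zero_mem _
  neg_mem' := by
    intro p hp k
    rw [coeff_neg]
    exact (Ideal.neg_mem_iff _).2 (hp k)

/-- `m` is the maximal graded ideal of `R`: a homogeneous maximal ideal containing every proper
homogeneous ideal. -/
structure IsMaxGraded (𝒜 : ℕ → Submodule C R) [GradedAlgebra 𝒜] (m : Ideal R) : Prop where
  homog : m.IsHomogeneous 𝒜
  maximal : m.IsMaximal
  le : ∀ J : Ideal R, J.IsHomogeneous 𝒜 → J ≠ ⊤ → J ≤ m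

end defs

/-- **Q1**: for every finitely generated `ℕ`-graded algebra `R` over a Noetherian ring whose maximal
graded ideal has infinite residue field and every Noetherian graded filtration by proper ideals
`I_[k]` (`k ≥ 1`) one has `v(I_[k]) ≤ reg(I_[k])` for all large `k`. -/
def Question1 : Prop :=
  ∀ (C R : Type) [CommRing C] [IsNoetherianRing C] [CommRing R] [Algebra C R]
    [Algebra.FiniteType C R] (𝒜 : ℕ → Submodule C R) [GradedAlgebra 𝒜] (m : Ideal R),
    IsMaxGraded 𝒜 m → Infinite (R ⧸ m) →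
    ∀ (s : ℕ) (x : Fin s → R) (e : Fin s → ℕ), IsGenSeq 𝒜 x e →
    ∀ (I : ℕ → Ideal R) (hI : IsGradedFiltration 𝒜 I), (∀ k, 0 < k → I k ≠ ⊤) →
      IsNoetherianRing (rees hI) →
      ∃ k₀ : ℕ, ∀ k, k₀ ≤ k → ((vNum 𝒜 (I k) : ℝ) : EReal) ≤ reg 𝒜 x e (I k)

end R656V
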