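import Mathlib
import Pool.Agent.R656.VRegDefs

/-!
# General lemmas: filtrations by powers of a homogeneous nonzerodivisor
-/

namespace R656V

open Polynomial

section conn

variable {K R : Type} [Field K] [CommRing R] [Algebra K R] [Nontrivial R]
  (𝒜 : ℕ → Submodule K R) [GradedAlgebra 𝒜]

theorem isMaxGraded_irrelevant (h0 : ∀ r ∈ 𝒜 0, ∃ a : K, algebraMap K R a = r) :
    IsMaxGraded 𝒜 (HomogeneousIdeal.irrelevant 𝒜).toIdeal := by
  classical
  have key : ∀ r : R, r ∉ (HomogeneousIdeal.irrelevant 𝒜).toIdeal →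
      ∃ a : K, a ≠ 0 ∧ algebraMap K R a = ((DirectSum.decompose 𝒜 r 0 : 𝒜 0) : R) := by
    intro r hr
    obtain ⟨a, ha⟩ := h0 _ (DirectSum.decompose 𝒜 r 0).2
    refine ⟨a, ?_, ha⟩
    rintro rfl
    apply hr
    change GradedRing.projZeroRingHom 𝒜 r = 0
    rw [map_zero] at ha
    exact ha.symm
  have hunit : ∀ (J : Ideal R) (a : K), a ≠ 0 → algebraMap K R a ∈ J → (1 : R) ∈ J := by
    intro J a ha h
    have := J.mul_mem_left (algebraMap K R a⁻¹) h
    rwa [← map_mul, inv_mul_cancel₀ ha, map_one] at this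
  refine ⟨(HomogeneousIdeal.irrelevant 𝒜).isHomogeneous, ?_, ?_⟩
  · rw [Ideal.isMaximal_iff]
    constructor
    · intro h
      have : GradedRing.projZeroRingHom 𝒜 (1 : R) = 0 := h
      rw [map_one] at this
      exact one_ne_zero this
    · intro J r hJ hr hrJ
      obtain ⟨a, ha, hae⟩ := key r hr
      refine hunit J a ha ?_
      rw [hae]
      have h1 : r - ((DirectSum.decompose 𝒜 r 0 : 𝒜 0) : R) ∈ J := by
        apply hJ
        change GradedRing.projZeroRingHom 𝒜 _ = 0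
        rw [map_sub, sub_eq_zero]
        change ((DirectSum.decompose 𝒜 r 0 : 𝒜 0) : R) = _
        exact (DirectSum.decompose_of_mem_same 𝒜 (DirectSum.decompose 𝒜 r 0).2).symm
      have := J.sub_mem hrJ h1
      simpa using this
  · intro J hJ hne r hr
    by_contra hr'
    obtain ⟨a, ha, hae⟩ := key r hr'
    apply hne
    rw [Ideal.eq_top_iff_one]
    refine hunit J a ha ?_
    rw [hae]
    exact hJ 0 hr

theorem infinite_residue [Infinite K] (m : Ideal R) (hm : m.IsMaximal) : Infinite (R ⧸ m) := by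
  haveI : Nontrivial (R ⧸ m) := Ideal.Quotient.nontrivial_iff.2 hm.ne_top
  exact Infinite.of_injective (algebraMap K (R ⧸ m)) (algebraMap K (R ⧸ m)).injective

end conn

section princ

variable {C R : Type} [CommRing C] [CommRing R] [Algebra C R]
  {𝒜 : ℕ → Submodule C R} [GradedAlgebra 𝒜]

lemma div_homog {a m : ℕ} {w c : R} (hw : w ∈ 𝒜 a) (hreg : ∀ r, w * r = 0 → r = 0)
    (h : w * c ∈ 𝒜 m) : c = 0 ∨ ∃ j, a + j = m ∧ c ∈ 𝒜 j := by
  classical
  have key : ∀ j, a + j ≠ m → ((DirectSum.decompose 𝒜 c j : 𝒜 j) : R) = 0 := by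
    intro j hj
    apply hreg
    rw [← DirectSum.coe_decompose_mul_add_of_left_mem 𝒜 hw]
    rw [DirectSum.decompose_of_mem_ne 𝒜 h (Ne.symm hj)]
  by_cases hex : ∃ j, a + j = m
  · right
    obtain ⟨j, hj⟩ := hex
    refine ⟨j, hj, ?_⟩
    have hs := DirectSum.sum_support_decompose 𝒜 c
    have : c = ((DirectSum.decompose 𝒜 c j : 𝒜 j) : R) := by
      conv_lhs => rw [← hs]
      refine Finset.sum_eq_single j ?_ ?_
      · intro i _ hi
        apply key
        omega
      · intro hj'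
        simpa using hj'
    rw [this]
    exact (DirectSum.decompose 𝒜 c j).2
  · left
    push Not at hex
    rw [← DirectSum.sum_support_decompose 𝒜 c]
    exact Finset.sum_eq_zero fun j _ => key j (hex j)

lemma InDeg.div {a : ℕ} {d : ℤ} {w c : R} (hw : w ∈ 𝒜 a) (hreg : ∀ r, w * r = 0 → r = 0)
    (h : InDeg 𝒜 d (w * c)) : InDeg 𝒜 (d - a) c := by
  rcases h with h | ⟨m, hm, h⟩
  · exact Or.inl (hreg _ h)
  · rcases div_homog hw hreg h with h1 | ⟨j, hj, h1⟩
    · exact Or.inl h1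
    · exact Or.inr ⟨j, by omega, h1⟩

lemma InDeg.mul {a : ℕ} {d : ℤ} {w c : R} (hw : w ∈ 𝒜 a) (h : InDeg 𝒜 d c) :
    InDeg 𝒜 (d + a) (w * c) := by
  rcases h with h | ⟨m, hm, h⟩
  · left; rw [h, mul_zero]
  · exact Or.inr ⟨a + m, by push_cast; omega, SetLike.mul_mem_graded hw h⟩

lemma kd_mul {s : ℕ} (x : Fin s → R) (n : ℕ) (c : Finset (Fin s) → R) (w : R)
    (σ : Finset (Fin s)) : kd x n (fun τ => w * c τ) σ = w * kd x n c σ := by
  unfold kd
  rw [Finset.mul_sum]
  refine Finset.sum_congr rfl fun j _ => ?_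
  simp only [smul_eq_mul, zsmul_eq_mul]
  ring

lemma pow_reg {w : R} (hreg : ∀ r, w * r = 0 → r = 0) (k : ℕ) : ∀ r, w ^ k * r = 0 → r = 0 := by
  induction k with
  | zero => intro r hr; simpa using hr
  | succ k ih =>
    intro r hr
    rw [pow_succ, mul_assoc] at hr
    exact hreg _ (ih _ hr)

theorem LCZero_principal {s : ℕ} {x : Fin s → R} {e : Fin s → ℕ} {a : ℕ} {w : R} (hw : w ∈ 𝒜 a)
    (hreg : ∀ r, w * r = 0 → r = 0) (k i : ℕ) (d : ℤ)
    (h : LCZero 𝒜 x e ⊤ i (d - k * a)) : LCZero 𝒜 x e (Ideal.span {w ^ k}) i d := by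
  classical
  have hwk : w ^ k ∈ 𝒜 (k * a) := by
    have := SetLike.pow_mem_graded k hw
    simpa [smul_eq_mul] using this
  have hregk := pow_reg hreg k
  intro n c hc hcoc
  have hex : ∀ σ : Finset (Fin s), ∃ c', σ.card = i → c σ = w ^ k * c' := by
    intro σ
    by_cases hσ : σ.card = i
    · obtain ⟨c', hc'⟩ := Ideal.mem_span_singleton'.1 (hc σ hσ).1
      exact ⟨c', fun _ => by rw [← hc', mul_comm]⟩
    · exact ⟨0, fun h => absurd h hσ⟩
  choose c' hc' using hex
  obtain ⟨m, hm, b, hb, hb'⟩ := h n c' (by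
    intro σ hσ
    refine ⟨trivial, ?_⟩
    have h1 := (hc σ hσ).2
    rw [hc' σ hσ] at h1
    have h2 := h1.div hwk hregk
    have e1 : d - k * a + n * ∑ j ∈ σ, (e j : ℤ) = d + n * ∑ j ∈ σ, (e j : ℤ) - ((k * a : ℕ) : ℤ) := by
      push_cast; ring
    rw [e1]; exact h2) (by
    intro σ hσ
    apply hregk
    rw [← kd_mul, ← hcoc σ hσ]
    unfold kd
    refine Finset.sum_congr rfl fun j hj => ?_
    rw [hc' (σ.erase j) (by rw [Finset.card_erase_of_mem hj, hσ]; rfl)])
  refine ⟨m, hm, fun σ => w ^ k * b σ, ?_, ?_⟩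
  · intro σ hσ
    refine ⟨Ideal.mem_span_singleton'.2 ⟨b σ, mul_comm _ _⟩, ?_⟩
    have h2 := (hb σ hσ).2.mul hwk
    have e1 : d - k * a + m * ∑ j ∈ σ, (e j : ℤ) + ((k * a : ℕ) : ℤ)
        = d + m * ∑ j ∈ σ, (e j : ℤ) := by
      push_cast; ring
    rw [e1] at h2
    exact h2
  · intro σ hσ
    rw [kd_mul, ← hb' σ hσ, hc' σ hσ]
    ring

theorem reg_le_of {s : ℕ} {x : Fin s → R} {e : Fin s → ℕ} {I : Ideal R} {B : ℤ}
    (h : ∀ (i : ℕ) (d : ℤ), B < d + i → LCZero 𝒜 x e I i d) :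
    reg 𝒜 x e I ≤ ((B : ℝ) : EReal) := by
  unfold reg
  refine sSup_le ?_
  rintro q ⟨i, d, hn, rfl⟩
  rw [EReal.coe_le_coe_iff]
  have : ¬ B < d + i := fun h' => hn (h i d h')
  exact_mod_cast not_lt.mp this

theorem isGradedFiltration_pow {a : ℕ} {w : R} (hw : w ∈ 𝒜 a) :
    IsGradedFiltration 𝒜 (fun k => Ideal.span {w ^ k}) where
  zero := by simp
  homog := by
    intro k
    refine Ideal.homogeneous_span 𝒜 _ ?_
    intro r hr
    rw [Set.mem_singleton_iff] at hr
    subst hr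
    exact ⟨_, SetLike.pow_mem_graded k hw⟩
  anti := by
    intro k
    rw [Ideal.span_singleton_le_span_singleton]
    exact pow_dvd_pow _ (Nat.le_succ k)
  mul := by
    intro k l
    rw [Ideal.span_singleton_mul_span_singleton, pow_add]

theorem rees_noetherian [IsNoetherianRing R] {a : ℕ} {w : R} (hw : w ∈ 𝒜 a) :
    IsNoetherianRing (rees (isGradedFiltration_pow hw)) := by
  have h1 : ∀ p : R[X], p ∈ reesAlgebra (Ideal.span {w}) ↔
      p ∈ rees (isGradedFiltration_pow hw) := by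
    intro p
    rw [mem_reesAlgebra_iff]
    change _ ↔ ∀ k, p.coeff k ∈ Ideal.span {w ^ k}
    simp only [Ideal.span_singleton_pow]
  let f : reesAlgebra (Ideal.span {w}) →+* rees (isGradedFiltration_pow hw) :=
    { toFun := fun p => ⟨p.1, (h1 _).1 p.2⟩
      map_one' := rfl
      map_mul' := fun _ _ => rfl
      map_zero' := rfl
      map_add' := fun _ _ => rfl }
  refine isNoetherianRing_of_surjective _ _ f ?_
  intro p
  exact ⟨⟨p.1, (h1 _).2 p.2⟩, rfl⟩

theorem le_vNum_principal {a : ℕ} {w : R} (hw : w ∈ 𝒜 a) (hreg : ∀ r, w * r = 0 → r = 0) (B : ℕ)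
    (hB : ∀ j, ∀ g ∈ 𝒜 j, (Submodule.colon (Ideal.span {w}) ({g} : Set R)).IsPrime → B ≤ j)
    (j0 : ℕ) (g0 : R) (hg0 : g0 ∈ 𝒜 j0)
    (hp0 : (Submodule.colon (Ideal.span {w}) ({g0} : Set R)).IsPrime) (k : ℕ) :
    k * a + B ≤ vNum 𝒜 (Ideal.span {w ^ (k + 1)}) := by
  have hwk : w ^ k ∈ 𝒜 (k * a) := by
    have := SetLike.pow_mem_graded k hw
    simpa [smul_eq_mul] using this
  have hregk := pow_reg hreg k
  have hcol : ∀ g : R, Submodule.colon (Ideal.span {w ^ (k + 1)}) ({w ^ k * g} : Set R)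
      = Submodule.colon (Ideal.span {w}) ({g} : Set R) := by
    intro g
    ext r
    rw [Submodule.mem_colon_singleton, Submodule.mem_colon_singleton, smul_eq_mul, smul_eq_mul,
      Ideal.mem_span_singleton', Ideal.mem_span_singleton']
    constructor
    · rintro ⟨q, hq⟩
      refine ⟨q, ?_⟩
      have : w ^ k * (q * w - r * g) = 0 := by
        have : q * w ^ (k + 1) - r * (w ^ k * g) = 0 := by rw [hq, sub_self]
        rw [← this]; ring
      exact sub_eq_zero.1 (hregk _ this)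
    · rintro ⟨q, hq⟩
      refine ⟨q, ?_⟩
      calc q * w ^ (k + 1) = w ^ k * (q * w) := by ring
        _ = r * (w ^ k * g) := by rw [hq]; ring
  unfold vNum
  refine le_csInf ⟨k * a + j0, w ^ k * g0, SetLike.mul_mem_graded hwk hg0, ?_⟩ ?_
  · rw [hcol]; exact hp0
  · rintro d ⟨f, hf, hp⟩
    have h1 : w ^ (k + 1) ∈ Submodule.colon (Ideal.span {w ^ (k + 1)}) ({f} : Set R) := by
      rw [Submodule.mem_colon_singleton, smul_eq_mul, Ideal.mem_span_singleton']
      exact ⟨f, mul_comm _ _⟩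
    have h2 := hp.mem_of_pow_mem _ h1
    rw [Submodule.mem_colon_singleton, smul_eq_mul, Ideal.mem_span_singleton'] at h2
    obtain ⟨g, hg⟩ := h2
    have h3 : f = w ^ k * g := by
      have : w * (w ^ k * g - f) = 0 := by
        have : g * w ^ (k + 1) - w * f = 0 := by rw [hg, sub_self]
        rw [← this]; ring
      exact (sub_eq_zero.1 (hreg _ this)).symm
    rw [h3, hcol] at hp
    rw [h3] at hf
    rcases div_homog hwk hregk hf with h4 | ⟨j, hj, h4⟩
    · exfalso
      apply hp.ne_top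
      rw [Ideal.eq_top_iff_one, Submodule.mem_colon_singleton, h4]
      simp
    · have := hB j g h4 hp
      omega

end princ

end R656V
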