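import Mathlib
import Pool.Agent.R656.VRegDefs

/-!
# Vanishing of the (graded) Koszul cohomology of powers of the variables
-/

namespace R656V

open MvPolynomial Finset

/-- the sign of the Koszul differential -/
def sg {r : ℕ} (j : Fin r) (σ : Finset (Fin r)) : ℤ := (-1 : ℤ) ^ (σ.filter (· < j)).card

lemma sg_mul_self {r : ℕ} (j : Fin r) (σ : Finset (Fin r)) : sg j σ * sg j σ = 1 := by
  unfold sg
  rw [← pow_add, ← two_mul]
  exact Even.neg_one_pow (even_two_mul _)

lemma sg_erase_self {r : ℕ} (j : Fin r) (σ : Finset (Fin r)) : sg j (σ.erase j) = sg j σ := by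
  unfold sg
  congr 2
  ext k
  simp only [mem_filter, mem_erase]
  constructor
  · rintro ⟨⟨_, h⟩, h'⟩; exact ⟨h, h'⟩
  · rintro ⟨h, h'⟩; exact ⟨⟨ne_of_lt h', h⟩, h'⟩

lemma sg_insert_self {r : ℕ} (j : Fin r) (σ : Finset (Fin r)) : sg j (insert j σ) = sg j σ := by
  unfold sg
  congr 2
  ext k
  simp only [mem_filter, mem_insert]
  constructor
  · rintro ⟨h | h, h'⟩
    · exact absurd h (ne_of_lt h')
    · exact ⟨h, h'⟩
  · rintro ⟨h, h'⟩; exact ⟨Or.inr h, h'⟩

lemma sg_insert {r : ℕ} {i j : Fin r} {σ : Finset (Fin r)} (hj : j ∉ σ) :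
    sg i (insert j σ) = if j < i then - sg i σ else sg i σ := by
  unfold sg
  rw [filter_insert]
  split_ifs with h
  · rw [card_insert_of_notMem (by simp [hj]), pow_succ]; ring
  · rfl

lemma sg_erase {r : ℕ} {i j : Fin r} {σ : Finset (Fin r)} (hi : i ∈ σ) :
    sg j (σ.erase i) = if i < j then - sg j σ else sg j σ := by
  have h : sg j σ = sg j (insert i (σ.erase i)) := by rw [insert_erase hi]
  rw [h, sg_insert (notMem_erase i σ)]
  split_ifs <;> ring

lemma sg_swap {r : ℕ} {i j : Fin r} {σ : Finset (Fin r)} (hi : i ∈ σ) (hj : j ∉ σ) :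
    sg i σ * sg j (σ.erase i) = - (sg j σ * sg i (insert j σ)) := by
  rw [sg_insert hj, sg_erase hi]
  have hne : i ≠ j := fun h => hj (h ▸ hi)
  rcases lt_or_gt_of_ne hne with h | h
  · rw [if_pos h, if_neg (not_lt.mpr h.le)]; ring
  · rw [if_neg (not_lt.mpr h.le), if_pos h]; ring

section poly

variable {K : Type} [Field K] {r : ℕ}

/-- weighted homogeneity of degree `D ∈ ℤ`, on coefficients -/
def WH (e : Fin r → ℕ) (D : ℤ) (p : MvPolynomial (Fin r) K) : Prop :=
  ∀ m, coeff m p ≠ 0 → ∑ j, (e j : ℤ) * (m j : ℤ) = D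

/-- the part of `p` supported on the monomials satisfying `P` -/
noncomputable def rst (P : (Fin r →₀ ℕ) → Prop) (p : MvPolynomial (Fin r) K) :
    MvPolynomial (Fin r) K := by
  classical
  exact ∑ m ∈ p.support.filter P, monomial m (coeff m p)

open Classical in
lemma coeff_rst (P : (Fin r →₀ ℕ) → Prop) (p : MvPolynomial (Fin r) K) (m : Fin r →₀ ℕ) :
    coeff m (rst P p) = if P m then coeff m p else 0 := by
  unfold rst
  rw [coeff_sum]
  simp only [coeff_monomial]
  rw [Finset.sum_ite_eq']
  by_cases h : P m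
  · by_cases h' : coeff m p = 0
    · simp [h, h']
    · simp [h, h']
  · simp [h]

lemma coeff_X_pow_smul (j : Fin r) (n : ℕ) (p : MvPolynomial (Fin r) K) (m : Fin r →₀ ℕ) :
    coeff m ((X j : MvPolynomial (Fin r) K) ^ n • p)
      = if n ≤ m j then coeff (m - Finsupp.single j n) p else 0 := by
  rw [smul_eq_mul, X_pow_eq_monomial, coeff_monomial_mul', one_mul]
  simp only [Finsupp.single_le_iff]

lemma coeff_kd (n : ℕ) (c : Finset (Fin r) → MvPolynomial (Fin r) K) (σ : Finset (Fin r))
    (m : Fin r →₀ ℕ) :
    coeff m (kd (X : Fin r → MvPolynomial (Fin r) K) n c σ)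
      = ∑ j ∈ σ, (sg j σ : K) *
          (if n ≤ m j then coeff (m - Finsupp.single j n) (c (σ.erase j)) else 0) := by
  unfold kd
  rw [coeff_sum]
  refine Finset.sum_congr rfl fun j _ => ?_
  have := coeff_X_pow_smul j n (c (σ.erase j)) m
  rw [← this, coeff_smul, zsmul_eq_mul]
  rfl

/-- `j` is a nonnegative Laurent exponent -/
def Gd (n : ℕ) (τ : Finset (Fin r)) (m : Fin r →₀ ℕ) (j : Fin r) : Prop := j ∉ τ ∨ n ≤ m j

/-- `j` is the smallest nonnegative Laurent exponent -/
def IsJ (n : ℕ) (τ : Finset (Fin r)) (m : Fin r →₀ ℕ) (j : Fin r) : Prop :=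
  Gd n τ m j ∧ ∀ k < j, ¬ Gd n τ m k

lemma IsJ.unique {n : ℕ} {τ : Finset (Fin r)} {m : Fin r →₀ ℕ} {j k : Fin r}
    (hj : IsJ n τ m j) (hk : IsJ n τ m k) : j = k := by
  rcases lt_trichotomy j k with h | h | h
  · exact absurd hj.1 (hk.2 j h)
  · exact h
  · exact absurd hk.1 (hj.2 k h)

lemma Gd_erase {n : ℕ} {σ : Finset (Fin r)} {m : Fin r →₀ ℕ} {i j : Fin r}
    (hn : n ≤ m i) : Gd n (σ.erase i) (m - Finsupp.single i n) j ↔ Gd n σ m j := by
  unfold Gd
  by_cases h : j = i
  · subst h
    simp [hn]
  · simp [h, Finsupp.single_eq_of_ne h]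

lemma IsJ_erase {n : ℕ} {σ : Finset (Fin r)} {m : Fin r →₀ ℕ} {i j : Fin r}
    (hn : n ≤ m i) : IsJ n (σ.erase i) (m - Finsupp.single i n) j ↔ IsJ n σ m j := by
  unfold IsJ
  simp only [Gd_erase hn]

/-- the contracting homotopy -/
noncomputable def hty (n : ℕ) (c : Finset (Fin r) → MvPolynomial (Fin r) K)
    (τ : Finset (Fin r)) : MvPolynomial (Fin r) K :=
  ∑ j ∈ univ \ τ, (sg j τ) • rst (fun m => IsJ n τ m j)
    (divMonomial (c (insert j τ)) (Finsupp.single j n))

open Classical in
lemma coeff_hty (n : ℕ) (c : Finset (Fin r) → MvPolynomial (Fin r) K)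
    (τ : Finset (Fin r)) (m : Fin r →₀ ℕ) :
    coeff m (hty n c τ) = ∑ j ∈ univ \ τ, (sg j τ : K) *
      (if IsJ n τ m j then coeff (Finsupp.single j n + m) (c (insert j τ)) else 0) := by
  unfold hty
  rw [coeff_sum]
  refine Finset.sum_congr rfl fun j _ => ?_
  rw [coeff_smul, coeff_rst, coeff_divMonomial, zsmul_eq_mul]

open Classical in
lemma coeff_hty' (n : ℕ) (c : Finset (Fin r) → MvPolynomial (Fin r) K)
    (τ : Finset (Fin r)) (m : Fin r →₀ ℕ) (J : Fin r) (hJ : IsJ n τ m J) :
    coeff m (hty n c τ) =
      if J ∈ τ then 0 else (sg J τ : K) * coeff (Finsupp.single J n + m) (c (insert J τ)) := by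
  rw [coeff_hty]
  split_ifs with h
  · refine Finset.sum_eq_zero fun j hj => ?_
    rw [if_neg, mul_zero]
    intro hj'
    rw [hj'.unique hJ] at hj
    simp [h] at hj
  · rw [Finset.sum_eq_single J]
    · rw [if_pos hJ]
    · intro j _ hne
      rw [if_neg, mul_zero]
      intro hj'
      exact hne (hj'.unique hJ)
    · intro h'
      simp [h] at h'

lemma exists_isJ {n : ℕ} {τ : Finset (Fin r)} {m : Fin r →₀ ℕ} (h : ∃ j, Gd n τ m j) :
    ∃ j, IsJ n τ m j := by
  classical
  obtain ⟨j, hj⟩ := h
  have hne : (univ.filter (fun j => Gd n τ m j)).Nonempty := ⟨j, by simp [hj]⟩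
  refine ⟨(univ.filter (fun j => Gd n τ m j)).min' hne, ?_, ?_⟩
  · have := Finset.min'_mem _ hne
    simpa using this
  · intro k hk hk'
    exact absurd (Finset.min'_le (univ.filter (fun j => Gd n τ m j)) k (by simp [hk']))
      (not_le.mpr hk)

/-- Vanishing of the Koszul cohomology of `X_1 ^ n, …, X_r ^ n` in degrees `i < r` and in degree
`i = r` in internal degrees `> - ∑ e j`. -/
theorem poly_koszul (e : Fin r → ℕ) (i : ℕ) (d : ℤ)
    (h : i = r → - ∑ j, (e j : ℤ) < d)
    (n : ℕ) (c : Finset (Fin r) → MvPolynomial (Fin r) K)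
    (hc : ∀ σ, σ.card = i → WH e (d + n * ∑ j ∈ σ, (e j : ℤ)) (c σ))
    (hcoc : ∀ σ, σ.card = i + 1 → kd (X : Fin r → MvPolynomial (Fin r) K) n c σ = 0) :
    (∀ σ, σ.card + 1 = i → WH e (d + n * ∑ j ∈ σ, (e j : ℤ)) (hty n c σ)) ∧
      ∀ σ, σ.card = i → c σ = kd (X : Fin r → MvPolynomial (Fin r) K) n (hty n c) σ := by
  classical
  constructor
  · intro τ hτ m hm
    rw [coeff_hty] at hm
    obtain ⟨j, hj, hj'⟩ := Finset.exists_ne_zero_of_sum_ne_zero hm
    have hjτ : j ∉ τ := by simpa using hj
    have h2 : coeff (Finsupp.single j n + m) (c (insert j τ)) ≠ 0 := by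
      intro h0
      apply hj'
      rw [h0]; simp
    have h3 := hc (insert j τ) (by rw [card_insert_of_notMem hjτ]; exact hτ) _ h2
    rw [Finset.sum_insert hjτ] at h3
    have h4 : ∑ k, (e k : ℤ) * (((Finsupp.single j n + m) k : ℕ) : ℤ)
        = (n : ℤ) * e j + ∑ k, (e k : ℤ) * (m k : ℤ) := by
      simp only [Finsupp.add_apply, Nat.cast_add, mul_add, Finset.sum_add_distrib]
      congr 1
      rw [Finset.sum_eq_single j]
      · rw [Finsupp.single_eq_same]; ring
      · intro k _ hk
        rw [Finsupp.single_eq_of_ne hk]; simp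
      · intro h'; simp at h'
    rw [h4] at h3
    linarith
  · intro σ hσ
    ext m
    rw [coeff_kd]
    by_cases hex : ∃ j, Gd n σ m j
    · obtain ⟨J, hJ⟩ := exists_isJ hex
      have hterm : ∀ i' ∈ σ, (sg i' σ : K) *
          (if n ≤ m i' then coeff (m - Finsupp.single i' n) (hty n c (σ.erase i')) else 0)
          = (sg i' σ : K) * (if n ≤ m i' then
              (if J ∈ σ.erase i' then 0 else (sg J (σ.erase i') : K) *
                coeff (Finsupp.single J n + (m - Finsupp.single i' n))
                  (c (insert J (σ.erase i')))) else 0) := by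
        intro i' _
        congr 1
        split_ifs with h1 h2
        · rw [coeff_hty' n c _ _ J ((IsJ_erase h1).2 hJ), if_pos h2]
        · rw [coeff_hty' n c _ _ J ((IsJ_erase h1).2 hJ), if_neg h2]
        · rfl
      rw [Finset.sum_congr rfl hterm]
      by_cases hJσ : J ∈ σ
      · have hnJ : n ≤ m J := by
          rcases hJ.1 with h1 | h1
          · exact absurd hJσ h1
          · exact h1
        rw [Finset.sum_eq_single J]
        · rw [if_pos hnJ, if_neg (notMem_erase J σ), insert_erase hJσ, sg_erase_self, ← mul_assoc]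
          have : ((sg J σ : ℤ) : K) * (sg J σ : K) = 1 := by
            rw [← Int.cast_mul, sg_mul_self, Int.cast_one]
          rw [this, one_mul]
          congr 1
          rw [add_tsub_cancel_of_le]
          rwa [Finsupp.single_le_iff]
        · intro i' hi' hne
          split_ifs with h1 h2
          · simp
          · exact absurd (mem_erase.2 ⟨Ne.symm hne, hJσ⟩) h2
          · simp
        · intro h'; exact absurd hJσ h'
      · have hco := hcoc (insert J σ) (by rw [card_insert_of_notMem hJσ, hσ])
        have hco2 := coeff_kd n c (insert J σ) (Finsupp.single J n + m)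
        rw [hco, coeff_zero, Finset.sum_insert hJσ] at hco2
        have e1 : (Finsupp.single J n + m) J = n + m J := by simp
        rw [e1, if_pos (Nat.le_add_right _ _), erase_insert hJσ, sg_insert_self,
          add_tsub_cancel_left] at hco2
        have hterm2 : ∀ i' ∈ σ, (sg i' σ : K) * (if n ≤ m i' then
              (if J ∈ σ.erase i' then 0 else (sg J (σ.erase i') : K) *
                coeff (Finsupp.single J n + (m - Finsupp.single i' n))
                  (c (insert J (σ.erase i')))) else 0)
            = - (sg J σ : K) * ((sg i' (insert J σ) : K) *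
              (if n ≤ (Finsupp.single J n + m) i' then
                coeff (Finsupp.single J n + m - Finsupp.single i' n)
                  (c ((insert J σ).erase i')) else 0)) := by
          intro i' hi'
          have hne : i' ≠ J := fun h' => hJσ (h' ▸ hi')
          have e2 : (Finsupp.single J n + m) i' = m i' := by
            rw [Finsupp.add_apply, Finsupp.single_eq_of_ne hne, zero_add]
          rw [e2, if_neg (fun h' => hJσ (mem_of_mem_erase h'))]
          by_cases h1 : n ≤ m i'
          · rw [if_pos h1, if_pos h1, ← mul_assoc, ← mul_assoc]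
            have hs : ((sg i' σ : ℤ) : K) * (sg J (σ.erase i') : K)
                = - (sg J σ : K) * (sg i' (insert J σ) : K) := by
              rw [← Int.cast_mul, sg_swap hi' hJσ]
              push_cast; ring
            rw [hs]
            congr 2
            · rw [add_tsub_assoc_of_le]
              rwa [Finsupp.single_le_iff]
            · rw [erase_insert_of_ne (Ne.symm hne)]
          · rw [if_neg h1, if_neg h1]; simp
        rw [Finset.sum_congr rfl hterm2, ← Finset.mul_sum]
        have h5 : ∑ i' ∈ σ, ((sg i' (insert J σ) : K) *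
              (if n ≤ (Finsupp.single J n + m) i' then
                coeff (Finsupp.single J n + m - Finsupp.single i' n)
                  (c ((insert J σ).erase i')) else 0)) = - ((sg J σ : K) * coeff m (c σ)) := by
          linear_combination - hco2
        rw [h5]
        have : ((sg J σ : ℤ) : K) * (sg J σ : K) = 1 := by
          rw [← Int.cast_mul, sg_mul_self, Int.cast_one]
        linear_combination (- coeff m (c σ)) * this
    · push Not at hex
      have hall : ∀ j, j ∈ σ ∧ m j < n := by
        intro j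
        have := hex j
        unfold Gd at this
        push Not at this
        exact this
      have hσu : σ = univ := by ext j; simp [(hall j).1]
      have hir : i = r := by rw [← hσ, hσu]; simp
      rw [Finset.sum_eq_zero]
      · by_contra hne
        have h1 := hc σ hσ m hne
        have h2 := h hir
        rw [hσu] at h1
        have h3 : ∑ j, (e j : ℤ) * (m j : ℤ) ≤ ∑ j, (e j : ℤ) * ((n : ℤ) - 1) := by
          refine Finset.sum_le_sum fun j _ => ?_
          refine mul_le_mul_of_nonneg_left ?_ (by positivity)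
          have := (hall j).2
          omega
        rw [← Finset.sum_mul] at h3
        nlinarith
      · intro j _
        rw [if_neg (not_le.mpr (hall j).2), mul_zero]

end poly

end R656V
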