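import Mathlib
import Pool.Agent.R656.VRegDefs
import Pool.Agent.R656.VRegKoszul
import Pool.Agent.R656.VRegGen

/-!
# Weighted polynomial rings: regularity, and the filtration `(x ^ k)`
-/

namespace R656V

open MvPolynomial Finset

section poly

variable {K : Type} [Field K] {r : ℕ}

lemma weight_eq_sum (e : Fin r → ℕ) (m : Fin r →₀ ℕ) :
    ((Finsupp.weight e m : ℕ) : ℤ) = ∑ j, (e j : ℤ) * (m j : ℤ) := by
  rw [Finsupp.weight_apply, Finsupp.sum_fintype _ _ (by simp)]
  push_cast
  refine Finset.sum_congr rfl fun j _ => ?_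
  simp [mul_comm]

lemma inDeg_iff_WH (e : Fin r → ℕ) (D : ℤ) (p : MvPolynomial (Fin r) K) :
    InDeg (weightedHomogeneousSubmodule K e) D p ↔ WH e D p := by
  constructor
  · rintro (h | ⟨m, hm, h⟩)
    · intro a ha
      rw [h] at ha
      simp at ha
    · intro a ha
      rw [← weight_eq_sum, ← hm]
      rw [mem_weightedHomogeneousSubmodule] at h
      exact_mod_cast h ha
  · intro h
    by_cases hp : p = 0
    · exact Or.inl hp
    · right
      obtain ⟨a, ha⟩ := MvPolynomial.ne_zero_iff.1 hp
      refine ⟨Finsupp.weight e a, ?_, ?_⟩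
      · rw [weight_eq_sum]; exact h a ha
      · rw [mem_weightedHomogeneousSubmodule]
        intro b hb
        have h1 := h a ha
        have h2 := h b hb
        rw [← weight_eq_sum] at h1 h2
        have : ((Finsupp.weight e b : ℕ) : ℤ) = Finsupp.weight e a := by rw [h1, h2]
        exact_mod_cast this

theorem poly_LCZero (e : Fin r → ℕ) (i : ℕ) (d : ℤ) (h : i = r → - ∑ j, (e j : ℤ) < d) :
    LCZero (weightedHomogeneousSubmodule K e) (X : Fin r → MvPolynomial (Fin r) K) e ⊤ i d := by
  intro n c hc hcoc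
  obtain ⟨h1, h2⟩ := poly_koszul e i d h n c
    (fun σ hσ => (inDeg_iff_WH e _ _).1 (hc σ hσ).2) hcoc
  refine ⟨n, le_rfl, hty n c, fun σ hσ => ⟨trivial, (inDeg_iff_WH e _ _).2 (h1 σ hσ)⟩, ?_⟩
  intro σ hσ
  rw [Nat.sub_self, pow_zero, one_mul]
  exact h2 σ hσ

lemma constantCoeff_eq_zero_of_pos (e : Fin r → ℕ) {m : ℕ} (hm : 0 < m)
    {p : MvPolynomial (Fin r) K} (hp : p ∈ weightedHomogeneousSubmodule K e m) :
    constantCoeff p = 0 := by
  by_contra h
  rw [mem_weightedHomogeneousSubmodule] at hp
  have h1 := hp (d := 0) h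
  rw [map_zero] at h1
  omega

lemma sub_C_mem_span_X (p : MvPolynomial (Fin r) K) :
    p - C (constantCoeff p) ∈ Ideal.span (Set.range (X : Fin r → MvPolynomial (Fin r) K)) := by
  induction p using MvPolynomial.induction_on with
  | C a => simp
  | add p q hp hq =>
    have : p + q - C (constantCoeff (p + q)) = (p - C (constantCoeff p)) +
        (q - C (constantCoeff q)) := by
      rw [map_add, map_add]; ring
    rw [this]
    exact Ideal.add_mem _ hp hq
  | mul_X p i _ =>
    rw [map_mul, constantCoeff_X, mul_zero, map_zero, sub_zero]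
    exact Ideal.mul_mem_left _ _ (Ideal.subset_span ⟨i, rfl⟩)

lemma mem_span_X_of_constantCoeff {p : MvPolynomial (Fin r) K} (hp : constantCoeff p = 0) :
    p ∈ Ideal.span (Set.range (X : Fin r → MvPolynomial (Fin r) K)) := by
  have := sub_C_mem_span_X p
  rwa [hp, map_zero, sub_zero] at this

end poly

end R656V
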