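import Mathlib
import Pool.Agent.R656.VRegDefs
import Pool.Agent.R656.VRegKoszul
import Pool.Agent.R656.VRegGen
import Pool.Agent.R656.VRegPoly

/-!
# The ring `T ⋉ N(-1)`, `T = ℚ[z,x,y,w]`, `N` the free `ℚ[x,y,w]`-module of rank `5` on which `z`
acts by a nilpotent matrix of linear forms
-/

namespace R656V

open MvPolynomial

/-- `A = ℚ[x,y,w]` -/
abbrev AA : Type := MvPolynomial (Fin 3) ℚ

/-- `T = ℚ[z,x,y,w]` -/
abbrev TT : Type := MvPolynomial (Fin 4) ℚ

/-- the matrix by which `z` acts, in the basis `aa, ab, bb, a, b`: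
`z·aa = -2y a`, `z·ab = x a - y b`, `z·bb = 2x b`, `z·a = x aa + y ab`, `z·b = x ab + y bb`. -/
noncomputable def Zfun (n : Fin 5 → AA) : Fin 5 → AA :=
  ![X 0 * n 3, X 1 * n 3 + X 0 * n 4, X 1 * n 4, -2 * X 1 * n 0 + X 0 * n 1,
    -X 1 * n 1 + 2 * X 0 * n 2]

/-- the action of `z` as a linear map -/
noncomputable def ZZ : Module.End AA (Fin 5 → AA) where
  toFun := Zfun
  map_add' := by
    intro u v
    funext j
    fin_cases j <;> simp [Zfun] <;> ring
  map_smul' := by
    intro a v
    funext j
    fin_cases j <;> simp [Zfun] <;> ring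

/-- the `T`-module structure as a ring homomorphism -/
noncomputable def rho : TT →+* Module.End AA (Fin 5 → AA) :=
  ((Polynomial.aeval ZZ : Polynomial AA →ₐ[AA] Module.End AA (Fin 5 → AA)) :
    Polynomial AA →+* Module.End AA (Fin 5 → AA)).comp
    ((finSuccEquiv ℚ 3 : TT ≃ₐ[ℚ] Polynomial AA) : TT →+* Polynomial AA)

/-- the module `N` -/
def NN : Type := Fin 5 → AA

noncomputable instance : AddCommGroup NN := inferInstanceAs (AddCommGroup (Fin 5 → AA))

noncomputable instance : Module (Module.End AA (Fin 5 → AA)) NN :=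
  inferInstanceAs (Module (Module.End AA (Fin 5 → AA)) (Fin 5 → AA))

noncomputable instance : Module TT NN := Module.compHom NN rho

lemma smul_def' (t : TT) (n : NN) : t • n = rho t n := rfl

lemma X0_smul (n : NN) : (X 0 : TT) • n = Zfun n := by
  rw [smul_def']
  unfold rho
  simp only [RingHom.coe_comp, RingHom.coe_coe, Function.comp_apply, finSuccEquiv_X_zero,
    Polynomial.aeval_X]
  rfl

/-- the inclusion `A → T` -/
noncomputable def up (a : AA) : TT := rename (Fin.succ : Fin 3 → Fin 4) a

lemma finSucc_up (a : AA) : finSuccEquiv ℚ 3 (up a) = Polynomial.C a := by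
  unfold up
  induction a using MvPolynomial.induction_on with
  | C q =>
    rw [rename_C, ← MvPolynomial.algebraMap_eq, AlgEquiv.commutes]
    rfl
  | add p q hp hq => rw [map_add, map_add, hp, hq, map_add]
  | mul_X p i hp => rw [map_mul, map_mul, hp, rename_X, finSuccEquiv_X_succ, map_mul]

lemma up_smul (a : AA) (n : NN) : up a • n = fun j => a * n j := by
  rw [smul_def']
  unfold rho
  simp only [RingHom.coe_comp, RingHom.coe_coe, Function.comp_apply, finSucc_up]
  rw [Polynomial.aeval_C]
  rfl

lemma Xs_smul (i : Fin 3) (n : NN) : (X i.succ : TT) • n = fun j => X i * n j := by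
  have : (X i.succ : TT) = up (X i) := by unfold up; rw [rename_X]
  rw [this, up_smul]

lemma C_smul (q : ℚ) (n : NN) : (C q : TT) • n = fun j => C q * n j := by
  have : (C q : TT) = up (C q) := by unfold up; rw [rename_C]
  rw [this, up_smul]

lemma Xs_pow_smul (i : Fin 3) (k : ℕ) (n : NN) :
    (X i.succ : TT) ^ k • n = fun j => X i ^ k * n j := by
  have : (X i.succ : TT) ^ k = up (X i ^ k) := by unfold up; rw [map_pow, rename_X]
  rw [this, up_smul]

lemma X0_pow5_smul (n : NN) : (X 0 : TT) ^ 5 • n = 0 := by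
  have h : (X 0 : TT) ^ 5 • n = Zfun (Zfun (Zfun (Zfun (Zfun n)))) := by
    rw [← X0_smul, ← X0_smul, ← X0_smul, ← X0_smul, ← X0_smul]
    simp only [← mul_smul]
    congr 1
    ring
  rw [h]
  funext j
  change Zfun (Zfun (Zfun (Zfun (Zfun n)))) j = (0 : AA)
  fin_cases j <;> simp [Zfun] <;> ring

lemma X0_pow_smul {k : ℕ} (hk : 5 ≤ k) (n : NN) : (X 0 : TT) ^ k • n = 0 := by
  obtain ⟨l, rfl⟩ := Nat.exists_eq_add_of_le hk
  rw [add_comm, pow_add, mul_smul, X0_pow5_smul, smul_zero]

/-- the ring `T ⋉ N(-1)` -/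
def RR : Type := TT × NN

namespace RR

noncomputable instance : AddCommGroup RR := inferInstanceAs (AddCommGroup (TT × NN))

noncomputable instance : Mul RR := ⟨fun a b => (a.1 * b.1, a.1 • b.2 + b.1 • a.2)⟩

noncomputable instance : One RR := ⟨(1, 0)⟩

@[simp] lemma fst_add (a b : RR) : (a + b).1 = a.1 + b.1 := rfl
@[simp] lemma snd_add (a b : RR) : (a + b).2 = a.2 + b.2 := rfl
@[simp] lemma fst_neg (a : RR) : (-a).1 = - a.1 := rfl
@[simp] lemma snd_neg (a : RR) : (-a).2 = - a.2 := rfl
@[simp] lemma fst_zero : (0 : RR).1 = 0 := rfl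
@[simp] lemma snd_zero : (0 : RR).2 = 0 := rfl
@[simp] lemma fst_one : (1 : RR).1 = 1 := rfl
@[simp] lemma snd_one : (1 : RR).2 = 0 := rfl
@[simp] lemma fst_mul (a b : RR) : (a * b).1 = a.1 * b.1 := rfl
@[simp] lemma snd_mul (a b : RR) : (a * b).2 = a.1 • b.2 + b.1 • a.2 := rfl

@[ext] lemma ext' {a b : RR} (h1 : a.1 = b.1) (h2 : a.2 = b.2) : a = b := Prod.ext h1 h2

noncomputable instance : CommRing RR :=
  { (inferInstance : AddCommGroup RR), (inferInstance : Mul RR), (inferInstance : One RR) with
    mul_assoc := by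
      intro a b c
      apply ext'
      · simp [mul_assoc]
      · simp only [snd_mul, fst_mul, smul_add, mul_smul]
        rw [smul_comm c.1 a.1 b.2, smul_comm c.1 b.1 a.2]
        abel
    left_distrib := by
      intro a b c
      apply ext'
      · simp [mul_add]
      · simp only [snd_mul, fst_add, snd_add, smul_add, add_smul]
        abel
    right_distrib := by
      intro a b c
      apply ext'
      · simp [add_mul]
      · simp only [snd_mul, fst_add, snd_add, smul_add, add_smul]
        abel
    zero_mul := by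
      intro a
      apply ext' <;> simp
    mul_zero := by
      intro a
      apply ext' <;> simp
    one_mul := by
      intro a
      apply ext' <;> simp
    mul_one := by
      intro a
      apply ext' <;> simp
    mul_comm := by
      intro a b
      apply ext'
      · simp [mul_comm]
      · simp only [snd_mul]
        abel }

/-- the inclusion `T → R` -/
noncomputable def inl : TT →+* RR where
  toFun t := (t, 0)
  map_one' := rfl
  map_zero' := rfl
  map_mul' a b := by
    apply ext'
    · rfl
    · change (0 : NN) = a • (0 : NN) + b • (0 : NN)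
      simp
  map_add' a b := by
    apply ext'
    · rfl
    · change (0 : NN) = 0 + 0
      simp

@[simp] lemma fst_inl (t : TT) : (inl t).1 = t := rfl
@[simp] lemma snd_inl (t : TT) : (inl t).2 = 0 := rfl

/-- the inclusion `N → R` -/
noncomputable def inr (n : NN) : RR := (0, n)

@[simp] lemma fst_inr (n : NN) : (inr n).1 = 0 := rfl
@[simp] lemma snd_inr (n : NN) : (inr n).2 = n := rfl

/-- the projection `R → T` -/
noncomputable def fstHom : RR →+* TT where
  toFun a := a.1
  map_one' := rfl
  map_zero' := rfl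
  map_mul' _ _ := rfl
  map_add' _ _ := rfl

noncomputable instance : Algebra ℚ RR := (inl.comp (C : ℚ →+* TT)).toAlgebra

lemma algebraMap_eq (q : ℚ) : algebraMap ℚ RR q = inl (C q) := rfl

lemma smul_eq (q : ℚ) (a : RR) : q • a = inl (C q) * a := rfl

end RR

end R656V
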