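import Mathlib
import Pool.Agent.R656.VRegDefs
import Pool.Agent.R656.VRegKoszul
import Pool.Agent.R656.VRegGen
import Pool.Agent.R656.VRegPoly
import Pool.Agent.R656.VRegRing

/-!
# The grading of `T ⋉ N(-1)`
-/

namespace R656V

open MvPolynomial

section WHlemmas

variable {K : Type} [Field K] {r : ℕ} {e : Fin r → ℕ}

lemma WH_zero (D : ℤ) : WH e D (0 : MvPolynomial (Fin r) K) := by
  intro m hm
  simp at hm

lemma WH_add {D : ℤ} {p q : MvPolynomial (Fin r) K} (hp : WH e D p) (hq : WH e D q) :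
    WH e D (p + q) := by
  intro m hm
  by_cases h : coeff m p = 0
  · refine hq m ?_
    intro h'
    rw [coeff_add, h, h', add_zero] at hm
    exact hm rfl
  · exact hp m h

lemma WH_mul {D E : ℤ} {p q : MvPolynomial (Fin r) K} (hp : WH e D p) (hq : WH e E q) :
    WH e (D + E) (p * q) := by
  rw [← inDeg_iff_WH] at *
  rcases hp with hp | ⟨m, hm, hp⟩
  · left; rw [hp, zero_mul]
  · rcases hq with hq | ⟨m', hm', hq⟩
    · left; rw [hq, mul_zero]
    · right
      refine ⟨m + m', by push_cast; omega, ?_⟩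
      rw [mem_weightedHomogeneousSubmodule] at *
      exact hp.mul hq

lemma WH_C (c : K) : WH e 0 (C c : MvPolynomial (Fin r) K) := by
  rw [← inDeg_iff_WH]
  right
  refine ⟨0, rfl, ?_⟩
  rw [mem_weightedHomogeneousSubmodule]
  exact isWeightedHomogeneous_C e c

lemma WH_X (i : Fin r) : WH e (e i) (X i : MvPolynomial (Fin r) K) := by
  rw [← inDeg_iff_WH]
  right
  refine ⟨e i, rfl, ?_⟩
  rw [mem_weightedHomogeneousSubmodule]
  exact isWeightedHomogeneous_X K e i

lemma WH_C_mul {D : ℤ} {p : MvPolynomial (Fin r) K} (c : K) (hp : WH e D p) :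
    WH e D (C c * p) := by
  have := WH_mul (WH_C (e := e) c) hp
  rwa [zero_add] at this

lemma WH_neg {D : ℤ} {p : MvPolynomial (Fin r) K} (hp : WH e D p) : WH e D (-p) := by
  have := WH_C_mul (-1) hp
  rwa [map_neg, map_one, neg_one_mul] at this

lemma WH_neg_deg {D : ℤ} (hD : D < 0) {p : MvPolynomial (Fin r) K} (hp : WH e D p) : p = 0 := by
  ext m
  by_contra h
  rw [coeff_zero] at h
  have := hp m h
  rw [← weight_eq_sum] at this
  omega

lemma WH_sum {ι : Type} {D : ℤ} (s : Finset ι) (f : ι → MvPolynomial (Fin r) K)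
    (h : ∀ i ∈ s, WH e D (f i)) : WH e D (∑ i ∈ s, f i) := by
  classical
  induction s using Finset.induction_on with
  | empty => simpa using WH_zero D
  | insert a s ha ih =>
    rw [Finset.sum_insert ha]
    exact WH_add (h a (Finset.mem_insert_self _ _))
      (ih fun i hi => h i (Finset.mem_insert_of_mem hi))

/-- the homogeneous component of degree `D ∈ ℤ` -/
noncomputable def hc (e : Fin r → ℕ) (D : ℤ) (p : MvPolynomial (Fin r) K) :
    MvPolynomial (Fin r) K :=
  rst (fun m => ∑ j, (e j : ℤ) * (m j : ℤ) = D) p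

lemma coeff_hc (D : ℤ) (p : MvPolynomial (Fin r) K) (m : Fin r →₀ ℕ) :
    coeff m (hc e D p) = if ∑ j, (e j : ℤ) * (m j : ℤ) = D then coeff m p else 0 := by
  unfold hc
  rw [coeff_rst]
  congr

lemma WH_hc (D : ℤ) (p : MvPolynomial (Fin r) K) : WH e D (hc e D p) := by
  intro m hm
  rw [coeff_hc] at hm
  by_contra h
  rw [if_neg h] at hm
  exact hm rfl

lemma hc_add (D : ℤ) (p q : MvPolynomial (Fin r) K) : hc e D (p + q) = hc e D p + hc e D q := by
  ext m
  rw [coeff_add, coeff_hc, coeff_hc, coeff_hc, coeff_add]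
  split_ifs <;> simp

lemma hc_same {D : ℤ} {p : MvPolynomial (Fin r) K} (h : WH e D p) : hc e D p = p := by
  ext m
  rw [coeff_hc]
  split_ifs with h'
  · rfl
  · by_contra hne
    exact h' (h m (Ne.symm hne))

lemma hc_ne {D E : ℤ} (hDE : D ≠ E) {p : MvPolynomial (Fin r) K} (h : WH e D p) :
    hc e E p = 0 := by
  ext m
  rw [coeff_hc, coeff_zero]
  split_ifs with h'
  · by_contra hne
    exact hDE ((h m hne).symm.trans h')
  · rfl

/-- a bound for the degrees of the monomials of `p` -/
noncomputable def bd (e : Fin r → ℕ) (p : MvPolynomial (Fin r) K) : ℕ :=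
  1 + ∑ m ∈ p.support, Finsupp.weight e m

lemma lt_bd {p : MvPolynomial (Fin r) K} {m : Fin r →₀ ℕ} (hm : coeff m p ≠ 0) :
    Finsupp.weight e m < bd e p := by
  unfold bd
  have := Finset.single_le_sum (f := fun m => Finsupp.weight e m) (s := p.support)
    (fun _ _ => Nat.zero_le _) (mem_support_iff.2 hm)
  omega

lemma sum_hc {B : ℕ} (c : ℤ) (hc0 : 0 ≤ c) {p : MvPolynomial (Fin r) K} (hB : bd e p + c ≤ B) :
    ∑ d ∈ Finset.range B, hc e ((d : ℤ) - c) p = p := by
  ext m
  rw [coeff_sum]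
  simp only [coeff_hc]
  by_cases hm : coeff m p = 0
  · simp [hm]
  · have h1 := lt_bd (e := e) hm
    obtain ⟨c', rfl⟩ := Int.eq_ofNat_of_zero_le hc0
    rw [Finset.sum_eq_single (Finsupp.weight e m + c')]
    · rw [if_pos]
      rw [← weight_eq_sum]; push_cast; ring
    · intro d _ hd
      rw [if_neg]
      intro h
      rw [← weight_eq_sum] at h
      apply hd
      omega
    · intro h
      exfalso
      apply h
      rw [Finset.mem_range]
      push_cast at hB
      omega

lemma hc_large {D : ℤ} {p : MvPolynomial (Fin r) K} (hB : (bd e p : ℤ) ≤ D) :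
    hc e D p = 0 := by
  ext m
  rw [coeff_hc, coeff_zero]
  split_ifs with h'
  · by_contra hne
    have h1 := lt_bd (e := e) hne
    rw [← weight_eq_sum] at h'
    omega
  · rfl

end WHlemmas

/-- all variables have degree one -/
abbrev e1 (r : ℕ) : Fin r → ℕ := fun _ => 1

/-- `n` is homogeneous of degree `E` in `N` (generators in degree `0`) -/
def HN (E : ℤ) (n : NN) : Prop := ∀ j : Fin 5, WH (e1 3) E (n j)

lemma HN_zero (E : ℤ) : HN E 0 := fun _ => WH_zero E

lemma HN_add {E : ℤ} {n n' : NN} (h : HN E n) (h' : HN E n') : HN E (n + n') :=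
  fun j => WH_add (h j) (h' j)

lemma HN_sum {ι : Type} {E : ℤ} (s : Finset ι) (f : ι → NN) (h : ∀ i ∈ s, HN E (f i)) :
    HN E (∑ i ∈ s, f i) := by
  classical
  induction s using Finset.induction_on with
  | empty => simpa using HN_zero E
  | insert a s ha ih =>
    rw [Finset.sum_insert ha]
    exact HN_add (h a (Finset.mem_insert_self _ _))
      (ih fun i hi => h i (Finset.mem_insert_of_mem hi))

/-- `t` acts as an operator of degree `D` -/
def Op (D : ℤ) (t : TT) : Prop := ∀ (E : ℤ) (n : NN), HN E n → HN (D + E) (t • n)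

lemma Op_C (q : ℚ) : Op 0 (C q) := by
  intro E n hn j
  rw [C_smul, zero_add]
  exact WH_C_mul _ (hn j)

lemma Op_X (i : Fin 4) : Op 1 (X i) := by
  intro E n hn
  refine Fin.cases ?_ (fun i => ?_) i
  · have hX : ∀ (i : Fin 3) (j : Fin 5), WH (e1 3) (1 + E) (X i * n j) := by
      intro i j
      have := WH_mul (WH_X (K := ℚ) (e := e1 3) i) (hn j)
      simpa using this
    intro j
    rw [X0_smul]
    fin_cases j
    · exact hX 0 3
    · exact WH_add (hX 1 3) (hX 0 4)
    · exact hX 1 4
    · have h1 := WH_C_mul (-2) (hX 1 0)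
      have h2 := WH_add h1 (hX 0 1)
      have : (C (-2 : ℚ) * (X 1 * n 0) + X 0 * n 1 : AA) = Zfun n 3 := by
        simp only [Zfun]
        rw [map_neg]
        have : (C (2 : ℚ) : AA) = 2 := map_ofNat C 2
        rw [this]
        simp
        ring
      rw [this] at h2
      exact h2
    · have h1 := WH_C_mul (2) (hX 0 2)
      have h2 := WH_add (WH_neg (hX 1 1)) h1
      have : (-(X 1 * n 1) + C (2 : ℚ) * (X 0 * n 2) : AA) = Zfun n 4 := by
        simp only [Zfun]
        have : (C (2 : ℚ) : AA) = 2 := map_ofNat C 2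
        rw [this]
        simp
        ring
      rw [this] at h2
      exact h2
  · intro j
    rw [Xs_smul]
    have := WH_mul (WH_X (K := ℚ) (e := e1 3) i) (hn j)
    simpa using this

lemma Op_mul {D E : ℤ} {s t : TT} (hs : Op D s) (ht : Op E t) : Op (D + E) (s * t) := by
  intro F n hn
  rw [mul_smul, add_assoc]
  exact hs _ _ (ht _ _ hn)

lemma Op_pow {t : TT} (ht : Op 1 t) (k : ℕ) : Op k (t ^ k) := by
  induction k with
  | zero =>
    intro E n hn
    simpa using hn
  | succ k ih =>
    rw [pow_succ]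
    push_cast
    exact Op_mul ih ht

lemma Op_monomial (m : Fin 4 →₀ ℕ) (c : ℚ) :
    Op (∑ j, ((e1 4 j : ℕ) : ℤ) * (m j : ℤ)) (monomial m c) := by
  rw [MvPolynomial.monomial_eq, Finsupp.prod_fintype _ _ (by simp), Fin.prod_univ_four]
  have h := Op_mul (Op_C c) (Op_mul (Op_mul (Op_mul (Op_pow (Op_X 0) (m 0))
    (Op_pow (Op_X 1) (m 1))) (Op_pow (Op_X 2) (m 2))) (Op_pow (Op_X 3) (m 3)))
  have e2 : (∑ j, ((e1 4 j : ℕ) : ℤ) * (m j : ℤ)) = 0 + ((m 0 : ℤ) + m 1 + m 2 + m 3) := by
    rw [Fin.sum_univ_four]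
    simp
  rw [e2]
  exact h

lemma HN_smul {D E : ℤ} {t : TT} {n : NN} (ht : WH (e1 4) D t) (hn : HN E n) :
    HN (D + E) (t • n) := by
  rw [t.as_sum, Finset.sum_smul]
  refine HN_sum _ _ ?_
  intro m hm
  have h1 := ht m (mem_support_iff.1 hm)
  have h2 := Op_monomial m (coeff m t) E n hn
  rwa [h1] at h2

/-- the degree-`d` part of `R` -/
noncomputable def gr (d : ℕ) : Submodule ℚ RR where
  carrier := {a | WH (e1 4) d a.1 ∧ HN ((d : ℤ) - 1) a.2}
  add_mem' := by
    rintro a b ⟨h1, h2⟩ ⟨h3, h4⟩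
    exact ⟨WH_add h1 h3, HN_add h2 h4⟩
  zero_mem' := ⟨WH_zero _, HN_zero _⟩
  smul_mem' := by
    rintro q a ⟨h1, h2⟩
    rw [RR.smul_eq]
    refine ⟨WH_C_mul q h1, ?_⟩
    rw [RR.snd_mul, RR.fst_inl, RR.snd_inl, smul_zero, add_zero]
    have := HN_smul (WH_C q) h2
    rwa [zero_add] at this

lemma mem_gr {d : ℕ} {a : RR} : a ∈ gr d ↔ WH (e1 4) d a.1 ∧ HN ((d : ℤ) - 1) a.2 := Iff.rfl

instance gr_gradedMonoid : SetLike.GradedMonoid gr where
  one_mem := ⟨by
    have := WH_C (e := e1 4) (1 : ℚ)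
    rw [map_one] at this
    exact this, HN_zero _⟩
  mul_mem := by
    rintro i j a b ⟨h1, h2⟩ ⟨h3, h4⟩
    refine ⟨?_, ?_⟩
    · have := WH_mul h1 h3
      rw [RR.fst_mul]
      push_cast
      exact this
    · rw [RR.snd_mul]
      refine HN_add ?_ ?_
      · have := HN_smul h1 h4
        have e2 : ((i + j : ℕ) : ℤ) - 1 = i + ((j : ℤ) - 1) := by push_cast; ring
        rw [e2]; exact this
      · have := HN_smul h3 h2
        have e2 : ((i + j : ℕ) : ℤ) - 1 = j + ((i : ℤ) - 1) := by push_cast; ring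
        rw [e2]; exact this

/-- the projection onto the degree-`d` part -/
noncomputable def pr (d : ℕ) (a : RR) : RR :=
  (hc (e1 4) d a.1, fun j => hc (e1 3) ((d : ℤ) - 1) (a.2 j))

lemma pr_mem (d : ℕ) (a : RR) : pr d a ∈ gr d := ⟨WH_hc _ _, fun _ => WH_hc _ _⟩

lemma pr_add (d : ℕ) (a b : RR) : pr d (a + b) = pr d a + pr d b := by
  apply RR.ext'
  · exact hc_add _ _ _
  · funext j
    exact hc_add _ _ _

lemma pr_zero (d : ℕ) : pr d 0 = 0 := by
  have := pr_add d 0 0
  rw [add_zero] at this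
  simpa using this

lemma pr_same {d : ℕ} {a : RR} (h : a ∈ gr d) : pr d a = a := by
  apply RR.ext'
  · exact hc_same h.1
  · funext j
    exact hc_same (h.2 j)

lemma pr_ne {d d' : ℕ} (hd : d ≠ d') {a : RR} (h : a ∈ gr d) : pr d' a = 0 := by
  apply RR.ext'
  · exact hc_ne (by exact_mod_cast hd) h.1
  · funext j
    exact hc_ne (by omega) (h.2 j)

/-- a bound for the degrees occurring in `a` -/
noncomputable def bR (a : RR) : ℕ := bd (e1 4) a.1 + ∑ j : Fin 5, bd (e1 3) (a.2 j) + 1

lemma le_sum_bd (a : RR) (j : Fin 5) :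
    bd (e1 3) (a.2 j) ≤ ∑ j : Fin 5, bd (e1 3) (a.2 j) :=
  Finset.single_le_sum (f := fun j : Fin 5 => bd (e1 3) (a.2 j)) (s := Finset.univ)
      (fun _ _ => Nat.zero_le _) (Finset.mem_univ j)

lemma pr_large {d : ℕ} {a : RR} (h : bR a ≤ d) : pr d a = 0 := by
  unfold bR at h
  apply RR.ext'
  · refine hc_large ?_
    omega
  · funext j
    refine hc_large ?_
    have := le_sum_bd a j
    omega

lemma fst_sum {ι : Type} (s : Finset ι) (f : ι → RR) : (∑ i ∈ s, f i).1 = ∑ i ∈ s, (f i).1 :=
  map_sum RR.fstHom f s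

lemma snd_sum {ι : Type} (s : Finset ι) (f : ι → RR) : (∑ i ∈ s, f i).2 = ∑ i ∈ s, (f i).2 := by
  classical
  induction s using Finset.induction_on with
  | empty => simp
  | insert a s ha ih => rw [Finset.sum_insert ha, Finset.sum_insert ha, RR.snd_add, ih]

lemma NN_sum_apply {ι : Type} (s : Finset ι) (f : ι → NN) (j : Fin 5) :
    (∑ i ∈ s, f i) j = ∑ i ∈ s, (f i) j := by
  classical
  induction s using Finset.induction_on with
  | empty => rfl
  | insert a s ha ih =>
    rw [Finset.sum_insert ha, Finset.sum_insert ha, ← ih]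
    rfl

lemma sum_pr (a : RR) : ∑ d ∈ Finset.range (bR a), pr d a = a := by
  apply RR.ext'
  · rw [fst_sum]
    have := sum_hc (e := e1 4) (B := bR a) 0 le_rfl (p := a.1) (by unfold bR; omega)
    simp only [sub_zero] at this
    exact this
  · rw [snd_sum]
    funext j
    rw [NN_sum_apply]
    refine sum_hc (e := e1 3) (B := bR a) 1 (by norm_num) (p := a.2 j) ?_
    have := le_sum_bd a j
    unfold bR
    push_cast
    have h2 : ((bd (e1 3) (a.2 j) : ℕ) : ℤ) ≤ ((∑ j : Fin 5, bd (e1 3) (a.2 j) : ℕ) : ℤ) := by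
      exact_mod_cast this
    push_cast at h2
    omega

open DirectSum in
noncomputable instance gr_decomposition : DirectSum.Decomposition gr where
  decompose' a := ∑ d ∈ Finset.range (bR a), DirectSum.of (fun i => gr i) d ⟨pr d a, pr_mem d a⟩
  left_inv := by
    intro a
    rw [map_sum]
    simp only [DirectSum.coeAddMonoidHom_of]
    exact sum_pr a
  right_inv := by
    intro x
    have key : ∀ (a : RR) (d : ℕ), (((∑ d ∈ Finset.range (bR a),
        DirectSum.of (fun i => gr i) d ⟨pr d a, pr_mem d a⟩ : ⨁ i, gr i) d : gr d) : RR)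
        = pr d a := by
      intro a d
      rw [DirectSum.sum_apply]
      by_cases hd : d < bR a
      · rw [Finset.sum_eq_single d]
        · rw [DirectSum.of_eq_same]
        · intro b _ hb
          exact DirectSum.of_eq_of_ne _ _ _ (Ne.symm hb)
        · intro h
          exact absurd (Finset.mem_range.2 hd) h
      · rw [pr_large (not_lt.1 hd), Finset.sum_eq_zero]
        · rfl
        · intro b hb
          refine DirectSum.of_eq_of_ne _ _ _ ?_
          rw [Finset.mem_range] at hb
          omega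
    have key2 : ∀ (x : ⨁ i, gr i) (d : ℕ),
        pr d (DirectSum.coeAddMonoidHom gr x) = ((x d : gr d) : RR) := by
      intro x d
      induction x using DirectSum.induction_on with
      | zero => rw [map_zero, pr_zero]; rfl
      | of i y =>
        rw [DirectSum.coeAddMonoidHom_of]
        by_cases hi : i = d
        · subst hi
          rw [pr_same y.2, DirectSum.of_eq_same]
        · rw [pr_ne hi y.2, DirectSum.of_eq_of_ne _ _ _ (Ne.symm hi)]
          rfl
      | add x y hx hy =>
        rw [map_add, pr_add, hx, hy]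
        rfl
    refine DFinsupp.ext fun d => Subtype.ext ?_
    rw [← key2 x d]
    exact key _ d

noncomputable instance gr_gradedAlgebra : GradedAlgebra gr :=
  { gr_gradedMonoid, gr_decomposition with }

end R656V
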