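import Mathlib
import Pool.Agent.R656.VRegDefs
import Pool.Agent.R656.VRegKoszul
import Pool.Agent.R656.VRegGen
import Pool.Agent.R656.VRegPoly
import Pool.Agent.R656.VRegRing
import Pool.Agent.R656.VRegGrade

/-!
# Local cohomology of `T ⋉ N(-1)`
-/

namespace R656V

open MvPolynomial

/-- Koszul cochains at level `n` pushed to level `m`. -/
lemma kd_push {R M : Type} [CommRing R] [AddCommGroup M] [Module R M] {s : ℕ} (x : Fin s → R)
    {n m : ℕ} (hnm : n ≤ m) (c : Finset (Fin s) → M) (σ : Finset (Fin s)) :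
    kd x m (fun τ => (∏ j ∈ τ, x j) ^ (m - n) • c τ) σ
      = (∏ j ∈ σ, x j) ^ (m - n) • kd x n c σ := by
  unfold kd
  rw [Finset.smul_sum]
  refine Finset.sum_congr rfl fun j hj => ?_
  rw [smul_comm ((∏ j ∈ σ, x j) ^ (m - n)) ((-1 : ℤ) ^ _)]
  congr 1
  rw [← mul_smul, ← mul_smul, ← Finset.mul_prod_erase σ x hj, mul_pow]
  congr 1
  have : x j ^ m = x j ^ (m - n) * x j ^ n := by rw [← pow_add, Nat.sub_add_cancel hnm]
  rw [this]
  ring

/-- the parameter sequence `z, x, y, w` of `R` -/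
noncomputable def xx : Fin 4 → RR := fun j => RR.inl (X j)

lemma kd_fst (n : ℕ) (c : Finset (Fin 4) → RR) (σ : Finset (Fin 4)) :
    (kd xx n c σ).1 = kd (X : Fin 4 → TT) n (fun τ => (c τ).1) σ := by
  unfold kd
  rw [fst_sum]
  refine Finset.sum_congr rfl fun j _ => ?_
  have h1 : ∀ (z : ℤ) (a : RR), (z • a).1 = z • a.1 := fun z a => map_zsmul RR.fstHom z a
  rw [h1]
  congr 1
  unfold xx
  rw [← map_pow, smul_eq_mul, RR.fst_mul, RR.fst_inl]
  rfl

lemma kd_snd (n : ℕ) (c : Finset (Fin 4) → RR) (σ : Finset (Fin 4)) :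
    (kd xx n c σ).2 = kd (X : Fin 4 → TT) n (fun τ => (c τ).2) σ := by
  unfold kd
  rw [snd_sum]
  refine Finset.sum_congr rfl fun j _ => ?_
  have h1 : ∀ (z : ℤ) (a : RR), (z • a).2 = z • a.2 := fun z a => rfl
  rw [h1]
  congr 1
  unfold xx
  rw [← map_pow, smul_eq_mul, RR.snd_mul, RR.fst_inl, RR.snd_inl, smul_zero, add_zero]

/-- the embedding of index sets -/
def sE : Fin 3 ↪ Fin 4 := ⟨Fin.succ, Fin.succ_injective 3⟩

lemma kd_up (m : ℕ) (c : Finset (Fin 4) → NN) (τ : Finset (Fin 3)) (j : Fin 5) :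
    (kd (X : Fin 4 → TT) m c (τ.map sE)) j
      = kd (X : Fin 3 → AA) m (fun τ' => c (τ'.map sE) j) τ := by
  unfold kd
  rw [Finset.sum_map, NN_sum_apply]
  refine Finset.sum_congr rfl fun i hi => ?_
  have h1 : ∀ (z : ℤ) (a : NN), (z • a) j = z • a j := fun z a => rfl
  rw [h1]
  have h2 : ((τ.map sE).filter (· < sE i)).card = (τ.filter (· < i)).card := by
    have : (τ.map sE).filter (· < sE i) = (τ.filter (· < i)).map sE := by
      ext k
      simp only [Finset.mem_filter, Finset.mem_map]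
      constructor
      · rintro ⟨⟨a, ha, rfl⟩, hk⟩
        exact ⟨a, ⟨ha, Fin.succ_lt_succ_iff.1 hk⟩, rfl⟩
      · rintro ⟨a, ⟨ha, hk⟩, rfl⟩
        exact ⟨⟨a, ha, rfl⟩, Fin.succ_lt_succ_iff.2 hk⟩
    rw [this, Finset.card_map]
  rw [h2]
  congr 1
  have h3 : (τ.map sE).erase (sE i) = (τ.erase i).map sE := (Finset.map_erase _ _ _).symm
  rw [h3]
  have h4 : (X (sE i) : TT) = X i.succ := rfl
  rw [h4, Xs_pow_smul]
  rfl

/-- restriction of index sets -/
def dn (σ : Finset (Fin 4)) : Finset (Fin 3) := Finset.univ.filter (fun i : Fin 3 => i.succ ∈ σ)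

lemma dn_map (τ : Finset (Fin 3)) : dn (τ.map sE) = τ := by
  ext k
  unfold dn
  simp only [Finset.mem_filter, Finset.mem_univ, true_and, Finset.mem_map]
  constructor
  · rintro ⟨a, ha, hk⟩
    have := Fin.succ_injective 3 hk
    rwa [← this]
  · intro h
    exact ⟨k, h, rfl⟩

lemma map_dn {σ : Finset (Fin 4)} (h : (0 : Fin 4) ∉ σ) : (dn σ).map sE = σ := by
  ext k
  unfold dn
  simp only [Finset.mem_filter, Finset.mem_univ, true_and, Finset.mem_map]
  constructor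
  · rintro ⟨a, ha, rfl⟩
    exact ha
  · intro hk
    have hk0 : k ≠ 0 := fun h' => h (h' ▸ hk)
    obtain ⟨a, rfl⟩ := Fin.exists_succ_eq.2 hk0
    exact ⟨a, hk, rfl⟩

lemma sum_e1 {r : ℕ} (σ : Finset (Fin r)) : ∑ j ∈ σ, ((e1 r j : ℕ) : ℤ) = σ.card := by
  simp

theorem NN_koszul (i : ℕ) (d : ℤ) (h : 0 < d + i) (m : ℕ) (hm : 5 ≤ m)
    (c : Finset (Fin 4) → NN)
    (hc0 : ∀ σ, σ.card = i → (0 : Fin 4) ∈ σ → c σ = 0)
    (hc : ∀ σ, σ.card = i → HN (d + m * (σ.card : ℤ)) (c σ))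
    (hcoc : ∀ σ, σ.card = i + 1 → kd (X : Fin 4 → TT) m c σ = 0) :
    ∃ b : Finset (Fin 4) → NN,
      (∀ σ, σ.card + 1 = i → HN (d + m * (σ.card : ℤ)) (b σ)) ∧
      ∀ σ, σ.card = i → c σ = kd (X : Fin 4 → TT) m b σ := by
  classical
  have key := fun j : Fin 5 => poly_koszul (K := ℚ) (e1 3) i d (by
      intro hi
      rw [Fin.sum_univ_three]
      subst hi
      push_cast at h ⊢
      linarith) m (fun τ => c (τ.map sE) j) (by
      intro τ hτ
      rw [sum_e1]
      have := hc (τ.map sE) (by rw [Finset.card_map]; exact hτ) j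
      rwa [Finset.card_map] at this) (by
      intro τ hτ
      rw [← kd_up, hcoc (τ.map sE) (by rw [Finset.card_map]; exact hτ)]
      rfl)
  let b3 : Fin 5 → Finset (Fin 3) → AA := fun j => hty m (fun τ => c (τ.map sE) j)
  let b : Finset (Fin 4) → NN := fun σ => if (0 : Fin 4) ∈ σ then 0 else fun j => b3 j (dn σ)
  have hb1 : ∀ σ, (0 : Fin 4) ∈ σ → b σ = 0 := fun σ hσ => if_pos hσ
  have hb2 : ∀ σ, (0 : Fin 4) ∉ σ → b σ = fun j => b3 j (dn σ) := fun σ hσ => if_neg hσ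
  have hmap0 : ∀ τ : Finset (Fin 3), (0 : Fin 4) ∉ τ.map sE := by
    intro τ h0
    rw [Finset.mem_map] at h0
    obtain ⟨a, _, ha⟩ := h0
    exact Fin.succ_ne_zero a ha
  refine ⟨b, ?_, ?_⟩
  · intro σ hσ
    by_cases h0 : (0 : Fin 4) ∈ σ
    · rw [hb1 σ h0]; exact HN_zero _
    · rw [hb2 σ h0]
      have hcard : (dn σ).card = σ.card := by
        conv_rhs => rw [← map_dn h0]
        rw [Finset.card_map]
      intro j
      have := (key j).1 (dn σ) (by rw [hcard]; exact hσ)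
      rw [sum_e1, hcard] at this
      exact this
  · intro σ hσ
    by_cases h0 : (0 : Fin 4) ∈ σ
    · rw [hc0 σ hσ h0]
      unfold kd
      rw [Finset.sum_eq_zero]
      intro k hk
      by_cases hk0 : k = 0
      · subst hk0
        rw [X0_pow_smul hm, smul_zero]
      · rw [hb1 (σ.erase k) (Finset.mem_erase.2 ⟨Ne.symm hk0, h0⟩), smul_zero, smul_zero]
    · have hcard : (dn σ).card = σ.card := by
        conv_rhs => rw [← map_dn h0]
        rw [Finset.card_map]
      funext j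
      have h1 := (key j).2 (dn σ) (by rw [hcard]; exact hσ)
      have h2 := kd_up m b (dn σ) j
      rw [map_dn h0] at h1 h2
      rw [h2]
      have h3 : (fun τ' : Finset (Fin 3) => b (τ'.map sE) j) = b3 j := by
        funext τ'
        rw [hb2 _ (hmap0 τ'), dn_map]
      rw [h3]
      exact h1

lemma inDeg_gr_iff (D : ℤ) (a : RR) : InDeg gr D a ↔ WH (e1 4) D a.1 ∧ HN (D - 1) a.2 := by
  constructor
  · rintro (h | ⟨m, rfl, h⟩)
    · rw [h]
      exact ⟨WH_zero _, HN_zero _⟩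
    · exact h
  · rintro ⟨h1, h2⟩
    by_cases hD : D < 0
    · left
      apply RR.ext'
      · exact WH_neg_deg hD h1
      · funext j
        exact WH_neg_deg (by omega) (h2 j)
    · right
      obtain ⟨m, rfl⟩ := Int.eq_ofNat_of_zero_le (not_lt.1 hD)
      exact ⟨m, rfl, h1, h2⟩

lemma xx_mem (j : Fin 4) : xx j ∈ gr 1 := ⟨WH_X (K := ℚ) (e := e1 4) j, HN_zero _⟩

lemma prod_xx_mem (σ : Finset (Fin 4)) : ∏ j ∈ σ, xx j ∈ gr σ.card := by
  classical
  induction σ using Finset.induction_on with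
  | empty => simpa using SetLike.one_mem_graded gr
  | insert a s ha ih =>
    rw [Finset.prod_insert ha, Finset.card_insert_of_notMem ha, add_comm]
    exact SetLike.mul_mem_graded (xx_mem a) ih

theorem RR_LCZero (i : ℕ) (d : ℤ) (h : 1 < d + i) : LCZero gr xx (e1 4) ⊤ i d := by
  classical
  intro n c hc hcoc
  let m := n + 5
  have hnm : n ≤ m := Nat.le_add_right _ _
  let c' : Finset (Fin 4) → RR := fun σ => (∏ j ∈ σ, xx j) ^ (m - n) • c σ
  have hcoc' : ∀ σ, σ.card = i + 1 → kd xx m c' σ = 0 := by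
    intro σ hσ
    rw [kd_push xx hnm c σ, hcoc σ hσ, smul_zero]
  have hdeg : ∀ σ, σ.card = i → InDeg gr (d + m * (σ.card : ℤ)) (c' σ) := by
    intro σ hσ
    have h1 := (hc σ hσ).2
    have h2 : (∏ j ∈ σ, xx j) ^ (m - n) ∈ gr ((m - n) * σ.card) := by
      have := SetLike.pow_mem_graded (m - n) (prod_xx_mem σ)
      simpa [smul_eq_mul] using this
    have h3 := h1.mul h2
    rw [sum_e1] at h3
    have e : d + n * (σ.card : ℤ) + (((m - n) * σ.card : ℕ) : ℤ) = d + m * (σ.card : ℤ) := by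
      rw [Nat.cast_mul, Nat.cast_sub hnm]; ring
    rw [e] at h3
    exact h3
  have hT := poly_koszul (K := ℚ) (e1 4) i d (by
    intro hi
    rw [Fin.sum_univ_four]
    subst hi
    push_cast at h ⊢
    linarith) m (fun σ => (c' σ).1) (by
    intro σ hσ
    rw [sum_e1]
    exact ((inDeg_gr_iff _ _).1 (hdeg σ hσ)).1) (by
    intro σ hσ
    have := hcoc' σ hσ
    rw [← kd_fst, this]
    rfl)
  obtain ⟨b2, hb2, hb2'⟩ := NN_koszul i (d - 1) (by linarith) m (by omega)
    (fun σ => (c' σ).2) (by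
    intro σ _ h0
    change ((∏ j ∈ σ, xx j) ^ (m - n) * c σ).2 = 0
    have h1 : ∏ j ∈ σ, xx j = RR.inl (∏ j ∈ σ, X j) := by
      unfold xx
      rw [map_prod]
    rw [h1, ← map_pow, RR.snd_mul, RR.fst_inl, RR.snd_inl, smul_zero, add_zero,
      ← Finset.mul_prod_erase σ _ h0, mul_pow, mul_smul]
    exact X0_pow_smul (by omega) _) (by
    intro σ hσ
    have := ((inDeg_gr_iff _ _).1 (hdeg σ hσ)).2
    have e : d - 1 + m * (σ.card : ℤ) = d + m * (σ.card : ℤ) - 1 := by ring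
    rw [e]
    exact this) (by
    intro σ hσ
    have := hcoc' σ hσ
    rw [← kd_snd, this]
    rfl)
  obtain ⟨B, hB1, hB2⟩ : ∃ B : Finset (Fin 4) → RR,
      (∀ σ, (B σ).1 = hty m (fun σ => (c' σ).1) σ) ∧ ∀ σ, (B σ).2 = b2 σ :=
    ⟨fun σ => (hty m (fun σ => (c' σ).1) σ, b2 σ), fun _ => rfl, fun _ => rfl⟩
  refine ⟨m, hnm, B, ?_, ?_⟩
  · intro σ hσ
    refine ⟨trivial, ?_⟩
    rw [inDeg_gr_iff, hB1, hB2]
    refine ⟨hT.1 σ hσ, ?_⟩
    have := hb2 σ hσ
    rw [sum_e1]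
    have e : d + m * (σ.card : ℤ) - 1 = d - 1 + m * (σ.card : ℤ) := by ring
    rw [e]
    exact this
  · intro σ hσ
    apply RR.ext'
    · rw [kd_fst]
      have : (fun τ => (B τ).1) = hty m (fun σ => (c' σ).1) := funext hB1
      rw [this]
      exact hT.2 σ hσ
    · rw [kd_snd]
      have : (fun τ => (B τ).2) = b2 := funext hB2
      rw [this]
      exact hb2' σ hσ

end R656V
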