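import Mathlib
import Pool.Agent.R656.VRegDefs
import Pool.Agent.R656.VRegKoszul
import Pool.Agent.R656.VRegGen
import Pool.Agent.R656.VRegPoly
import Pool.Agent.R656.VRegRing
import Pool.Agent.R656.VRegGrade

/-!
# The v-number of `(w)` in `T ⋉ N(-1)`
-/

namespace R656V

open MvPolynomial

/-- the element `w` -/
noncomputable def ww : RR := RR.inl (X 3)

lemma X3_smul (n : NN) : (X 3 : TT) • n = fun j => X 2 * n j := Xs_smul 2 n

lemma mem_span_ww (r : RR) : r ∈ Ideal.span {ww} ↔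
    (X 3 : TT) ∣ r.1 ∧ ∀ j : Fin 5, (X 2 : AA) ∣ r.2 j := by
  rw [Ideal.mem_span_singleton']
  constructor
  · rintro ⟨q, rfl⟩
    refine ⟨⟨q.1, ?_⟩, ?_⟩
    · rw [RR.fst_mul]; exact mul_comm _ _
    · intro j
      rw [RR.snd_mul]
      have h1 : (ww : RR).2 = 0 := rfl
      have h2 : (ww : RR).1 = X 3 := rfl
      rw [h1, h2, smul_zero, zero_add, X3_smul]
      exact ⟨_, rfl⟩
  · rintro ⟨⟨q, hq⟩, h⟩
    choose f hf using h
    obtain ⟨a, ha1, ha2⟩ : ∃ a : RR, a.1 = q ∧ a.2 = f := ⟨(q, f), rfl, rfl⟩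
    refine ⟨a, ?_⟩
    apply RR.ext'
    · rw [RR.fst_mul, hq, ha1]; exact mul_comm _ _
    · rw [RR.snd_mul]
      have h1 : (ww : RR).2 = 0 := rfl
      have h2 : (ww : RR).1 = X 3 := rfl
      rw [h1, h2, smul_zero, zero_add, X3_smul, ha2]
      funext j
      exact (hf j).symm

lemma ww_mem : ww ∈ gr 1 := by
  exact ⟨WH_X (K := ℚ) (e := e1 4) 3, HN_zero _⟩

lemma ww_reg (r : RR) (h : ww * r = 0) : r = 0 := by
  have h1 : (X 3 : TT) * r.1 = 0 := congrArg RR.fstHom h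
  have h2 : (X 3 : TT) • r.2 = 0 := by
    have : (ww * r).2 = 0 := by rw [h]; rfl
    rw [RR.snd_mul] at this
    have h3 : (ww : RR).2 = 0 := rfl
    rw [h3, smul_zero, add_zero] at this
    exact this
  apply RR.ext'
  · rcases mul_eq_zero.1 h1 with h3 | h3
    · exact absurd h3 (X_ne_zero _)
    · exact h3
  · funext j
    rw [X3_smul] at h2
    have h3 : (X 2 : AA) * r.2 j = 0 := congrFun h2 j
    rcases mul_eq_zero.1 h3 with h4 | h4
    · exact absurd h4 (X_ne_zero _)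
    · exact h4

/-- the coefficients of `t` as a polynomial in `z` -/
noncomputable def cz (t : TT) (i : ℕ) : AA := (finSuccEquiv ℚ 3 t).coeff i

lemma X3_dvd_of (t : TT) (h : ∀ i, (X 2 : AA) ∣ cz t i) : (X 3 : TT) ∣ t := by
  have h1 : Polynomial.C (X 2 : AA) ∣ finSuccEquiv ℚ 3 t := (Polynomial.C_dvd_iff_dvd_coeff _ _).2 h
  obtain ⟨ψ, hψ⟩ := h1
  refine ⟨(finSuccEquiv ℚ 3).symm ψ, ?_⟩
  apply (finSuccEquiv ℚ 3).injective
  rw [map_mul, AlgEquiv.apply_symm_apply, hψ]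
  congr 1
  exact (finSuccEquiv_X_succ (R := ℚ) (n := 3) (j := 2)).symm

lemma cz_eq_zero {t : TT} {D : ℤ} (ht : WH (e1 4) D t) {i : ℕ} (hi : D < i) : cz t i = 0 := by
  ext m
  unfold cz
  rw [finSuccEquiv_coeff_coeff, coeff_zero]
  by_contra hne
  have h1 := ht _ hne
  rw [Fin.sum_univ_succ] at h1
  simp only [Finsupp.cons_zero, Finsupp.cons_succ] at h1
  have h2 : (0 : ℤ) ≤ ∑ j : Fin 3, ((e1 4 j.succ : ℕ) : ℤ) * (m j : ℤ) :=
    Finset.sum_nonneg fun _ _ => by positivity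
  push_cast at h1 h2
  linarith

lemma smul_low {t : TT} {D : ℤ} (hD : D < 3) (ht : WH (e1 4) D t) (n : NN) (j : Fin 5) :
    (t • n) j = cz t 0 * n j + cz t 1 * Zfun n j + cz t 2 * Zfun (Zfun n) j := by
  have hdeg : (finSuccEquiv ℚ 3 t).natDegree < 3 := by
    rw [Nat.lt_succ_iff, Polynomial.natDegree_le_iff_coeff_eq_zero]
    intro i hi
    exact cz_eq_zero ht (by omega)
  have h1 : t • n = (Polynomial.aeval ZZ (finSuccEquiv ℚ 3 t)) n := rfl
  rw [h1, Polynomial.aeval_eq_sum_range' hdeg, Finset.sum_range_succ, Finset.sum_range_succ,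
    Finset.sum_range_one, pow_zero, pow_one, pow_two]
  rfl

lemma not_X2_dvd_X0 : ¬ (X 2 : AA) ∣ X 0 := by
  rw [X_dvd_X]; decide

lemma not_X2_dvd_X1 : ¬ (X 2 : AA) ∣ X 1 := by
  rw [X_dvd_X]; decide

lemma X2_dvd_of_mul_X0 {p : AA} (h : (X 2 : AA) ∣ p * X 0) : (X 2 : AA) ∣ p := by
  rcases (X_prime (R := ℚ) (i := (2 : Fin 3))).dvd_or_dvd h with h | h
  · exact h
  · exact absurd h not_X2_dvd_X0

lemma X2_dvd_of_mul_X1 {p : AA} (h : (X 2 : AA) ∣ p * X 1) : (X 2 : AA) ∣ p := by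
  rcases (X_prime (R := ℚ) (i := (2 : Fin 3))).dvd_or_dvd h with h | h
  · exact h
  · exact absurd h not_X2_dvd_X1

/-- the basis vector `a` -/
noncomputable def ea : NN := ![0, 0, 0, 1, 0]

lemma t_dvd {t : TT} {D : ℤ} (hD : D < 3) (ht : WH (e1 4) D t)
    (h : ∀ j : Fin 5, (X 2 : AA) ∣ (t • ea) j) : (X 3 : TT) ∣ t := by
  simp only [smul_low hD ht] at h
  have h0 := h 0
  have h3 := h 3
  have h4 := h 4
  have e0 : ea 0 = 0 := rfl
  have e3 : ea 3 = 1 := rfl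
  have e4 : ea 4 = 0 := rfl
  have z0 : Zfun ea 0 = X 0 := by simp [Zfun, ea]
  have z3 : Zfun ea 3 = 0 := by simp [Zfun, ea]
  have z4 : Zfun ea 4 = 0 := by simp [Zfun, ea]
  have y0 : Zfun (Zfun ea) 0 = 0 := by simp [Zfun, ea]
  have y3 : Zfun (Zfun ea) 3 = - (X 0 * X 1) := by simp [Zfun, ea]; ring
  have y4 : Zfun (Zfun ea) 4 = - (X 1 * X 1) := by simp [Zfun, ea]
  rw [e0, z0, y0, mul_zero, mul_zero, zero_add, add_zero] at h0
  rw [e3, z3, y3, mul_zero, mul_one, add_zero] at h3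
  rw [e4, z4, y4, mul_zero, mul_zero, zero_add, zero_add] at h4
  have d1 := X2_dvd_of_mul_X0 h0
  have d2 : (X 2 : AA) ∣ cz t 2 := by
    have : cz t 2 * -(X 1 * X 1) = (- cz t 2 * X 1) * X 1 := by ring
    rw [this] at h4
    have := X2_dvd_of_mul_X1 (X2_dvd_of_mul_X1 h4)
    rwa [dvd_neg] at this
  have d0 : (X 2 : AA) ∣ cz t 0 := (dvd_add_left (Dvd.dvd.mul_right d2 _)).1 h3
  apply X3_dvd_of
  intro i
  by_cases hi : D < i
  · rw [cz_eq_zero ht hi]; exact dvd_zero _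
  · have : i < 3 := by omega
    interval_cases i
    · exact d0
    · exact d1
    · exact d2

lemma coeff_of_X2_dvd {p : AA} (h : (X 2 : AA) ∣ p) (m : Fin 3 →₀ ℕ) (hm : m 2 = 0) :
    coeff m p = 0 := by
  obtain ⟨q, rfl⟩ := h
  rw [coeff_X_mul', if_neg]
  simp [hm]

lemma X2_dvd_of_coeff {p : AA} (h : ∀ m : Fin 3 →₀ ℕ, m 2 = 0 → coeff m p = 0) :
    (X 2 : AA) ∣ p := by
  rw [X_dvd_iff_modMonomial_eq_zero]
  ext m
  rw [coeff_zero]
  by_cases hm : Finsupp.single 2 1 ≤ m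
  · exact coeff_modMonomial_of_le _ hm
  · rw [coeff_modMonomial_of_not_le _ hm]
    apply h
    rw [Finsupp.single_le_iff] at hm
    omega

lemma coeff_X_mul_zero {p : AA} {i : Fin 3} {m : Fin 3 →₀ ℕ} (hm : m i = 0) :
    coeff m (X i * p) = 0 := by
  rw [coeff_X_mul', if_neg]
  simp [hm]

lemma n_dvd {n : NN} {E : ℤ} (hE : E ≤ 1) (hn : HN E n)
    (h : ∀ j : Fin 5, (X 2 : AA) ∣ Zfun n j) : ∀ j : Fin 5, (X 2 : AA) ∣ n j := by
  have h0 : (X 2 : AA) ∣ X 0 * n 3 := h 0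
  have h2 : (X 2 : AA) ∣ X 1 * n 4 := h 2
  have h3 : (X 2 : AA) ∣ -2 * X 1 * n 0 + X 0 * n 1 := h 3
  have h4 : (X 2 : AA) ∣ -X 1 * n 1 + 2 * X 0 * n 2 := h 4
  have E1 : ∀ m : Fin 3 →₀ ℕ, m 2 = 0 →
      - 2 * coeff m (X 1 * n 0) + coeff m (X 0 * n 1) = 0 := by
    intro m hm
    have := coeff_of_X2_dvd h3 m hm
    rw [← this]
    have e : (-2 * X 1 * n 0 + X 0 * n 1 : AA) = C (-2) * (X 1 * n 0) + X 0 * n 1 := by
      rw [map_neg, map_ofNat]; ring
    rw [e, coeff_add, coeff_C_mul]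
  have E2 : ∀ m : Fin 3 →₀ ℕ, m 2 = 0 →
      - coeff m (X 1 * n 1) + 2 * coeff m (X 0 * n 2) = 0 := by
    intro m hm
    have := coeff_of_X2_dvd h4 m hm
    rw [← this]
    have e : (-X 1 * n 1 + 2 * X 0 * n 2 : AA) = C (-1) * (X 1 * n 1) + C 2 * (X 0 * n 2) := by
      rw [map_neg, map_one, map_ofNat]; ring
    rw [e, coeff_add, coeff_C_mul, coeff_C_mul]
    ring
  have s01 : ∀ m : Fin 3 →₀ ℕ, ((Finsupp.single (1 : Fin 3) 1 + m : Fin 3 →₀ ℕ)) 0 = m 0 := by
    intro m; simp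
  have s02 : ∀ m : Fin 3 →₀ ℕ, ((Finsupp.single (1 : Fin 3) 1 + m : Fin 3 →₀ ℕ)) 2 = m 2 := by
    intro m; simp
  have s10 : ∀ m : Fin 3 →₀ ℕ, ((Finsupp.single (0 : Fin 3) 1 + m : Fin 3 →₀ ℕ)) 1 = m 1 := by
    intro m; simp
  have s12 : ∀ m : Fin 3 →₀ ℕ, ((Finsupp.single (0 : Fin 3) 1 + m : Fin 3 →₀ ℕ)) 2 = m 2 := by
    intro m; simp
  -- coefficients of `n 0` with `m 0 = 0`
  have A0 : ∀ m : Fin 3 →₀ ℕ, m 2 = 0 → m 0 = 0 → coeff m (n 0) = 0 := by
    intro m hm hm0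
    have := E1 (Finsupp.single 1 1 + m) (by rw [s02]; exact hm)
    rw [coeff_X_mul, coeff_X_mul_zero (by rw [s01]; exact hm0)] at this
    linarith
  have A1 : ∀ m : Fin 3 →₀ ℕ, m 2 = 0 → m 1 = 0 → coeff m (n 1) = 0 := by
    intro m hm hm0
    have := E1 (Finsupp.single 0 1 + m) (by rw [s12]; exact hm)
    rw [coeff_X_mul, coeff_X_mul_zero (by rw [s10]; exact hm0)] at this
    linarith
  have B1 : ∀ m : Fin 3 →₀ ℕ, m 2 = 0 → m 0 = 0 → coeff m (n 1) = 0 := by
    intro m hm hm0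
    have := E2 (Finsupp.single 1 1 + m) (by rw [s02]; exact hm)
    rw [coeff_X_mul, coeff_X_mul_zero (by rw [s01]; exact hm0)] at this
    linarith
  have B2 : ∀ m : Fin 3 →₀ ℕ, m 2 = 0 → m 1 = 0 → coeff m (n 2) = 0 := by
    intro m hm hm0
    have := E2 (Finsupp.single 0 1 + m) (by rw [s12]; exact hm)
    rw [coeff_X_mul, coeff_X_mul_zero (by rw [s10]; exact hm0)] at this
    linarith
  have small : ∀ (j : Fin 5) (m : Fin 3 →₀ ℕ), coeff m (n j) ≠ 0 →
      (m 0 : ℤ) + m 1 + m 2 = E := by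
    intro j m hm
    have := hn j m hm
    rw [Fin.sum_univ_three] at this
    simpa using this
  have c1 : ∀ m : Fin 3 →₀ ℕ, m 2 = 0 → coeff m (n 1) = 0 := by
    intro m hm
    by_contra hne
    have h1 := small 1 m hne
    by_cases h0 : m 0 = 0
    · exact hne (B1 m hm h0)
    · exact hne (A1 m hm (by omega))
  have c0 : ∀ m : Fin 3 →₀ ℕ, m 2 = 0 → coeff m (n 0) = 0 := by
    intro m hm
    by_contra hne
    have h1 := small 0 m hne
    by_cases h0 : m 0 = 0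
    · exact hne (A0 m hm h0)
    · have := E1 (Finsupp.single 1 1 + m) (by rw [s02]; exact hm)
      have e : Finsupp.single (1 : Fin 3) 1 + m =
          Finsupp.single (0 : Fin 3) 1 + Finsupp.single (1 : Fin 3) 1 := by
        ext k
        fin_cases k
        · simp; omega
        · simp; omega
        · simp [hm]
      rw [coeff_X_mul, e, coeff_X_mul, c1 _ (by simp)] at this
      apply hne
      linarith
  have c2 : ∀ m : Fin 3 →₀ ℕ, m 2 = 0 → coeff m (n 2) = 0 := by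
    intro m hm
    by_contra hne
    have h1 := small 2 m hne
    by_cases h0 : m 1 = 0
    · exact hne (B2 m hm h0)
    · have := E2 (Finsupp.single 0 1 + m) (by rw [s12]; exact hm)
      have e : Finsupp.single (0 : Fin 3) 1 + m =
          Finsupp.single (1 : Fin 3) 1 + Finsupp.single (0 : Fin 3) 1 := by
        ext k
        fin_cases k
        · simp; omega
        · simp; omega
        · simp [hm]
      rw [coeff_X_mul, e, coeff_X_mul, c1 _ (by simp)] at this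
      apply hne
      linarith
  intro j
  fin_cases j
  · exact X2_dvd_of_coeff c0
  · exact X2_dvd_of_coeff c1
  · exact X2_dvd_of_coeff c2
  · exact X2_dvd_of_mul_X0 (by rw [mul_comm]; exact h0)
  · exact X2_dvd_of_mul_X1 (by rw [mul_comm]; exact h2)

theorem three_le (j : ℕ) (g : RR) (hg : g ∈ gr j)
    (hp : (Submodule.colon (Ideal.span {ww}) ({g} : Set RR)).IsPrime) : 3 ≤ j := by
  by_contra hj
  push Not at hj
  have mem : ∀ r : RR, r ∈ Submodule.colon (Ideal.span {ww}) ({g} : Set RR) ↔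
      (X 3 : TT) ∣ r.1 * g.1 ∧ ∀ j : Fin 5, (X 2 : AA) ∣ (r.1 • g.2 + g.1 • r.2) j := by
    intro r
    rw [Submodule.mem_colon_singleton, smul_eq_mul, mem_span_ww]
    rfl
  -- elements of `N` lie in the prime
  have hN : ∀ n : NN, RR.inr n ∈ Submodule.colon (Ideal.span {ww}) ({g} : Set RR) := by
    intro n
    have : RR.inr n * RR.inr n ∈ Submodule.colon (Ideal.span {ww}) ({g} : Set RR) := by
      have : RR.inr n * RR.inr n = 0 := by
        apply RR.ext'
        · simp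
        · simp
      rw [this]; exact Ideal.zero_mem _
    rcases hp.mem_or_mem this with h | h <;> exact h
  have h1 := ((mem _).1 (hN ea)).2
  simp only [RR.fst_inr, RR.snd_inr, zero_smul, zero_add] at h1
  have ht := t_dvd (by omega) hg.1 h1
  have hz : RR.inl (X 0) ^ 5 ∈ Submodule.colon (Ideal.span {ww}) ({g} : Set RR) := by
    rw [← map_pow, mem]
    refine ⟨Dvd.dvd.mul_left ht _, ?_⟩
    intro j
    rw [RR.fst_inl, RR.snd_inl, X0_pow5_smul, smul_zero, add_zero]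
    exact dvd_zero _
  have hz1 := hp.mem_of_pow_mem _ hz
  have h2 := ((mem _).1 hz1).2
  rw [RR.fst_inl, RR.snd_inl, smul_zero, add_zero, X0_smul] at h2
  have hn := n_dvd (by omega) hg.2 h2
  apply hp.ne_top
  rw [Ideal.eq_top_iff_one, mem]
  refine ⟨Dvd.dvd.mul_left ht _, ?_⟩
  intro j
  rw [RR.fst_one, RR.snd_one, one_smul, smul_zero, add_zero]
  exact hn j

/-- the vector `x² aa + 2xy ab + y² bb` killed by `z` -/
noncomputable def v0 : NN := ![X 0 ^ 2, 2 * X 0 * X 1, X 1 ^ 2, 0, 0]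

lemma Zfun_v0 : Zfun v0 = (0 : NN) := by
  funext j
  change Zfun v0 j = (0 : AA)
  fin_cases j <;> simp [Zfun, v0] <;> ring

lemma HN_v0 : HN 2 v0 := by
  have hX : ∀ i : Fin 3, WH (e1 3) 1 (X i : AA) := by
    intro i
    have := WH_X (K := ℚ) (e := e1 3) i
    simpa using this
  intro j
  fin_cases j
  · have := WH_mul (hX 0) (hX 0)
    rw [← pow_two] at this
    exact this
  · have := WH_C_mul 2 (WH_mul (hX 0) (hX 1))
    have e : (C (2 : ℚ) * (X 0 * X 1) : AA) = 2 * X 0 * X 1 := by rw [map_ofNat]; ring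
    rw [e] at this
    exact this
  · have := WH_mul (hX 1) (hX 1)
    rw [← pow_two] at this
    exact this
  · exact WH_zero _
  · exact WH_zero _

lemma smul_v0 (t : TT) (j : Fin 5) : (t • v0) j = cz t 0 * v0 j := by
  have h1 : t = (finSuccEquiv ℚ 3).symm (finSuccEquiv ℚ 3 t).divX * X 0 + up (cz t 0) := by
    apply (finSuccEquiv ℚ 3).injective
    rw [map_add, map_mul, AlgEquiv.apply_symm_apply, finSuccEquiv_X_zero, finSucc_up]
    exact (Polynomial.divX_mul_X_add _).symm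
  conv_lhs => rw [h1]
  rw [add_smul, mul_smul, X0_smul, Zfun_v0, smul_zero, zero_add, up_smul]

/-- the projection `R → T → A`, `z ↦ 0` -/
noncomputable def psi : RR →+* AA :=
  ((Polynomial.constantCoeff : Polynomial AA →+* AA).comp
    ((finSuccEquiv ℚ 3 : TT ≃ₐ[ℚ] Polynomial AA) : TT →+* Polynomial AA)).comp RR.fstHom

lemma psi_apply (r : RR) : psi r = cz r.1 0 := rfl

theorem colon_v0_prime :
    (Submodule.colon (Ideal.span {ww}) ({RR.inr v0} : Set RR)).IsPrime := by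
  have h : Submodule.colon (Ideal.span {ww}) ({RR.inr v0} : Set RR)
      = Ideal.comap psi (Ideal.span {X 2}) := by
    ext r
    rw [Submodule.mem_colon_singleton, smul_eq_mul, mem_span_ww, Ideal.mem_comap, psi_apply,
      Ideal.mem_span_singleton]
    rw [RR.fst_mul, RR.snd_mul, RR.fst_inr, RR.snd_inr, zero_smul, add_zero, mul_zero]
    simp only [smul_v0]
    constructor
    · rintro ⟨_, h⟩
      have h0 := h 0
      have e : cz r.1 0 * v0 0 = (cz r.1 0 * X 0) * X 0 := by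
        simp [v0]; ring
      rw [e] at h0
      exact X2_dvd_of_mul_X0 (X2_dvd_of_mul_X0 h0)
    · intro h
      exact ⟨dvd_zero _, fun j => Dvd.dvd.mul_right h _⟩
  rw [h]
  have : (Ideal.span {(X 2 : AA)}).IsPrime :=
    (Ideal.span_singleton_prime (X_ne_zero _)).2 X_prime
  exact Ideal.comap_isPrime _ _

lemma inr_v0_mem : RR.inr v0 ∈ gr 3 := by
  refine ⟨WH_zero _, ?_⟩
  have := HN_v0
  rw [RR.snd_inr]
  norm_num
  exact this

theorem le_vNum_RR (k : ℕ) : k + 3 ≤ vNum gr (Ideal.span {ww ^ (k + 1)}) := by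
  have := le_vNum_principal ww_mem ww_reg 3 three_le 3 (RR.inr v0) inr_v0_mem colon_v0_prime k
  omega

end R656V
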