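import Mathlib
import Pool.Agent.R656.VRegDefs
import Pool.Agent.R656.VRegKoszul
import Pool.Agent.R656.VRegGen
import Pool.Agent.R656.VRegPoly
import Pool.Agent.R656.VRegRing
import Pool.Agent.R656.VRegGrade
import Pool.Agent.R656.VRegV
import Pool.Agent.R656.VRegReg

/-!
# `R = T ⋉ N(-1)` is a standard graded `ℚ`-algebra
-/

namespace R656V

open MvPolynomial

instance : Nontrivial RR := ⟨⟨0, 1, fun h => by
  have : (0 : TT) = 1 := congrArg RR.fstHom h
  exact zero_ne_one this⟩⟩

lemma gr_zero (r : RR) (hr : r ∈ gr 0) : ∃ a : ℚ, algebraMap ℚ RR a = r := by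
  refine ⟨coeff 0 r.1, ?_⟩
  rw [RR.algebraMap_eq]
  apply RR.ext'
  · rw [RR.fst_inl]
    ext m
    rw [coeff_C]
    split_ifs with h
    · rw [h]
    · by_contra hne
      have h1 := hr.1 m (Ne.symm hne)
      rw [← weight_eq_sum] at h1
      have h2 : ∀ j, m j = 0 := by
        intro j
        rw [weight_eq_sum] at h1
        have h3 : ((e1 4 j : ℕ) : ℤ) * (m j : ℤ) ≤ ∑ j, ((e1 4 j : ℕ) : ℤ) * (m j : ℤ) :=
          Finset.single_le_sum (f := fun j => ((e1 4 j : ℕ) : ℤ) * (m j : ℤ))
            (fun _ _ => by positivity) (Finset.mem_univ j)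
        rw [h1] at h3
        push_cast at h3
        omega
      apply h
      ext j
      rw [h2 j]
      rfl
  · rw [RR.snd_inl]
    funext j
    exact (WH_neg_deg (by norm_num) (hr.2 j)).symm

/-- standard basis vectors of `N` -/
noncomputable def bj (j : Fin 5) : NN := fun k => if k = j then 1 else 0

lemma inr_eq_sum (n : NN) : RR.inr n = ∑ j : Fin 5, RR.inl (up (n j)) * RR.inr (bj j) := by
  apply RR.ext'
  · rw [fst_sum]
    simp
  · rw [snd_sum, RR.snd_inr]
    funext k
    rw [NN_sum_apply]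
    have h : ∀ j : Fin 5, (RR.inl (up (n j)) * RR.inr (bj j)).2 k = if k = j then n j else 0 := by
      intro j
      rw [RR.snd_mul, RR.fst_inl, RR.fst_inr, RR.snd_inl, RR.snd_inr, smul_zero, add_zero,
        up_smul]
      simp only [bj]
      split_ifs <;> simp
    simp only [h]
    have := Finset.sum_ite_eq (Finset.univ : Finset (Fin 5)) k (fun j => (n j : AA))
    rw [if_pos (Finset.mem_univ k)] at this
    exact this.symm

lemma eq_inl_add_inr (r : RR) : r = RR.inl r.1 + RR.inr r.2 := by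
  apply RR.ext'
  · simp
  · simp

theorem adjoin_gens : Algebra.adjoin ℚ (Set.range xx ∪ Set.range (fun j => RR.inr (bj j))) = ⊤ := by
  rw [eq_top_iff]
  intro r _
  have h1 : ∀ t : TT, RR.inl t ∈
      Algebra.adjoin ℚ (Set.range xx ∪ Set.range (fun j => RR.inr (bj j))) := by
    intro t
    induction t using MvPolynomial.induction_on with
    | C q => exact Subalgebra.algebraMap_mem _ q
    | add p q hp hq => rw [map_add]; exact Subalgebra.add_mem _ hp hq
    | mul_X p i hp =>
      rw [map_mul]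
      exact Subalgebra.mul_mem _ hp (Algebra.subset_adjoin (Or.inl ⟨i, rfl⟩))
  rw [eq_inl_add_inr r, inr_eq_sum]
  refine Subalgebra.add_mem _ (h1 _) (Subalgebra.sum_mem _ fun j _ => ?_)
  exact Subalgebra.mul_mem _ (h1 _) (Algebra.subset_adjoin (Or.inr ⟨j, rfl⟩))

lemma gens_mem : Set.range xx ∪ Set.range (fun j => RR.inr (bj j)) ⊆ (gr 1 : Set RR) := by
  rintro _ (⟨j, rfl⟩ | ⟨j, rfl⟩)
  · exact xx_mem j
  · refine ⟨WH_zero _, ?_⟩
    intro k
    have : ((1 : ℕ) : ℤ) - 1 = 0 := by norm_num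
    rw [this, RR.snd_inr]
    unfold bj
    split_ifs
    · have := WH_C (e := e1 3) (1 : ℚ)
      rwa [map_one] at this
    · exact WH_zero _

theorem adjoin_gr_one : Algebra.adjoin ℚ (gr 1 : Set RR) = ⊤ := by
  rw [eq_top_iff, ← adjoin_gens]
  exact Algebra.adjoin_mono gens_mem

instance RR_finiteType : Algebra.FiniteType ℚ RR :=
  ⟨Subalgebra.fg_def.2 ⟨_, (Set.finite_range _).union (Set.finite_range _), adjoin_gens⟩⟩

instance RR_noetherian : IsNoetherianRing RR := Algebra.FiniteType.isNoetherianRing ℚ RR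

theorem isGenSeq_xx : IsGenSeq gr xx (e1 4) := by
  refine ⟨fun _ => Nat.one_pos, xx_mem, le_antisymm ?_ ?_⟩
  · refine Ideal.radical_mono ?_
    rw [Ideal.span_le]
    rintro _ ⟨j, rfl⟩
    exact HomogeneousIdeal.mem_irrelevant_of_mem gr Nat.one_pos (xx_mem j)
  · rw [Ideal.radical_le_radical_iff, HomogeneousIdeal.toIdeal_irrelevant_le]
    intro i hi r hr
    change r ∈ (Ideal.span (Set.range xx)).radical
    rw [eq_inl_add_inr r]
    refine Ideal.add_mem _ ?_ ?_
    · apply Ideal.le_radical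
      have hc : constantCoeff r.1 = 0 := by
        by_contra h
        have h1 := hr.1 0 h
        simp at h1
        omega
      have h2 := mem_span_X_of_constantCoeff hc
      have h3 := Ideal.mem_map_of_mem RR.inl h2
      rw [Ideal.map_span, ← Set.range_comp] at h3
      exact h3
    · refine ⟨2, ?_⟩
      have : RR.inr r.2 ^ 2 = 0 := by
        rw [pow_two]
        apply RR.ext' <;> simp
      rw [this]
      exact Ideal.zero_mem _

theorem reg_RR_le (k : ℕ) : reg gr xx (e1 4) (Ideal.span {ww ^ k}) ≤ (((k + 1 : ℤ) : ℝ) : EReal) := by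
  refine reg_le_of ?_
  intro i d hd
  refine LCZero_principal ww_mem ww_reg k i d ?_
  refine RR_LCZero i _ ?_
  push_cast
  linarith

lemma span_ww_ne_top : Ideal.span {ww} ≠ ⊤ := by
  intro h
  have : (1 : RR) ∈ Ideal.span {ww} := by rw [h]; trivial
  rw [mem_span_ww] at this
  have h1 : (X 3 : TT) ∣ 1 := this.1
  exact (X_prime (R := ℚ) (i := (3 : Fin 4))).not_isUnit (isUnit_of_dvd_one h1)

theorem rees_noetherian' {C R : Type} [CommRing C] [CommRing R] [Algebra C R]
    {𝒜 : ℕ → Submodule C R} [GradedAlgebra 𝒜] [IsNoetherianRing R] (J : Ideal R)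
    (h : IsGradedFiltration 𝒜 (fun k => J ^ k)) : IsNoetherianRing (rees h) := by
  have h1 : ∀ p : Polynomial R, p ∈ reesAlgebra J ↔ p ∈ rees h := by
    intro p
    rw [mem_reesAlgebra_iff]
    rfl
  let f : reesAlgebra J →+* rees h :=
    { toFun := fun p => ⟨p.1, (h1 _).1 p.2⟩
      map_one' := rfl
      map_mul' := fun _ _ => rfl
      map_zero' := rfl
      map_add' := fun _ _ => rfl }
  refine isNoetherianRing_of_surjective _ _ f ?_
  intro p
  exact ⟨⟨p.1, (h1 _).2 p.2⟩, rfl⟩

theorem isGradedFiltration_ww : IsGradedFiltration gr (fun k => Ideal.span {ww} ^ k) := by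
  have h := isGradedFiltration_pow ww_mem
  have e : (fun k => Ideal.span {ww} ^ k) = fun k => Ideal.span {ww ^ k} := by
    funext k
    rw [Ideal.span_singleton_pow]
  rw [e]
  exact h

theorem reg_lt_vNum (k : ℕ) (hk : 0 < k) :
    reg gr xx (e1 4) (Ideal.span {ww} ^ k) < ((vNum gr (Ideal.span {ww} ^ k) : ℝ) : EReal) := by
  rw [Ideal.span_singleton_pow]
  obtain ⟨l, rfl⟩ : ∃ l, k = l + 1 := ⟨k - 1, by omega⟩
  refine lt_of_le_of_lt (reg_RR_le (l + 1)) ?_
  rw [EReal.coe_lt_coe_iff]
  have := le_vNum_RR l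
  have h : ((l + 1 : ℕ) : ℤ) + 1 < ((vNum gr (Ideal.span {ww ^ (l + 1)}) : ℕ) : ℤ) := by omega
  exact_mod_cast h

end R656V
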